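import Pool.Agent.P8H69.OL.Ph

set_option autoImplicit false

/-!
# The mean square over the directions of the number of zeros
-/

namespace Pool.Agent.P8H69.PL

open MeasureTheory Set Filter Topology Complex
open scoped ENNReal

/-- the multiples of `π` for a direction -/
def KS (α β θ : ℝ) : Set ℤ := {k | α < (2 * k + 1) * Real.pi / 2 - θ ∧ (2 * k + 1) * Real.pi / 2 - θ < β}

/-- the basic interval -/
def II (α β : ℝ) : Set ℝ := Ioo (Real.pi / 2 - β) (Real.pi / 2 - α)

lemma KS_iff (α β θ : ℝ) (k : ℤ) : k ∈ KS α β θ ↔ θ - k * Real.pi ∈ II α β := by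
  unfold KS II
  simp only [mem_ofPred_eq, mem_Ioo]
  constructor
  · rintro ⟨h1, h2⟩
    constructor <;> linarith
  · rintro ⟨h1, h2⟩
    constructor <;> linarith

/-- the number of the multiples, as a sum -/
noncomputable def nn (α β θ : ℝ) : ℝ≥0∞ := ∑' k : ℤ, (II α β).indicator (fun _ => (1 : ℝ≥0∞)) (θ - k * Real.pi)

lemma II_meas (α β : ℝ) : MeasurableSet (II α β) := measurableSet_Ioo

lemma ind_meas (α β : ℝ) : Measurable ((II α β).indicator (fun _ => (1 : ℝ≥0∞))) :=
  measurable_const.indicator (II_meas α β)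

lemma nn_meas (α β : ℝ) : Measurable (nn α β) := by
  unfold nn
  exact Measurable.tsum fun k => (ind_meas α β).comp (measurable_id.sub_const _)

lemma nn_shift (α β θ : ℝ) (n : ℤ) : nn α β (θ + n * Real.pi) = nn α β θ := by
  unfold nn
  rw [← (Equiv.addRight n).tsum_eq]
  refine tsum_congr fun k => ?_
  congr 1
  simp only [Equiv.coe_addRight]
  push_cast
  ring

lemma KS_finite (α β θ : ℝ) : (KS α β θ).Finite := by
  have hpi := Real.pi_pos
  refine (Set.finite_Icc ⌊(α + θ - Real.pi / 2) / Real.pi⌋ ⌈(β + θ - Real.pi / 2) / Real.pi⌉).subset fun k hk => ?_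
  obtain ⟨h1, h2⟩ := hk
  have h3 : (α + θ - Real.pi / 2) / Real.pi < k := by
    rw [div_lt_iff₀ hpi]
    linarith
  have h4 : (k : ℝ) < (β + θ - Real.pi / 2) / Real.pi := by
    rw [lt_div_iff₀ hpi]
    linarith
  constructor
  · have := (Int.floor_le ((α + θ - Real.pi / 2) / Real.pi)).trans h3.le
    exact_mod_cast this
  · have := h4.le.trans (Int.le_ceil ((β + θ - Real.pi / 2) / Real.pi))
    exact_mod_cast this

lemma nn_card (α β θ : ℝ) : nn α β θ = ((KS α β θ).ncard : ℝ≥0∞) := by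
  classical
  have hf := KS_finite α β θ
  unfold nn
  rw [tsum_eq_sum (s := hf.toFinset)]
  · rw [Set.ncard_eq_toFinset_card _ hf, Finset.card_eq_sum_ones, Nat.cast_sum]
    refine Finset.sum_congr rfl fun k hk => ?_
    rw [Set.Finite.mem_toFinset, KS_iff] at hk
    rw [indicator_of_mem hk]
    simp
  · intro k hk
    rw [Set.Finite.mem_toFinset, KS_iff] at hk
    rw [indicator_of_notMem hk]

/-- integrals of periodizations -/
lemma unfold_int (F : ℝ → ℝ≥0∞) (hF : Measurable F) :
    ∫⁻ x, F x = ∫⁻ x in Ioc 0 Real.pi, ∑' k : ℤ, F (x + k * Real.pi) := by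
  have hpi := Real.pi_pos
  rw [lintegral_tsum (f := fun (k : ℤ) (x : ℝ) => F (x + k * Real.pi))
    (fun k => (hF.comp (measurable_id.add_const ((k : ℝ) * Real.pi))).aemeasurable)]
  have h1 : (univ : Set ℝ) = ⋃ k : ℤ, Ioc ((k : ℝ) * Real.pi) ((k + 1 : ℝ) * Real.pi) := by
    have := iUnion_Ioc_zsmul hpi
    simp only [zsmul_eq_mul] at this
    push_cast at this
    exact this.symm
  rw [← setLIntegral_univ, h1, lintegral_iUnion (fun _ => measurableSet_Ioc)]
  · refine tsum_congr fun k => ?_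
    rw [← lintegral_indicator measurableSet_Ioc, ← lintegral_indicator measurableSet_Ioc,
      ← lintegral_add_right_eq_self _ ((k : ℝ) * Real.pi)]
    refine lintegral_congr fun x => ?_
    by_cases hx : x ∈ Ioc 0 Real.pi
    · have : x + k * Real.pi ∈ Ioc ((k : ℝ) * Real.pi) ((k + 1 : ℝ) * Real.pi) :=
        ⟨by linarith [hx.1], by linarith [hx.2]⟩
      rw [indicator_of_mem hx, indicator_of_mem this]
    · have : x + k * Real.pi ∉ Ioc ((k : ℝ) * Real.pi) ((k + 1 : ℝ) * Real.pi) :=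
        fun h3 => hx ⟨by linarith [h3.1], by linarith [h3.2]⟩
      rw [indicator_of_notMem hx, indicator_of_notMem this]
  · have := pairwise_disjoint_Ioc_zsmul Real.pi
    simp only [zsmul_eq_mul] at this
    push_cast at this
    exact this

lemma inter_vol {α β : ℝ} (k : ℤ) : ∫⁻ x in II α β, (II α β).indicator (fun _ => (1 : ℝ≥0∞)) (x - k * Real.pi) =
    ENNReal.ofReal (β - α - |(k : ℝ)| * Real.pi) := by
  have hpi := Real.pi_pos
  have h1 : ∫⁻ x in II α β, (II α β).indicator (fun _ => (1 : ℝ≥0∞)) (x - k * Real.pi) =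
      volume (Ioo (max (Real.pi / 2 - β) (Real.pi / 2 - β + k * Real.pi))
        (min (Real.pi / 2 - α) (Real.pi / 2 - α + k * Real.pi))) := by
    rw [← lintegral_indicator_one measurableSet_Ioo, ← lintegral_indicator (II_meas α β)]
    refine lintegral_congr fun x => ?_
    by_cases hx : x ∈ II α β
    · rw [indicator_of_mem hx]
      by_cases hx2 : x - k * Real.pi ∈ II α β
      · rw [indicator_of_mem hx2, indicator_of_mem]
        · rfl
        · exact ⟨max_lt hx.1 (by linarith [hx2.1]), lt_min hx.2 (by linarith [hx2.2])⟩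
      · rw [indicator_of_notMem hx2, indicator_of_notMem]
        intro h3
        exact hx2 ⟨by linarith [(max_lt_iff.1 h3.1).2], by linarith [(lt_min_iff.1 h3.2).2]⟩
    · rw [indicator_of_notMem hx, indicator_of_notMem]
      intro h3
      exact hx ⟨(max_lt_iff.1 h3.1).1, (lt_min_iff.1 h3.2).1⟩
  rw [h1, Real.volume_Ioo]
  congr 1
  rcases le_total 0 (k : ℝ) with h2 | h2
  · have : 0 ≤ (k : ℝ) * Real.pi := by positivity
    rw [abs_of_nonneg h2, max_eq_right (by linarith), min_eq_left (by linarith)]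
    ring
  · have : (k : ℝ) * Real.pi ≤ 0 := mul_nonpos_of_nonpos_of_nonneg h2 hpi.le
    rw [abs_of_nonpos h2, max_eq_left (by linarith), min_eq_right (by linarith)]
    ring

/-- the function `x + 2 ∑ (x - j)` -/
noncomputable def ex (x : ℝ≥0∞) : ℝ≥0∞ := ∑' j : ℕ, (x - ((j : ℝ≥0∞) + 1))

noncomputable def ff (x : ℝ≥0∞) : ℝ≥0∞ := x + 2 * ex x

lemma nn_sq {α β : ℝ} {D : ℝ≥0∞} (hD : ENNReal.ofReal Real.pi * D = ENNReal.ofReal (β - α)) :
    ∫⁻ θ in Ioc 0 Real.pi, nn α β θ ^ 2 = ENNReal.ofReal Real.pi * ff D := by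
  have hpi := Real.pi_pos
  have h1 : ∀ θ, nn α β θ ^ 2 = ∑' k : ℤ, (II α β).indicator (nn α β) (θ + k * Real.pi) := by
    intro θ
    have e : ∀ k : ℤ, (II α β).indicator (nn α β) (θ + k * Real.pi) =
        (II α β).indicator (fun _ => (1 : ℝ≥0∞)) (θ + k * Real.pi) * nn α β θ := by
      intro k
      by_cases hx : θ + k * Real.pi ∈ II α β
      · rw [indicator_of_mem hx, indicator_of_mem hx, one_mul, nn_shift]
      · rw [indicator_of_notMem hx, indicator_of_notMem hx, zero_mul]
    simp only [e]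
    rw [ENNReal.tsum_mul_right, sq]
    congr 1
    unfold nn
    rw [← (Equiv.neg ℤ).tsum_eq]
    refine tsum_congr fun k => ?_
    congr 1
    simp only [Equiv.neg_apply]
    push_cast
    ring
  simp only [h1]
  rw [← unfold_int _ ((nn_meas α β).indicator (II_meas α β)), lintegral_indicator (II_meas α β)]
  unfold nn
  rw [lintegral_tsum (f := fun (k : ℤ) (x : ℝ) => (II α β).indicator (fun _ => (1 : ℝ≥0∞)) (x - k * Real.pi))
    (fun k => ((ind_meas α β).comp (measurable_id.sub_const ((k : ℝ) * Real.pi))).aemeasurable)]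
  simp only [inter_vol]
  -- the sum over the integers
  have hs1 : Summable fun n : ℕ => ENNReal.ofReal (β - α - |(((n : ℤ) + 1 : ℤ) : ℝ)| * Real.pi) := ENNReal.summable
  have hs2 : Summable fun n : ℕ => ENNReal.ofReal (β - α - |((-((n : ℤ) + 1) : ℤ) : ℝ)| * Real.pi) := ENNReal.summable
  have h2 := (HasSum.of_add_one_of_neg_add_one (f := fun k : ℤ => ENNReal.ofReal (β - α - |(k : ℝ)| * Real.pi))
    hs1.hasSum hs2.hasSum).tsum_eq
  rw [h2]
  have e1 : ∀ n : ℕ, ENNReal.ofReal (β - α - |(((n : ℤ) + 1 : ℤ) : ℝ)| * Real.pi) =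
      ENNReal.ofReal Real.pi * (D - ((n : ℝ≥0∞) + 1)) := by
    intro n
    have e : |(((n : ℤ) + 1 : ℤ) : ℝ)| = (n : ℝ) + 1 := by
      push_cast
      exact abs_of_nonneg (by positivity)
    rw [e, ENNReal.mul_sub (fun _ _ => ENNReal.ofReal_ne_top), hD, ENNReal.ofReal_sub _ (by positivity)]
    congr 1
    rw [mul_comm, ENNReal.ofReal_mul hpi.le, ENNReal.ofReal_add (by positivity) zero_le_one, ENNReal.ofReal_natCast,
      ENNReal.ofReal_one]
  have e2 : ∀ n : ℕ, ENNReal.ofReal (β - α - |((-((n : ℤ) + 1) : ℤ) : ℝ)| * Real.pi) =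
      ENNReal.ofReal Real.pi * (D - ((n : ℝ≥0∞) + 1)) := by
    intro n
    rw [← e1]
    congr 3
    push_cast
    rw [← abs_neg]
    congr 1
    ring
  simp only [e1, e2]
  rw [ENNReal.tsum_mul_left]
  unfold ff ex
  have e3 : ENNReal.ofReal (β - α - |((0 : ℤ) : ℝ)| * Real.pi) = ENNReal.ofReal Real.pi * D := by
    rw [hD]
    congr 1
    simp
  rw [e3, two_mul]
  ring

/-- the number of zeros for a direction, in terms of the phase -/
theorem dir_count {f f' : ℝ → ℂ} (hf : ∀ y, HasDerivAt f (f' y) y) (hc : Continuous f') (hne : ∀ y, f y ≠ 0)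
    {w : ℝ → ℝ} (hw : ∀ y, w y = (f' y / f y).im) (hpos : ∀ y, 0 < w y) {t t' : ℝ} (h : t < t') :
    ∃ α β : ℝ, α < β ∧ β - α = ∫ y in t..t', w y ∧
      ∀ θ : ℝ, {y : ℝ | t < y ∧ y < t' ∧ (cexp (I * θ) * f y).re = 0}.ncard = (KS α β θ).ncard := by
  have hcf : Continuous f := continuous_iff_continuousAt.2 fun y => (hf y).continuousAt
  have hcq : Continuous (fun y => f' y / f y) := hc.div hcf hne
  obtain ⟨F, hF⟩ : ∃ F : ℝ → ℂ, F = fun y => ∫ s in (0 : ℝ)..y, f' s / f s := ⟨_, rfl⟩
  have hFd : ∀ y, HasDerivAt F (f' y / f y) y := by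
    intro y
    rw [hF]
    exact intervalIntegral.integral_hasDerivAt_right (hcq.intervalIntegrable _ _)
      (hcq.stronglyMeasurableAtFilter _ _) hcq.continuousAt
  have hF0 : F 0 = 0 := by rw [hF]; simp
  have hconst : ∀ y, f y * cexp (-F y) = f 0 := by
    have hd : ∀ y, HasDerivAt (fun y => f y * cexp (-F y)) 0 y := by
      intro y
      have h1 := (hf y).mul ((hFd y).neg.cexp)
      have e : f' y * cexp (-F y) + f y * (cexp (-F y) * -(f' y / f y)) = 0 := by
        have := hne y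
        field_simp
        ring
      have h1' : HasDerivAt (fun y => f y * cexp (-F y)) (f' y * cexp (-F y) + f y * (cexp (-F y) * -(f' y / f y))) y := h1
      rwa [e] at h1'
    intro y
    have h2 := is_const_of_deriv_eq_zero (fun y => (hd y).differentiableAt) (fun y => (hd y).deriv) y 0
    simpa [hF0] using h2
  have hfe : ∀ y, f y = f 0 * cexp (F y) := by
    intro y
    rw [← hconst y, mul_assoc, ← Complex.exp_add]
    simp
  obtain ⟨φ, hφ⟩ : ∃ φ : ℝ → ℝ, φ = fun y => arg (f 0) + (F y).im := ⟨_, rfl⟩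
  have hφd : ∀ y, HasDerivAt φ (w y) y := by
    intro y
    rw [hφ, hw]
    have h1 : HasDerivAt (fun y => (F y).im) ((f' y / f y).im) y :=
      (Complex.imCLM.hasFDerivAt.comp_hasDerivAt y (hFd y))
    exact h1.const_add _
  have hmono : StrictMono φ := strictMono_of_hasDerivAt_pos hφd hpos
  have hφc : Continuous φ := continuous_iff_continuousAt.2 fun y => (hφd y).continuousAt
  have hwc : Continuous w := by
    have : w = fun y => (f' y / f y).im := funext hw
    rw [this]
    exact Complex.continuous_im.comp hcq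
  have hinc : ∫ y in t..t', w y = φ t' - φ t :=
    intervalIntegral.integral_eq_sub_of_hasDerivAt (fun y _ => hφd y) (hwc.intervalIntegrable _ _)
  have hre : ∀ θ y : ℝ, (cexp (I * θ) * f y).re = ‖f 0‖ * Real.exp (F y).re * Real.cos (θ + φ y) := by
    intro θ y
    have e1 : cexp (I * θ) * f y = ((‖f 0‖ * Real.exp (F y).re : ℝ) : ℂ) * cexp (((θ + φ y : ℝ) : ℂ) * I) := by
      rw [hfe y]
      conv_lhs => rw [← Complex.norm_mul_exp_arg_mul_I (f 0)]
      rw [hφ]
      push_cast
      have e2 : cexp (F y) = cexp ((F y).re : ℂ) * cexp ((F y).im * I) := by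
        rw [← Complex.exp_add, Complex.re_add_im]
      rw [e2]
      have e3 : cexp ((θ + (arg (f 0) + (F y).im)) * I) = cexp (I * θ) * cexp (arg (f 0) * I) * cexp ((F y).im * I) := by
        rw [← Complex.exp_add, ← Complex.exp_add]
        congr 1
        ring
      rw [e3]
      ring
    rw [e1, Complex.re_ofReal_mul, Complex.exp_ofReal_mul_I_re]
  have hzero : ∀ θ y : ℝ, (cexp (I * θ) * f y).re = 0 ↔ ∃ k : ℤ, θ + φ y = (2 * k + 1) * Real.pi / 2 := by
    intro θ y
    rw [hre, ← Real.cos_eq_zero_iff, mul_eq_zero]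
    have h1 : 0 < ‖f 0‖ * Real.exp (F y).re := by
      have := norm_pos_iff.2 (hne 0)
      positivity
    constructor
    · rintro (h2 | h2)
      · exact absurd h2 h1.ne'
      · exact h2
    · exact Or.inr
  refine ⟨φ t, φ t', hmono h, hinc.symm, fun θ => ?_⟩
  have hpi := Real.pi_pos
  choose g hg using fun y : {y : ℝ // (cexp (I * θ) * f y).re = 0} => (hzero θ y.1).1 y.2
  have hinj : ∀ y y' : {y : ℝ // (cexp (I * θ) * f y).re = 0}, g y = g y' → y = y' := by
    intro y y' hyy
    have e1 := hg y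
    have e2 := hg y'
    rw [← hyy] at e2
    have e3 : φ y.1 = φ y'.1 := by linarith
    exact Subtype.ext (hmono.injective e3)
  refine Set.ncard_congr (fun y hy => g ⟨y, hy.2.2⟩) ?_ ?_ ?_
  · intro y hy
    have e1 := hg ⟨y, hy.2.2⟩
    refine ⟨?_, ?_⟩
    · rw [← e1]
      have := hmono hy.1
      linarith
    · rw [← e1]
      have := hmono hy.2.1
      linarith
  · intro y y' hy hy' hyy
    have := hinj _ _ hyy
    exact congrArg Subtype.val this
  · intro k hk
    obtain ⟨y, hy, hy2⟩ := intermediate_value_Ioo h.le hφc.continuousOn hk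
    have hz : (cexp (I * θ) * f y).re = 0 := (hzero θ y).2 ⟨k, by rw [hy2]; ring⟩
    refine ⟨y, ⟨hy.1, hy.2, hz⟩, ?_⟩
    have e1 := hg ⟨y, hz⟩
    simp only at e1
    rw [hy2] at e1
    have e2 : (2 * (k : ℝ) + 1) * Real.pi / 2 = (2 * (g ⟨y, hz⟩ : ℝ) + 1) * Real.pi / 2 := by linarith
    have e3 : (k : ℝ) = g ⟨y, hz⟩ := by
      have : (k : ℝ) * Real.pi = (g ⟨y, hz⟩ : ℝ) * Real.pi := by linarith
      exact mul_right_cancel₀ hpi.ne' this
    exact_mod_cast e3.symm

end Pool.Agent.P8H69.PL
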