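import Pool.Agent.P8H69.PL.Ff

set_option autoImplicit false

/-!
# The boundary error for functions of slow growth
-/

namespace Pool.Agent.P8H69.PL

open MeasureTheory Set Filter Topology
open Pool.Agent.P8H69.OL
open scoped ENNReal

/-- the growth function -/
noncomputable def qq (t : ℝ) : ℝ := Real.sqrt (Real.sqrt (1 + |t|))

lemma qq_le {x y : ℝ} (h : 1 + |x| ≤ 3 * y) : qq x ≤ 2 * Real.sqrt (Real.sqrt y) := by
  unfold qq
  have h1 : 1 + |x| ≤ 16 * y := by
    have := abs_nonneg x
    linarith
  calc Real.sqrt (Real.sqrt (1 + |x|)) ≤ Real.sqrt (Real.sqrt (16 * y)) :=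
        Real.sqrt_le_sqrt (Real.sqrt_le_sqrt h1)
    _ = 2 * Real.sqrt (Real.sqrt y) := by
        rw [show (16 : ℝ) * y = 4 ^ 2 * y by ring, Real.sqrt_mul (by norm_num), Real.sqrt_sq (by norm_num),
          show (4 : ℝ) * Real.sqrt y = 2 ^ 2 * Real.sqrt y by ring, Real.sqrt_mul (by norm_num),
          Real.sqrt_sq (by norm_num)]

/-- half of the tail -/
lemma tail_half {h R : ℝ} (hh : 0 ≤ h) (hR : 0 < R) :
    ∫⁻ r in Ioi R, pe h r * ENNReal.ofReal (Real.sqrt |r|) ≤ ENNReal.ofReal (h / Real.sqrt R) := by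
  have hpi := Real.pi_gt_three
  have h1 : ∀ r ∈ Ioi R, pe h r * ENNReal.ofReal (Real.sqrt |r|) ≤ ENNReal.ofReal (h / Real.pi * r ^ (-(3 / 2) : ℝ)) := by
    intro r hr
    rw [mem_Ioi] at hr
    have hr0 : 0 < r := hR.trans hr
    unfold pe
    rw [← ENNReal.ofReal_mul (pk_nonneg hh r)]
    apply ENNReal.ofReal_le_ofReal
    rw [abs_of_pos hr0]
    unfold pk
    have e1 : r ^ (-(3 / 2) : ℝ) = Real.sqrt r / r ^ 2 := by
      rw [Real.sqrt_eq_rpow, eq_div_iff (by positivity), ← Real.rpow_natCast, ← Real.rpow_add hr0]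
      norm_num
    rw [e1]
    rw [div_mul_eq_mul_div, div_mul_div_comm]
    apply div_le_div_of_nonneg_left (by positivity) (by positivity)
    have : 0 ≤ Real.pi * h ^ 2 := by positivity
    nlinarith
  refine (setLIntegral_mono' measurableSet_Ioi h1).trans ?_
  have hint : IntegrableOn (fun r : ℝ => r ^ (-(3 / 2) : ℝ)) (Ioi R) :=
    integrableOn_Ioi_rpow_of_lt (by norm_num) hR
  rw [← ofReal_integral_eq_lintegral_ofReal (hint.const_mul _)]
  · apply ENNReal.ofReal_le_ofReal
    rw [integral_const_mul, integral_Ioi_rpow_of_lt (by norm_num) hR]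
    have e1 : -R ^ (-(3 / 2) + 1 : ℝ) / (-(3 / 2) + 1) = 2 / Real.sqrt R := by
      rw [show (-(3 / 2) + 1 : ℝ) = -(1 / 2) by norm_num, Real.rpow_neg hR.le, ← Real.sqrt_eq_rpow]
      have := Real.sqrt_pos.2 hR
      field_simp
    rw [e1, div_mul_div_comm, div_le_div_iff₀ (by positivity) (by positivity)]
    have : 0 ≤ h * Real.sqrt R := by positivity
    nlinarith
  · filter_upwards [self_mem_ae_restrict measurableSet_Ioi] with r hr
    rw [mem_Ioi] at hr
    have hr0 : 0 < r := hR.trans hr
    positivity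

lemma tail_all {h R : ℝ} (hh : 0 ≤ h) (hR : 0 < R) :
    ∫⁻ r in {r : ℝ | R < |r|}, pe h r * ENNReal.ofReal (Real.sqrt |r|) ≤ ENNReal.ofReal (2 * h / Real.sqrt R) := by
  have h1 : {r : ℝ | R < |r|} ⊆ Ioi R ∪ Iio (-R) := by
    intro r hr
    rcases lt_abs.1 (show R < |r| from hr) with h2 | h2
    · exact Or.inl h2
    · exact Or.inr (by rw [mem_Iio]; linarith)
  have h2 : ∫⁻ r in Iio (-R), pe h r * ENNReal.ofReal (Real.sqrt |r|) =
      ∫⁻ r in Ioi R, pe h r * ENNReal.ofReal (Real.sqrt |r|) := by
    rw [← lintegral_indicator measurableSet_Iio, ← lintegral_indicator measurableSet_Ioi, ← lintegral_neg_eq_self]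
    refine lintegral_congr fun r => ?_
    by_cases hr : r ∈ Ioi R
    · have : -r ∈ Iio (-R) := by rw [mem_Iio]; rw [mem_Ioi] at hr; linarith
      rw [indicator_of_mem hr, indicator_of_mem this, pe_neg, abs_neg]
    · have : -r ∉ Iio (-R) := by
        intro h3
        apply hr
        rw [mem_Iio] at h3
        rw [mem_Ioi]
        linarith
      rw [indicator_of_notMem hr, indicator_of_notMem this]
  refine (lintegral_mono_set h1).trans ((lintegral_union_le _ _ _).trans ?_)
  rw [h2, ← two_mul]
  refine (mul_le_mul_right (tail_half hh hR) _).trans (le_of_eq ?_)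
  rw [show (2 : ℝ≥0∞) = ENNReal.ofReal 2 by simp, ← ENNReal.ofReal_mul (by norm_num)]
  congr 1
  ring

/-- the boundary error -/
theorem bdry2 {g : ℝ → ℝ≥0∞} (hg : Measurable g) {B : ℝ≥0∞} (hB : ∀ t, g t ≤ B * ENNReal.ofReal (qq t))
    {h T : ℝ} (hh : 0 < h) (hT : 1 ≤ T) :
    ∫⁻ t in Ioc 0 T, Sm h g t ≤ (∫⁻ t in Ioc 0 T, g t) +
      B * ENNReal.ofReal ((2 + 4 * h) * (T / Real.sqrt (Real.sqrt T))) := by
  have hT0 : 0 < T := by linarith
  have hs : 0 < Real.sqrt T := Real.sqrt_pos.2 hT0
  have hs1 : 1 ≤ Real.sqrt T := Real.one_le_sqrt.2 hT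
  have hss : Real.sqrt T * Real.sqrt T = T := Real.mul_self_sqrt hT0.le
  have hsT : Real.sqrt T ≤ T := by nlinarith
  obtain ⟨q, hq⟩ : ∃ q, q = Real.sqrt (Real.sqrt T) := ⟨_, rfl⟩
  have hq0 : 0 < q := by rw [hq]; exact Real.sqrt_pos.2 hs
  have hqq : q * q = Real.sqrt T := by rw [hq]; exact Real.mul_self_sqrt hs.le
  unfold Sm
  rw [lintegral_lintegral_swap]
  swap
  · exact (Sm_meas2 hg).aemeasurable
  have h1 : ∀ r, ∫⁻ t in Ioc 0 T, pe h r * g (t - r) ≤ pe h r * (∫⁻ t in Ioc 0 T, g t) +
      B * (pe h r * ENNReal.ofReal (2 * (T / q)) +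
        ENNReal.ofReal (2 * T) * {r : ℝ | Real.sqrt T < |r|}.indicator (fun r => pe h r * ENNReal.ofReal (Real.sqrt |r|)) r) := by
    intro r
    have hm : Measurable (fun t : ℝ => g (t - r)) := hg.comp (measurable_id.sub_const r)
    rw [lintegral_const_mul _ hm]
    have h2 : ∫⁻ t in Ioc 0 T, g (t - r) = ∫⁻ t in Ioc (0 - r) (T - r), g t := by
      rw [← lintegral_indicator measurableSet_Ioc, ← lintegral_indicator measurableSet_Ioc,
        ← lintegral_sub_right_eq_self ((Ioc (0 - r) (T - r)).indicator g) r]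
      refine lintegral_congr fun t => ?_
      by_cases ht : t ∈ Ioc 0 T
      · have : t - r ∈ Ioc (0 - r) (T - r) := ⟨by linarith [ht.1], by linarith [ht.2]⟩
        rw [indicator_of_mem ht, indicator_of_mem this]
      · have : t - r ∉ Ioc (0 - r) (T - r) := fun h3 => ht ⟨by linarith [h3.1], by linarith [h3.2]⟩
        rw [indicator_of_notMem ht, indicator_of_notMem this]
    -- a bound on the boundary
    have h3 : ∀ (W : Set ℝ) (b : ℝ), MeasurableSet W → 0 ≤ b → (∀ t ∈ W, qq t ≤ b) → Ioc (0 - r) (T - r) \ Ioc 0 T ⊆ W →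
        ∀ V : ℝ, volume W ≤ ENNReal.ofReal V →
        ∫⁻ t in Ioc (0 - r) (T - r), g t ≤ (∫⁻ t in Ioc 0 T, g t) + B * (ENNReal.ofReal b * ENNReal.ofReal V) := by
      intro W b hW hb hWb hsubW V hV
      have hsub : Ioc (0 - r) (T - r) ⊆ Ioc 0 T ∪ W := by
        intro x hx
        by_cases h4 : x ∈ Ioc 0 T
        · exact Or.inl h4
        · exact Or.inr (hsubW ⟨hx, h4⟩)
      refine (lintegral_mono_set hsub).trans ((lintegral_union_le _ _ _).trans (add_le_add le_rfl ?_))
      calc ∫⁻ t in W, g t ≤ ∫⁻ _t in W, B * ENNReal.ofReal b := by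
            refine setLIntegral_mono' hW fun t ht => (hB t).trans (mul_le_mul_right ?_ _)
            exact ENNReal.ofReal_le_ofReal (hWb t ht)
        _ = B * ENNReal.ofReal b * volume W := setLIntegral_const _ _
        _ ≤ B * ENNReal.ofReal b * ENNReal.ofReal V := mul_le_mul_right hV _
        _ = _ := by rw [mul_assoc]
    rw [h2]
    rcases le_or_gt |r| (Real.sqrt T) with h4 | h4
    · have h5 : ∫⁻ t in Ioc (0 - r) (T - r), g t ≤ (∫⁻ t in Ioc 0 T, g t) +
          B * (ENNReal.ofReal (2 * q) * ENNReal.ofReal (Real.sqrt T)) := by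
        rcases le_total 0 r with h5 | h5
        · rw [abs_of_nonneg h5] at h4
          refine h3 (Ioc (0 - r) 0) (2 * q) measurableSet_Ioc (by positivity) (fun t ht => ?_) (fun x hx => ?_) _ ?_
          · rw [hq]
            apply qq_le
            rw [abs_of_nonpos ht.2]
            linarith [ht.1]
          · refine ⟨hx.1.1, ?_⟩
            by_contra h6
            exact hx.2 ⟨by linarith, by linarith [hx.1.2]⟩
          · rw [Real.volume_Ioc]
            apply ENNReal.ofReal_le_ofReal
            linarith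
        · rw [abs_of_nonpos h5] at h4
          refine h3 (Ioc T (T - r)) (2 * q) measurableSet_Ioc (by positivity) (fun t ht => ?_) (fun x hx => ?_) _ ?_
          · rw [hq]
            apply qq_le
            rw [abs_of_nonneg (by linarith [ht.1])]
            linarith [ht.2]
          · refine ⟨?_, hx.1.2⟩
            by_contra h6
            exact hx.2 ⟨by linarith [hx.1.1], by linarith⟩
          · rw [Real.volume_Ioc]
            apply ENNReal.ofReal_le_ofReal
            linarith
      refine (mul_le_mul_right h5 _).trans ?_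
      rw [mul_add, ← ENNReal.ofReal_mul (by positivity)]
      refine add_le_add le_rfl ?_
      rw [mul_left_comm]
      refine mul_le_mul_right ?_ _
      refine le_trans (le_of_eq ?_) le_self_add
      congr 2
      rw [mul_assoc]
      congr 1
      rw [eq_div_iff hq0.ne', mul_right_comm, hqq, hss]
    · have h5 : ∫⁻ t in Ioc (0 - r) (T - r), g t ≤ (∫⁻ t in Ioc 0 T, g t) +
          B * (ENNReal.ofReal (2 * Real.sqrt |r|) * ENNReal.ofReal T) := by
        refine h3 (Ioc (0 - r) (T - r)) (2 * Real.sqrt |r|) measurableSet_Ioc (by positivity) (fun t ht => ?_)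
          (fun x hx => hx.1) _ ?_
        · have e : Real.sqrt |r| = Real.sqrt (Real.sqrt (|r| ^ 2)) := by rw [Real.sqrt_sq (abs_nonneg r)]
          rw [e]
          apply qq_le
          have h6 : |t| ≤ |r| + T := by
            rw [abs_le]
            constructor
            · linarith [ht.1, le_abs_self r]
            · linarith [ht.2, neg_abs_le r]
          have h7 : 1 ≤ |r| := hs1.trans h4.le
          have h8 : T ≤ |r| ^ 2 := by
            rw [← hss, sq]
            exact mul_le_mul h4.le h4.le hs.le (abs_nonneg r)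
          nlinarith
        · rw [Real.volume_Ioc]
          apply ENNReal.ofReal_le_ofReal
          linarith
      refine (mul_le_mul_right h5 _).trans ?_
      rw [mul_add]
      refine add_le_add le_rfl ?_
      rw [mul_left_comm]
      refine mul_le_mul_right ?_ _
      refine le_trans (le_of_eq ?_) le_add_self
      have h6 : r ∈ {r : ℝ | Real.sqrt T < |r|} := h4
      rw [indicator_of_mem h6, ENNReal.ofReal_mul (by norm_num), ENNReal.ofReal_mul (by norm_num)]
      ring
  refine (lintegral_mono h1).trans ?_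
  have m1 : Measurable (pe h) := pe_meas h
  have mS : MeasurableSet {r : ℝ | Real.sqrt T < |r|} := measurableSet_lt measurable_const continuous_abs.measurable
  have m2 : Measurable ({r : ℝ | Real.sqrt T < |r|}.indicator (fun r => pe h r * ENNReal.ofReal (Real.sqrt |r|))) := by
    refine Measurable.indicator (m1.mul ?_) mS
    exact (Real.continuous_sqrt.comp continuous_abs).measurable.ennreal_ofReal
  rw [lintegral_add_left (m1.mul_const _), lintegral_mul_const _ m1, lint_pe hh, one_mul]
  refine add_le_add le_rfl ?_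
  have m3 : Measurable (fun r : ℝ => pe h r * ENNReal.ofReal (2 * (T / q)) +
      ENNReal.ofReal (2 * T) * {r : ℝ | Real.sqrt T < |r|}.indicator (fun r => pe h r * ENNReal.ofReal (Real.sqrt |r|)) r) :=
    (m1.mul_const _).add (m2.const_mul _)
  rw [lintegral_const_mul _ m3, lintegral_add_left (m1.mul_const _),
    lintegral_mul_const _ m1, lint_pe hh, one_mul, lintegral_const_mul _ m2, lintegral_indicator mS]
  refine mul_le_mul_right ?_ _
  refine (add_le_add le_rfl (mul_le_mul_right (tail_all hh.le hs) _)).trans (le_of_eq ?_)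
  rw [← ENNReal.ofReal_mul (by positivity), ← ENNReal.ofReal_add (by positivity) (by positivity), ← hq]
  congr 1
  ring

end Pool.Agent.P8H69.PL
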