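import Pool.Agent.P8H69.PL.Th
import Pool.Agent.P8H69.OL.Cv

set_option autoImplicit false

/-!
# Convexity of the void probability in the length of the window
-/

namespace Pool.Agent.P8H69.PL

open MeasureTheory Set Filter Topology
open Pool.Agent.P8H69.OL
open scoped ENNReal

lemma sub_min (x y : ℝ≥0∞) : 1 - x = (1 - (x + y)) + min y (1 - x) := by
  rcases le_total y (1 - x) with h | h
  · rw [min_eq_left h]
    rcases le_total 1 x with h1 | h1
    · rw [tsub_eq_zero_of_le h1] at h ⊢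
      rw [nonpos_iff_eq_zero.1 h, add_zero, add_zero, tsub_eq_zero_of_le h1]
    · have h2 : x + y ≤ 1 := by
        calc x + y ≤ x + (1 - x) := by gcongr
          _ = 1 := add_tsub_cancel_of_le h1
      have hx : x ≠ ⊤ := ne_top_of_le_ne_top ENNReal.one_ne_top h1
      have hy : y ≠ ⊤ := ne_top_of_le_ne_top ENNReal.one_ne_top (le_add_self.trans h2)
      rw [← tsub_tsub, tsub_add_cancel_of_le h]
  · rw [min_eq_right h]
    have h2 : 1 ≤ x + y := by
      calc (1 : ℝ≥0∞) ≤ x + (1 - x) := le_add_tsub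
        _ ≤ x + y := by gcongr
    rw [tsub_eq_zero_of_le h2, zero_add]

variable (μ : Measure ℝ) [SFinite μ]

theorem VV_conv {h : ℝ} (hh : 0 ≤ h) {a w b T : ℝ} (ha : 0 ≤ a) (hw : 0 ≤ w) (hb : 0 ≤ b) :
    VV μ h (a + w) T + VV μ h (a + b) T ≤ VV μ h a T + VV μ h (a + w + b) T + ENNReal.ofReal w := by
  obtain ⟨m, hm⟩ : ∃ m : ℝ → ℝ≥0∞, m = fun t => min (DD μ h b (t + a)) (1 - DD μ h a t) := ⟨_, rfl⟩
  have mD := DD_meas μ hh a
  have mDb := DD_meas μ hh b
  have mm : Measurable m := by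
    rw [hm]
    exact (mDb.comp (measurable_id.add_const a)).min (measurable_const.sub mD)
  have m1 : ∀ t, m t ≤ 1 := by
    intro t
    rw [hm]
    exact (min_le_right _ _).trans tsub_le_self
  have e1 : VV μ h a T = VV μ h (a + b) T + ∫⁻ t in Ioc 0 T, m t := by
    unfold VV
    rw [← lintegral_add_right _ mm]
    refine lintegral_congr fun t => ?_
    rw [DD_split μ hh ha hb, hm]
    exact sub_min _ _
  have e2 : VV μ h (a + w) T ≤ VV μ h (a + w + b) T + ∫⁻ t in Ioc 0 T, m (t + w) := by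
    unfold VV
    have mm2 : Measurable (fun t => m (t + w)) := mm.comp (measurable_id.add_const w)
    rw [← lintegral_add_right _ mm2]
    refine lintegral_mono fun t => ?_
    have h1 := sub_min (DD μ h (a + w) t) (DD μ h b (t + (a + w)))
    rw [← DD_split μ hh (by linarith) hb] at h1
    rw [h1]
    refine add_le_add le_rfl ?_
    rw [hm]
    refine min_le_min ?_ ?_
    · rw [show t + (a + w) = t + w + a by ring]
    · refine tsub_le_tsub_left ?_ _
      exact DD_win μ hh hw (by linarith)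
  have e3 : ∫⁻ t in Ioc 0 T, m (t + w) ≤ (∫⁻ t in Ioc 0 T, m t) + ENNReal.ofReal w := by
    rw [shift_Ioc]
    have hsub : Ioc w (T + w) ⊆ Ioc 0 T ∪ Ioc T (T + w) := by
      intro x hx
      rcases le_or_gt x T with h3 | h3
      · exact Or.inl ⟨by linarith [hx.1], h3⟩
      · exact Or.inr ⟨h3, hx.2⟩
    refine (lintegral_mono_set hsub).trans ((lintegral_union_le _ _ _).trans (add_le_add le_rfl ?_))
    calc ∫⁻ t in Ioc T (T + w), m t ≤ ∫⁻ _t in Ioc T (T + w), 1 := lintegral_mono m1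
      _ = ENNReal.ofReal w := by rw [setLIntegral_const, one_mul, Real.volume_Ioc, add_sub_cancel_left]
  rw [e1]
  calc VV μ h (a + w) T + VV μ h (a + b) T ≤ (VV μ h (a + w + b) T + ((∫⁻ t in Ioc 0 T, m t) + ENNReal.ofReal w)) +
        VV μ h (a + b) T := add_le_add (e2.trans (add_le_add le_rfl e3)) le_rfl
    _ = _ := by ring

variable {γ : ℕ → ℝ}

omit [SFinite μ] in
lemma PP_conv {h T s u v : ℝ} (hh : 0 ≤ h) (hT : 1 ≤ T) (hl : 2 * Real.pi * u ≤ Real.log T) (hs : 0 < s) (hu : 0 < u)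
    (hv : 0 < v) : PP γ h T (s + u) + PP γ h T (s + v) ≤ PP γ h T s + PP γ h T (s + u + v) + 1 / T := by
  have hpi := Real.pi_pos
  have hl0 : 0 < Real.log T := lt_of_lt_of_le (by positivity) hl
  have hT0 : 0 < T := by linarith
  obtain ⟨l, hl'⟩ : ∃ l, l = Real.log T := ⟨_, rfl⟩
  unfold PP
  rw [← hl'] at hl hl0 ⊢
  have e1 : 2 * Real.pi * (s + u) / l = 2 * Real.pi * s / l + 2 * Real.pi * u / l := by ring
  have e2 : 2 * Real.pi * (s + v) / l = 2 * Real.pi * s / l + 2 * Real.pi * v / l := by ring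
  have e3 : 2 * Real.pi * (s + u + v) / l = 2 * Real.pi * s / l + 2 * Real.pi * u / l + 2 * Real.pi * v / l := by ring
  rw [e1, e2, e3]
  have h1 := VV_conv (mz γ) hh (a := 2 * Real.pi * s / l) (w := 2 * Real.pi * u / l) (b := 2 * Real.pi * v / l)
    (T := T) (by positivity) (by positivity) (by positivity)
  have h2 := ENNReal.toReal_mono (ENNReal.add_ne_top.2 ⟨ENNReal.add_ne_top.2 ⟨VV_ne _ _ _ _, VV_ne _ _ _ _⟩,
    ENNReal.ofReal_ne_top⟩) h1
  rw [ENNReal.toReal_add (VV_ne _ _ _ _) (VV_ne _ _ _ _), ENNReal.toReal_add (ENNReal.add_ne_top.2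
    ⟨VV_ne _ _ _ _, VV_ne _ _ _ _⟩) ENNReal.ofReal_ne_top, ENNReal.toReal_add (VV_ne _ _ _ _) (VV_ne _ _ _ _),
    ENNReal.toReal_ofReal (by positivity)] at h2
  have h3 : 2 * Real.pi * u / l ≤ 1 := by
    rw [div_le_one hl0]
    exact hl
  generalize (VV (mz γ) h (2 * Real.pi * s / l + 2 * Real.pi * u / l) T).toReal = X1 at h2 ⊢
  generalize (VV (mz γ) h (2 * Real.pi * s / l + 2 * Real.pi * v / l) T).toReal = X2 at h2 ⊢
  generalize (VV (mz γ) h (2 * Real.pi * s / l + 2 * Real.pi * u / l + 2 * Real.pi * v / l) T).toReal = X3 at h2 ⊢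
  generalize (VV (mz γ) h (2 * Real.pi * s / l) T).toReal = X4 at h2 ⊢
  have h4 : (X1 + X2) / T ≤ (X4 + X3 + 1) / T := div_le_div_of_nonneg_right (by linarith) hT0.le
  have e5 : (X1 + X2) / T = X1 / T + X2 / T := add_div _ _ _
  have e6 : (X4 + X3 + 1) / T = X4 / T + X3 / T + 1 / T := by rw [add_div, add_div]
  linarith

omit [SFinite μ] in
/-- the limit law is given by a monotone function -/
theorem law_mono {E D1 : ℝ → ℝ} (hE : GW E D1) {h : ℝ → ℝ} (b : ∀ T, 0 ≤ h T ∧ h T ≤ 1)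
    (hL : ∀ s, 0 < s → Tendsto (fun T => PP γ (h T) T s) atTop (𝓝 (E s))) : ∀ x y : ℝ, 0 ≤ x → x < y → D1 x ≤ D1 y := by
  have hc : ∀ s u v : ℝ, 0 < s → 0 < u → 0 < v → E (s + u) + E (s + v) ≤ E s + E (s + u + v) := by
    intro s u v hs hu hv
    have l1 := (hL (s + u) (by positivity)).add (hL (s + v) (by positivity))
    have l2 := ((hL s hs).add (hL (s + u + v) (by positivity))).add (tendsto_id.const_div_atTop (1 : ℝ))
    rw [add_zero] at l2
    refine le_of_tendsto_of_tendsto l1 l2 ?_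
    filter_upwards [eventually_ge_atTop 1, Real.tendsto_log_atTop.eventually_ge_atTop (2 * Real.pi * u)] with T h1 h2
    exact PP_conv (b T).1 h1 h2 hs hu hv
  have hpos : ∀ x y : ℝ, 0 < x → x < y → D1 x ≤ D1 y := by
    intro x y hx hxy
    have l1 := (hasDerivAt_iff_tendsto_slope_zero.1 (hE.d0 x)).mono_left (nhdsGT_le_nhdsNE 0)
    have l2 := (hasDerivAt_iff_tendsto_slope_zero.1 (hE.d0 y)).mono_left (nhdsGT_le_nhdsNE 0)
    refine le_of_tendsto_of_tendsto l1 l2 ?_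
    filter_upwards [self_mem_nhdsWithin] with v hv
    rw [mem_Ioi] at hv
    have h1 := hc x (y - x) v hx (by linarith) hv
    rw [show x + (y - x) = y by ring] at h1
    simp only [smul_eq_mul]
    apply mul_le_mul_of_nonneg_left _ (inv_nonneg.2 hv.le)
    linarith
  intro x y hx hxy
  rcases hx.eq_or_lt with rfl | hx0
  · have l1 : Tendsto D1 (𝓝[>] 0) (𝓝 (D1 0)) := (hE.c1.tendsto 0).mono_left nhdsWithin_le_nhds
    refine le_of_tendsto l1 ?_
    filter_upwards [self_mem_nhdsWithin, Ioo_mem_nhdsGT hxy] with v hv hv2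
    exact hpos v y hv hv2.2
  · exact hpos x y hx0 hxy

omit [SFinite μ] in
/-- the lower bound for the defect from that for the distribution function -/
lemma low_of {E D1 : ℝ → ℝ} (hE : GW E D1) (h0 : E 0 = 1) (hm : ∀ x y : ℝ, 0 ≤ x → x < y → D1 x ≤ D1 y)
    (hF : ∃ A : ℕ, ∀ δ : ℝ, 0 < δ → ∃ x, 0 < x ∧ x < δ ∧ x ^ A ≤ 1 + D1 x) :
    ∃ A : ℕ, ∀ δ : ℝ, 0 < δ → ∃ s, 0 < s ∧ s < δ ∧ s ^ A ≤ E s - (1 - s) := by
  obtain ⟨A, hA⟩ := hF
  refine ⟨A + 2, fun δ hδ => ?_⟩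
  obtain ⟨x, hx, hx1, hx2⟩ := hA (min (δ / 2) ((1 / 2) ^ (A + 2))) (by positivity)
  have b1 : x < δ / 2 := lt_of_lt_of_le hx1 (min_le_left _ _)
  have b2 : x < (1 / 2) ^ (A + 2) := lt_of_lt_of_le hx1 (min_le_right _ _)
  refine ⟨2 * x, by positivity, by linarith, ?_⟩
  obtain ⟨c1, c1a, c1b, e1⟩ := hE.step hx
  obtain ⟨c2, c2a, c2b, e2⟩ := hE.step (show x < 2 * x by linarith)
  have g1 := hm 0 c1 le_rfl c1a
  rw [hE.z1] at g1
  have g2 := hm x c2 hx.le c2a
  rw [h0, sub_zero] at e1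
  have e3 : E (2 * x) - (1 - 2 * x) = (1 + D1 c1) * x + (1 + D1 c2) * x := by
    linear_combination e1 + e2
  rw [e3]
  have g3 : 0 ≤ (1 + D1 c1) * x := mul_nonneg (by linarith) hx.le
  have g4 : x ^ A * x ≤ (1 + D1 c2) * x := mul_le_mul_of_nonneg_right (by linarith) hx.le
  have g5 : (2 * x) ^ (A + 2) ≤ x ^ A * x := by
    have e4 : (2 * x) ^ (A + 2) = (2 ^ (A + 2) * x) * (x ^ A * x) := by
      rw [mul_pow]
      ring
    rw [e4]
    have g6 : (2 : ℝ) ^ (A + 2) * x ≤ 1 := by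
      have g7 : (2 : ℝ) ^ (A + 2) * (1 / 2) ^ (A + 2) = 1 := by rw [← mul_pow]; norm_num
      rw [← g7]
      exact mul_le_mul_of_nonneg_left b2.le (by positivity)
    have g8 : 0 ≤ x ^ A * x := by positivity
    exact mul_le_of_le_one_left g8 g6
  linarith

end Pool.Agent.P8H69.PL
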