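import Pool.Agent.P8H69.PL.Ang
import Pool.Agent.P8H69.OL.Ab

set_option autoImplicit false

/-!
# The function `x + 2 ∑ (x - j)` and Jensen's inequality
-/

namespace Pool.Agent.P8H69.PL

open MeasureTheory Set Filter Topology
open Pool.Agent.P8H69.OL
open scoped ENNReal

/-- the tail of `ex` -/
noncomputable def exJ (J : ℕ) (x : ℝ≥0∞) : ℝ≥0∞ := ∑' j : ℕ, (x - ((J + j : ℕ) + 1))

lemma ex_eq (x : ℝ≥0∞) : ex x = exJ 0 x := by
  unfold ex exJ
  simp

lemma exJ_mono (J : ℕ) : Monotone (exJ J) := fun _ _ h => ENNReal.tsum_le_tsum fun _ => tsub_le_tsub_right h _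

lemma exJ_meas (J : ℕ) : Measurable (exJ J) := by
  unfold exJ
  exact Measurable.tsum fun j => measurable_id.sub measurable_const

lemma ff_meas : Measurable ff := by
  unfold ff
  have : ex = exJ 0 := funext ex_eq
  rw [this]
  exact measurable_id.add ((exJ_meas 0).const_mul _)

/-- Jensen's inequality for `x - c` -/
lemma jens_c {h : ℝ} {g : ℝ → ℝ≥0∞} (hh : 0 < h) (hg : Measurable g) (c : ℝ≥0∞) (t : ℝ) :
    Sm h g t - c ≤ Sm h (fun t => g t - c) t := by
  rw [tsub_le_iff_right]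
  have h1 : Sm h (fun t => g t - c) t + c = Sm h (fun t => (g t - c) + c) t := by
    have hm : Measurable (fun t : ℝ => g t - c) := hg.sub measurable_const
    rw [Sm_add hm, Sm_const hh]
  rw [h1]
  exact Sm_mono (fun t => le_tsub_add) t

lemma jens_ex {h : ℝ} {g : ℝ → ℝ≥0∞} (hh : 0 < h) (hg : Measurable g) (J : ℕ) (t : ℝ) :
    exJ J (Sm h g t) ≤ Sm h (fun t => exJ J (g t)) t := by
  have h1 : Sm h (fun t => exJ J (g t)) t = ∑' j : ℕ, Sm h (fun t => g t - ((J + j : ℕ) + 1)) t := by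
    unfold Sm exJ
    rw [← lintegral_tsum]
    · refine lintegral_congr fun r => ?_
      rw [ENNReal.tsum_mul_left]
    · intro j
      exact ((pe_meas h).mul ((hg.comp (measurable_const.sub measurable_id)).sub measurable_const)).aemeasurable
  rw [h1]
  exact ENNReal.tsum_le_tsum fun j => jens_c hh hg _ t

/-- the sum over the first terms -/
lemma ex_split (J : ℕ) (x : ℝ≥0∞) : ex x = (∑ j ∈ Finset.range J, (x - ((j : ℝ≥0∞) + 1))) + exJ J x := by
  unfold ex exJ
  have h1 : Summable fun j : ℕ => x - (((j + J : ℕ) : ℝ≥0∞) + 1) := ENNReal.summable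
  have h2 := Summable.sum_add_tsum_nat_add' (f := fun j : ℕ => x - ((j : ℝ≥0∞) + 1)) (k := J) h1
  rw [← h2]
  refine congrArg (fun y => (∑ j ∈ Finset.range J, (x - ((j : ℝ≥0∞) + 1))) + y) ?_
  refine tsum_congr fun j => ?_
  rw [add_comm j J]

/-- the value at a natural number -/
lemma ff_nat (n : ℕ) : ff n = (n : ℝ≥0∞) ^ 2 := by
  unfold ff
  rw [ex_split n]
  have h1 : exJ n (n : ℝ≥0∞) = 0 := by
    unfold exJ
    rw [ENNReal.tsum_eq_zero]
    intro j
    rw [tsub_eq_zero_iff_le]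
    push_cast
    rw [add_assoc]
    exact le_self_add
  rw [h1, add_zero]
  have h2 : ∑ j ∈ Finset.range n, ((n : ℝ≥0∞) - ((j : ℝ≥0∞) + 1)) = ((∑ j ∈ Finset.range n, j : ℕ) : ℝ≥0∞) := by
    rw [← Finset.sum_range_reflect, Nat.cast_sum]
    refine Finset.sum_congr rfl fun j hj => ?_
    rw [Finset.mem_range] at hj
    have e : ((n : ℝ≥0∞) - (((n - 1 - j : ℕ) : ℝ≥0∞) + 1)) = ((n - ((n - 1 - j) + 1) : ℕ) : ℝ≥0∞) := by
      rw [ENNReal.natCast_sub]
      push_cast
      rfl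
    rw [e]
    congr 1
    omega
  rw [h2]
  have h3 : n + 2 * ∑ j ∈ Finset.range n, j = n ^ 2 := by
    have := Finset.sum_range_id_mul_two n
    rw [mul_comm] at this
    rw [this]
    rcases n with _ | m
    · rfl
    · simp only [Nat.add_sub_cancel]
      ring
  exact_mod_cast h3

/-- the tail of `ex` at a natural number -/
lemma exJ_nat (J : ℕ) (n : ℕ) : (J : ℝ≥0∞) * exJ J n ≤ (n : ℝ≥0∞) ^ 3 := by
  rcases le_or_gt n J with h | h
  · have h1 : exJ J (n : ℝ≥0∞) = 0 := by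
      unfold exJ
      rw [ENNReal.tsum_eq_zero]
      intro j
      rw [tsub_eq_zero_iff_le]
      have : n ≤ J + j + 1 := by omega
      exact_mod_cast this
    rw [h1, mul_zero]
    exact zero_le
  · have h1 : exJ J (n : ℝ≥0∞) ≤ (n : ℝ≥0∞) ^ 2 := by
      rw [← ff_nat]
      unfold ff
      rw [ex_split J]
      calc exJ J (n : ℝ≥0∞) ≤ (∑ j ∈ Finset.range J, ((n : ℝ≥0∞) - ((j : ℝ≥0∞) + 1))) + exJ J n := le_add_self
        _ ≤ 2 * ((∑ j ∈ Finset.range J, ((n : ℝ≥0∞) - ((j : ℝ≥0∞) + 1))) + exJ J n) := by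
            rw [two_mul]; exact le_self_add
        _ ≤ _ := le_add_self
    calc (J : ℝ≥0∞) * exJ J n ≤ (n : ℝ≥0∞) * (n : ℝ≥0∞) ^ 2 := by
          refine mul_le_mul' ?_ h1
          exact_mod_cast h.le
      _ = _ := by ring

/-- `∑ (x - j) ≤ A (x - 1) + tail` -/
lemma ex_le (J : ℕ) (x : ℝ≥0∞) : ex x ≤ J * (x - 1) + exJ J x := by
  rw [ex_split J]
  refine add_le_add ?_ le_rfl
  calc ∑ j ∈ Finset.range J, (x - ((j : ℝ≥0∞) + 1)) ≤ ∑ _j ∈ Finset.range J, (x - 1) := by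
        refine Finset.sum_le_sum fun j _ => tsub_le_tsub_left ?_ _
        exact le_add_self
    _ = J * (x - 1) := by rw [Finset.sum_const, Finset.card_range, nsmul_eq_mul]

lemma ex_ge (x : ℝ≥0∞) : ex x = (x - 1) + exJ 1 x := by
  rw [ex_split 1]
  simp

end Pool.Agent.P8H69.PL
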