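import Pool.Agent.P8H69.PL.Mn

set_option autoImplicit false

/-!
# Growth of the window masses and uniform integrability
-/

namespace Pool.Agent.P8H69.PL

open MeasureTheory Set Filter Topology
open Pool.Agent.P8H69.OL
open scoped ENNReal

variable {γ : ℕ → ℝ} {N : ℝ → ℕ}

/-- the facts on the points -/
structure Zq (γ : ℕ → ℝ) (N : ℝ → ℕ) : Prop extends Zd γ N where
  low : ∀ ε : ℝ, 0 < ε → ∀ᶠ X in atTop, (1 - ε) * (X * Real.log X / (2 * Real.pi)) ≤ (N X : ℝ)
  unit : ∃ C : ℝ, 0 < C ∧ ∀ t : ℝ, 0 ≤ t → (N (t + 1) : ℝ) - N t ≤ C * Real.log (t + 3)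
  mom : ∀ (k : ℕ) (b : ℝ), 0 < b → ∃ C : ℝ, 0 < C ∧ ∀ᶠ U in atTop, ∀ a : ℝ, 0 < a → a * Real.log U ≤ b →
    ∫⁻ t in Ioc U (2 * U), ((N (t + a) - N t : ℕ) : ℝ≥0∞) ^ k ≤ ENNReal.ofReal (C * U)

lemma mz_neg (γ : ℕ → ℝ) {S : Set ℝ} (hS : MeasurableSet S) : mz γ ((fun x => -x) ⁻¹' S) = mz γ S := by
  have hS' : MeasurableSet ((fun x : ℝ => -x) ⁻¹' S) := measurable_neg hS
  unfold mz
  rw [Measure.sum_apply _ hS, Measure.sum_apply _ hS']
  refine tsum_congr fun n => ?_
  rw [Measure.add_apply, Measure.add_apply, Measure.dirac_apply' _ hS, Measure.dirac_apply' _ hS,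
    Measure.dirac_apply' _ hS', Measure.dirac_apply' _ hS', add_comm]
  congr 1
  by_cases h : γ n ∈ S
  · have : -γ n ∈ (fun x : ℝ => -x) ⁻¹' S := by simpa using h
    rw [indicator_of_mem h, indicator_of_mem this]
    rfl
  · have : -γ n ∉ (fun x : ℝ => -x) ⁻¹' S := by simpa using h
    rw [indicator_of_notMem h, indicator_of_notMem this]

lemma qq_one (t : ℝ) : 1 ≤ qq t := by
  unfold qq
  rw [Real.one_le_sqrt, Real.one_le_sqrt]
  linarith [abs_nonneg t]

lemma log_qq (t : ℝ) : Real.log (|t| + 3) ≤ 10 * Real.sqrt (qq t) := by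
  have h1 := qq_one t
  have h0 : 0 < qq t := by linarith
  have e : 1 + |t| = qq t ^ 4 := by
    unfold qq
    have h2 : (0 : ℝ) ≤ 1 + |t| := by positivity
    have h3 : Real.sqrt (Real.sqrt (1 + |t|)) ^ 2 = Real.sqrt (1 + |t|) := Real.sq_sqrt (Real.sqrt_nonneg _)
    calc 1 + |t| = Real.sqrt (1 + |t|) ^ 2 := (Real.sq_sqrt h2).symm
      _ = (Real.sqrt (Real.sqrt (1 + |t|)) ^ 2) ^ 2 := by rw [h3]
      _ = _ := by ring
  have h2 : |t| + 3 ≤ 3 * qq t ^ 4 := by
    rw [← e]
    linarith [abs_nonneg t]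
  have h3 : Real.log (|t| + 3) ≤ Real.log 3 + 4 * Real.log (qq t) := by
    calc Real.log (|t| + 3) ≤ Real.log (3 * qq t ^ 4) := Real.log_le_log (by positivity) h2
      _ = _ := by rw [Real.log_mul (by norm_num) (by positivity), Real.log_pow]; push_cast; ring
  have h4 : Real.log (qq t) ≤ 2 * Real.sqrt (qq t) := by
    have e1 : Real.log (qq t) = 2 * Real.log (Real.sqrt (qq t)) := by
      rw [Real.log_sqrt h0.le]; ring
    have h5 := Real.log_le_sub_one_of_pos (Real.sqrt_pos.2 h0)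
    linarith
  have h5 : Real.log 3 ≤ 2 := by
    have := Real.log_le_sub_one_of_pos (show (0 : ℝ) < 3 by norm_num)
    linarith
  have h6 : 1 ≤ Real.sqrt (qq t) := Real.one_le_sqrt.2 h1
  linarith

/-- powers of the logarithm -/
lemma log_pow_qq (k : ℕ) : ∃ C : ℝ, 1 ≤ C ∧ ∀ t : ℝ, Real.log (|t| + 3) ^ k ≤ C * qq t := by
  rcases Nat.eq_zero_or_pos k with rfl | hk
  · refine ⟨1, le_rfl, fun t => ?_⟩
    rw [pow_zero, one_mul]
    exact qq_one t
  have hk0 : (0 : ℝ) < k := by exact_mod_cast hk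
  have hk1 : (1 : ℝ) ≤ k := by exact_mod_cast hk
  refine ⟨(4 * k) ^ k * 2, ?_, fun t => ?_⟩
  · have : (1 : ℝ) ≤ (4 * k) ^ k := one_le_pow₀ (by linarith)
    linarith
  · have hx : (0 : ℝ) ≤ |t| + 3 := by positivity
    have hlog : 0 ≤ Real.log (|t| + 3) := Real.log_nonneg (by linarith [abs_nonneg t])
    have h1 := Real.log_le_rpow_div hx (show (0 : ℝ) < 1 / (4 * k) by positivity)
    have h2 : Real.log (|t| + 3) ≤ (4 * k) * (|t| + 3) ^ (1 / (4 * k) : ℝ) := by
      refine h1.trans (le_of_eq ?_)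
      field_simp
    have h3 : ((|t| + 3) ^ (1 / (4 * k) : ℝ)) ^ k = (|t| + 3) ^ (1 / 4 : ℝ) := by
      rw [← Real.rpow_natCast, ← Real.rpow_mul hx]
      congr 1
      field_simp
    have h4 : (|t| + 3) ^ (1 / 4 : ℝ) ≤ 2 * qq t := by
      have e1 : qq t = (1 + |t|) ^ (1 / 4 : ℝ) := by
        unfold qq
        rw [Real.sqrt_eq_rpow, Real.sqrt_eq_rpow, ← Real.rpow_mul (by positivity)]
        norm_num
      have e2 : (2 : ℝ) = 16 ^ (1 / 4 : ℝ) := by
        rw [show (16 : ℝ) = 2 ^ (4 : ℝ) by norm_num, ← Real.rpow_mul (by norm_num)]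
        norm_num
      rw [e1]
      nth_rewrite 1 [e2]
      rw [← Real.mul_rpow (by norm_num) (by positivity)]
      apply Real.rpow_le_rpow hx _ (by norm_num)
      linarith [abs_nonneg t]
    calc Real.log (|t| + 3) ^ k ≤ ((4 * k) * (|t| + 3) ^ (1 / (4 * k) : ℝ)) ^ k := pow_le_pow_left₀ hlog h2 k
      _ = (4 * k) ^ k * (|t| + 3) ^ (1 / 4 : ℝ) := by rw [mul_pow, h3]
      _ ≤ (4 * k) ^ k * (2 * qq t) := by gcongr
      _ = _ := by ring

/-- the growth of the counts -/
theorem gwk (H : Zq γ N) (k : ℕ) : ∃ B : ℝ, 1 ≤ B ∧ ∀ a t : ℝ, a ≤ 1 →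
    W0 (mz γ) a t ^ k ≤ ENNReal.ofReal B * ENNReal.ofReal (qq t) := by
  obtain ⟨C, hC, hu⟩ := H.unit
  obtain ⟨K, hK⟩ : ∃ K : ℝ, K = (N 1 : ℝ) + N 1 + N 2 := ⟨_, rfl⟩
  have hK0 : 0 ≤ K := by rw [hK]; positivity
  have h3 : ∀ t : ℝ, 0 ≤ t → ((N (t + 1) - N t : ℕ) : ℝ) ≤ C * Real.log (t + 3) := by
    intro t ht
    rw [Nat.cast_sub (H.pts.mono (by linarith))]
    exact hu t ht
  have h1 : ∀ t : ℝ, W0 (mz γ) 1 t ≤ ENNReal.ofReal (2 * C * Real.log (|t| + 3) + K) := by
    intro t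
    have hl : 0 ≤ Real.log (|t| + 3) := Real.log_nonneg (by linarith [abs_nonneg t])
    have hCl : 0 ≤ C * Real.log (|t| + 3) := by positivity
    unfold W0
    rcases le_or_gt 0 t with ht | ht
    · rw [mz_win H.pts ht, ← ENNReal.ofReal_natCast]
      apply ENNReal.ofReal_le_ofReal
      have := h3 t ht
      rw [abs_of_nonneg ht] at hCl ⊢
      linarith
    · rw [← mz_neg γ measurableSet_Ioc]
      rcases le_or_gt t (-2) with ht2 | ht2
      · have hsub : (fun x : ℝ => -x) ⁻¹' Ioc t (t + 1) ⊆ Ioc (-t - 2) (-t - 2 + 2) := by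
          intro x hx
          have hx1 : t < -x := hx.1
          have hx2 : -x ≤ t + 1 := hx.2
          exact ⟨by linarith, by linarith⟩
        refine (measure_mono hsub).trans ?_
        rw [mz_win H.pts (by linarith), ← ENNReal.ofReal_natCast]
        apply ENNReal.ofReal_le_ofReal
        have b1 := h3 (-t - 2) (by linarith)
        have b2 := h3 (-t - 1) (by linarith)
        have e1 : ((N (-t - 2 + 2) - N (-t - 2) : ℕ) : ℝ) = ((N (-t - 1 + 1) - N (-t - 1) : ℕ) : ℝ) +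
            ((N (-t - 2 + 1) - N (-t - 2) : ℕ) : ℝ) := by
          rw [Nat.cast_sub (H.pts.mono (by linarith)), Nat.cast_sub (H.pts.mono (by linarith)),
            Nat.cast_sub (H.pts.mono (by linarith))]
          rw [show -t - 2 + 2 = -t by ring, show -t - 1 + 1 = -t by ring, show -t - 2 + 1 = -t - 1 by ring]
          ring
        rw [e1]
        rw [abs_of_neg ht] at *
        have l1 : Real.log (-t - 2 + 3) ≤ Real.log (-t + 3) := Real.log_le_log (by linarith) (by linarith)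
        have l2 : Real.log (-t - 1 + 3) ≤ Real.log (-t + 3) := Real.log_le_log (by linarith) (by linarith)
        have m1 := mul_le_mul_of_nonneg_left l1 hC.le
        have m2 := mul_le_mul_of_nonneg_left l2 hC.le
        linarith
      · have hsub : (fun x : ℝ => -x) ⁻¹' Ioc t (t + 1) ⊆ Ioc (-1) (0 + 1) ∪ Ioc 0 (0 + 2) := by
          intro x hx
          have hx1 : t < -x := hx.1
          have hx2 : -x ≤ t + 1 := hx.2
          rcases le_or_gt x 0 with h0 | h0
          · left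
            exact ⟨by linarith, by linarith⟩
          · right
            exact ⟨h0, by linarith⟩
        refine (measure_mono hsub).trans ((measure_union_le _ _).trans ?_)
        rw [mz_win H.pts le_rfl]
        refine (add_le_add (mz_small H.pts) le_rfl).trans ?_
        rw [← Nat.cast_add, ← ENNReal.ofReal_natCast]
        apply ENNReal.ofReal_le_ofReal
        have e1 : ((N 1 + N (0 + 1) + (N (0 + 2) - N 0) : ℕ) : ℝ) ≤ K := by
          rw [hK, zero_add, zero_add]
          have : N 1 + N 1 + (N 2 - N 0) ≤ N 1 + N 1 + N 2 := by omega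
          exact_mod_cast this
        linarith
  obtain ⟨B, hB1, hB⟩ := log_pow_qq k
  have hDp : 1 ≤ (2 * C + K + 1) ^ k := one_le_pow₀ (by linarith)
  refine ⟨(2 * C + K + 1) ^ k * B, by nlinarith, fun a t ha => ?_⟩
  have hl1 : 1 ≤ Real.log (|t| + 3) := by
    have : Real.log (Real.exp 1) ≤ Real.log (|t| + 3) := by
      apply Real.log_le_log (Real.exp_pos 1)
      have := Real.exp_one_lt_d9
      linarith [abs_nonneg t]
    rwa [Real.log_exp] at this
  have h2 : W0 (mz γ) a t ≤ ENNReal.ofReal ((2 * C + K + 1) * Real.log (|t| + 3)) := by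
    calc W0 (mz γ) a t ≤ W0 (mz γ) 1 t := measure_mono (Ioc_subset_Ioc_right (by linarith))
      _ ≤ _ := h1 t
      _ ≤ _ := by
          apply ENNReal.ofReal_le_ofReal
          have b3 := mul_le_mul_of_nonneg_left hl1 (show 0 ≤ K + 1 by linarith)
          linarith
  have h0 : 0 ≤ qq t := by linarith [qq_one t]
  calc W0 (mz γ) a t ^ k ≤ ENNReal.ofReal ((2 * C + K + 1) * Real.log (|t| + 3)) ^ k := by gcongr
    _ = ENNReal.ofReal ((2 * C + K + 1) ^ k * Real.log (|t| + 3) ^ k) := by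
        rw [← ENNReal.ofReal_pow (by positivity), mul_pow]
    _ ≤ ENNReal.ofReal ((2 * C + K + 1) ^ k * (B * qq t)) := by
        apply ENNReal.ofReal_le_ofReal
        exact mul_le_mul_of_nonneg_left (hB t) (by positivity)
    _ = _ := by rw [← ENNReal.ofReal_mul (by positivity)]; congr 1; ring

theorem gw (H : Zq γ N) : ∃ B : ℝ, 1 ≤ B ∧ ∀ a t : ℝ, a ≤ 1 →
    W0 (mz γ) a t ^ 2 ≤ ENNReal.ofReal B * ENNReal.ofReal (qq t) := gwk H 2

/-- `ex x ≤ x ^ 2` -/
lemma ex_sq (x : ℝ≥0∞) : ex x ≤ x ^ 2 := by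
  rcases eq_or_ne x ⊤ with rfl | hx
  · simp
  rcases le_total x 1 with h1 | h1
  · have : ex x = 0 := by
      unfold ex
      rw [ENNReal.tsum_eq_zero]
      intro j
      rw [tsub_eq_zero_iff_le]
      exact h1.trans le_add_self
    rw [this]
    exact zero_le
  obtain ⟨J, hJ⟩ : ∃ J, J = ⌈x.toReal⌉₊ := ⟨_, rfl⟩
  have hxJ : x ≤ J := by
    rw [← ENNReal.ofReal_toReal hx, ← ENNReal.ofReal_natCast]
    apply ENNReal.ofReal_le_ofReal
    rw [hJ]
    exact Nat.le_ceil _
  have hJx : (J : ℝ≥0∞) ≤ x + 1 := by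
    rw [← ENNReal.ofReal_toReal hx, ← ENNReal.ofReal_natCast, ← ENNReal.ofReal_one, ← ENNReal.ofReal_add
      ENNReal.toReal_nonneg zero_le_one]
    apply ENNReal.ofReal_le_ofReal
    rw [hJ]
    exact (Nat.ceil_lt_add_one ENNReal.toReal_nonneg).le
  have h0 : exJ J x = 0 := by
    unfold exJ
    rw [ENNReal.tsum_eq_zero]
    intro j
    rw [tsub_eq_zero_iff_le]
    refine hxJ.trans (le_trans ?_ le_self_add)
    exact_mod_cast Nat.le_add_right J j
  have h2 := ex_le J x
  rw [h0, add_zero] at h2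
  refine h2.trans ((mul_le_mul_left hJx _).trans ?_)
  have h3 : (x + 1) * (x - 1) + 1 = x ^ 2 := by
    have e1 : x - 1 + 1 = x := tsub_add_cancel_of_le h1
    calc (x + 1) * (x - 1) + 1 = x * (x - 1) + ((x - 1) + 1) := by ring
      _ = x * (x - 1) + x := by rw [e1]
      _ = x * ((x - 1) + 1) := by ring
      _ = x ^ 2 := by rw [e1, sq]
  rw [← h3]
  exact le_self_add

lemma exJ_le_ex (J : ℕ) (x : ℝ≥0∞) : exJ J x ≤ ex x := by
  rw [ex_split J]
  exact le_add_self

/-- smoothing the growth function -/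
lemma Sm_qq {h : ℝ} (hh : 0 < h) (h1 : h ≤ 1) (t : ℝ) : Sm h (fun t => ENNReal.ofReal (qq t)) t ≤
    ENNReal.ofReal 4 * ENNReal.ofReal (qq t) := by
  have hq : ∀ r, qq (t - r) ≤ qq t * (2 + if 1 < |r| then Real.sqrt |r| else 0) := by
    intro r
    have q1 := qq_one t
    have e1 : qq (t - r) ≤ qq t * Real.sqrt (Real.sqrt (1 + |r|)) := by
      unfold qq
      rw [← Real.sqrt_mul (Real.sqrt_nonneg _), ← Real.sqrt_mul (by positivity)]
      apply Real.sqrt_le_sqrt
      apply Real.sqrt_le_sqrt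
      have := abs_sub t r
      have h2 : 0 ≤ |t| * |r| := by positivity
      linarith
    refine e1.trans (mul_le_mul_of_nonneg_left ?_ (by linarith))
    split_ifs with hr
    · have h2 : Real.sqrt (1 + |r|) ≤ |r| + 1 := by
        have : 1 + |r| ≤ (|r| + 1) ^ 2 := by nlinarith [abs_nonneg r]
        calc Real.sqrt (1 + |r|) ≤ Real.sqrt ((|r| + 1) ^ 2) := Real.sqrt_le_sqrt this
          _ = |r| + 1 := Real.sqrt_sq (by positivity)
      calc Real.sqrt (Real.sqrt (1 + |r|)) ≤ Real.sqrt (|r| + 1) := Real.sqrt_le_sqrt h2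
        _ ≤ Real.sqrt |r| + 1 := by
            have h3 : |r| + 1 ≤ (Real.sqrt |r| + 1) ^ 2 := by
              have := Real.sq_sqrt (abs_nonneg r)
              nlinarith [Real.sqrt_nonneg |r|]
            calc Real.sqrt (|r| + 1) ≤ Real.sqrt ((Real.sqrt |r| + 1) ^ 2) := Real.sqrt_le_sqrt h3
              _ = _ := Real.sqrt_sq (by positivity)
        _ ≤ _ := by linarith
    · rw [not_lt] at hr
      have h2 : Real.sqrt (1 + |r|) ≤ 2 := by
        rw [show (2 : ℝ) = Real.sqrt (2 ^ 2) from (Real.sqrt_sq (by norm_num)).symm]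
        apply Real.sqrt_le_sqrt
        linarith
      calc Real.sqrt (Real.sqrt (1 + |r|)) ≤ Real.sqrt (2 ^ 2) := Real.sqrt_le_sqrt (by linarith)
        _ = 2 := Real.sqrt_sq (by norm_num)
        _ = _ := by ring
  have hS : MeasurableSet {r : ℝ | 1 < |r|} := measurableSet_lt measurable_const continuous_abs.measurable
  have hm1 : Measurable (fun r : ℝ => ENNReal.ofReal (Real.sqrt |r|)) :=
    (Real.continuous_sqrt.comp continuous_abs).measurable.ennreal_ofReal
  have h2 : ∀ r, pe h r * ENNReal.ofReal (qq (t - r)) ≤ ENNReal.ofReal (qq t) * (pe h r * ENNReal.ofReal 2 +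
      {r : ℝ | 1 < |r|}.indicator (fun r => pe h r * ENNReal.ofReal (Real.sqrt |r|)) r) := by
    intro r
    refine (mul_le_mul_right (ENNReal.ofReal_le_ofReal (hq r)) _).trans (le_of_eq ?_)
    have q1 := qq_one t
    rw [ENNReal.ofReal_mul (by linarith), mul_left_comm]
    congr 1
    by_cases hr : 1 < |r|
    · rw [if_pos hr, indicator_of_mem (show r ∈ {r : ℝ | 1 < |r|} from hr),
        ENNReal.ofReal_add (by norm_num) (Real.sqrt_nonneg _), mul_add]
    · rw [if_neg hr, indicator_of_notMem (show r ∉ {r : ℝ | 1 < |r|} from hr), add_zero, add_zero]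
  unfold Sm
  refine (lintegral_mono h2).trans ?_
  have m1 := pe_meas h
  have m2 : Measurable ({r : ℝ | 1 < |r|}.indicator (fun r => pe h r * ENNReal.ofReal (Real.sqrt |r|))) :=
    (m1.mul hm1).indicator hS
  have m3 : Measurable (fun r : ℝ => pe h r * ENNReal.ofReal 2 +
      {r : ℝ | 1 < |r|}.indicator (fun r => pe h r * ENNReal.ofReal (Real.sqrt |r|)) r) := (m1.mul_const _).add m2
  rw [lintegral_const_mul _ m3, lintegral_add_left (m1.mul_const _), lintegral_mul_const _ m1, lint_pe hh, one_mul,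
    lintegral_indicator hS, mul_comm]
  refine mul_le_mul_left ?_ _
  calc ENNReal.ofReal 2 + ∫⁻ r in {r : ℝ | 1 < |r|}, pe h r * ENNReal.ofReal (Real.sqrt |r|)
      ≤ ENNReal.ofReal 2 + ENNReal.ofReal (2 * h / Real.sqrt 1) := add_le_add le_rfl (tail_all hh.le one_pos)
    _ ≤ _ := by
        rw [← ENNReal.ofReal_add (by norm_num) (by positivity)]
        apply ENNReal.ofReal_le_ofReal
        rw [Real.sqrt_one, div_one]
        linarith

end Pool.Agent.P8H69.PL
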