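import Pool.Agent.P8H69.PL.Bd
import Pool.Agent.P8H69.OL.Lo

set_option autoImplicit false

/-!
# The means of the window masses
-/

namespace Pool.Agent.P8H69.PL

open MeasureTheory Set Filter Topology
open Pool.Agent.P8H69.OL
open scoped ENNReal

/-- the mean of the window mass, from above -/
theorem mean_up {γ : ℕ → ℝ} {N : ℝ → ℕ} (H : Zd γ N) {s ε : ℝ} (hs : 0 < s) (hε : 0 < ε) :
    ∀ᶠ T in atTop, ∀ h : ℝ, 0 ≤ h → h ≤ 1 →
    ∫⁻ t in Ioc 0 T, DD (mz γ) h (2 * Real.pi * s / Real.log T) t ≤ ENNReal.ofReal ((s + ε) * T) := by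
  have hpi := Real.pi_pos
  have hlog : Tendsto (fun T : ℝ => 1 / Real.log T) atTop (𝓝 0) := Real.tendsto_log_atTop.const_div_atTop 1
  obtain ⟨e, he0, he1, he2⟩ : ∃ e : ℝ, 0 < e ∧ e ≤ 1 ∧ s * (1 + e) ^ 5 < s + ε / 2 := by
    have h1 : Tendsto (fun e : ℝ => s * (1 + e) ^ 5) (𝓝[>] 0) (𝓝 (s * (1 + 0) ^ 5)) := by
      apply tendsto_nhdsWithin_of_tendsto_nhds
      exact ((tendsto_id.const_add 1).pow 5).const_mul s
    have e0 : s * (1 + 0) ^ 5 = s := by ring
    rw [e0] at h1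
    have h2 : ∀ᶠ e : ℝ in 𝓝[>] 0, e < 1 := eventually_nhdsWithin_of_eventually_nhds (gt_mem_nhds one_pos)
    obtain ⟨e, a1, a2, a3⟩ := ((h1.eventually (gt_mem_nhds (show s < s + ε / 2 by linarith))).and
      (h2.and self_mem_nhdsWithin)).exists
    exact ⟨e, a3, a2.le, a1⟩
  obtain ⟨B0, hB0, hsharp⟩ := nu_sharp H.pts he0
  obtain ⟨B, hB⟩ : ∃ B : ℝ, B = (ENNReal.ofReal B0 * ∑' n, ENNReal.ofReal (2 / (1 + γ n ^ 2))).toReal := ⟨_, rfl⟩
  have hBt : ENNReal.ofReal B0 * ∑' n, ENNReal.ofReal (2 / (1 + γ n ^ 2)) ≠ ⊤ :=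
    ENNReal.mul_ne_top ENNReal.ofReal_ne_top H.sq
  have hBp : 0 ≤ B := by rw [hB]; exact ENNReal.toReal_nonneg
  have hBe : ENNReal.ofReal B0 * ∑' n, ENNReal.ofReal (2 / (1 + γ n ^ 2)) = ENNReal.ofReal B := by
    rw [hB, ENNReal.ofReal_toReal hBt]
  have hA : Tendsto (fun T : ℝ => (1 + e) * ((1 + e) * T)) atTop atTop :=
    (tendsto_id.const_mul_atTop (by positivity : 0 < 1 + e)).const_mul_atTop (by positivity : 0 < 1 + e)
  have hl2 : ∀ᶠ T : ℝ in atTop, 2 * Real.log (1 + e) ≤ e * Real.log T :=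
    (Real.tendsto_log_atTop.const_mul_atTop he0).eventually_ge_atTop _
  have hsm := hlog.const_mul (2 * Real.pi * s * 2 * B)
  rw [mul_zero] at hsm
  filter_upwards [hA.eventually (H.cnt e he0), hl2, hsm.eventually (gt_mem_nhds (show 0 < ε / 2 by positivity)),
    eventually_ge_atTop 2, Real.tendsto_log_atTop.eventually_ge_atTop (max 1 (2 * Real.pi * s)),
    eventually_ge_atTop (1 / e)]
    with T h1 h2 h3 h4 h5 h7
  intro h hh hh1
  have hT : 0 < T := by linarith
  have hl1 : 1 ≤ Real.log T := (le_max_left _ _).trans h5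
  have hls : 2 * Real.pi * s ≤ Real.log T := (le_max_right _ _).trans h5
  have hl : 0 < Real.log T := by linarith
  obtain ⟨a, ha⟩ : ∃ a, a = 2 * Real.pi * s / Real.log T := ⟨_, rfl⟩
  have ha0 : 0 < a := by rw [ha]; positivity
  have ha1 : a ≤ 1 := by rw [ha, div_le_one hl]; exact hls
  have heT : 1 ≤ e * T := by
    rw [div_le_iff₀ he0] at h7
    linarith
  have hX : T + a ≤ (1 + e) * T := by linarith
  have g2 : nu (mz γ) h (Ioc 0 (T + a)) ≤ ENNReal.ofReal ((N ((1 + e) * (T + a)) : ℝ) + (T + a) * B) := by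
    rw [ENNReal.ofReal_add (by positivity) (by positivity), ENNReal.ofReal_natCast]
    rcases hh.eq_or_lt with rfl | h0
    · exact (nu_zero_le H.pts he0 (by linarith)).trans le_self_add
    · have g := hsharp (T + a) (by linarith) h h0 hh1
      rw [hBe, ← ENNReal.ofReal_mul (by linarith)] at g
      exact g
  have g3 : ∫⁻ t in Ioc 0 T, DD (mz γ) h a t ≤ ENNReal.ofReal (a * ((N ((1 + e) * (T + a)) : ℝ) + (T + a) * B)) := by
    refine (FM (mz γ) hh).trans ?_
    rw [ENNReal.ofReal_mul ha0.le]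
    exact mul_le_mul_right g2 _
  rw [← ha]
  refine g3.trans (ENNReal.ofReal_le_ofReal ?_)
  -- the main term
  have k1 : (N ((1 + e) * (T + a)) : ℝ) ≤ (1 + e) * ((1 + e) * ((1 + e) * T) * Real.log ((1 + e) * ((1 + e) * T)) / (2 * Real.pi)) := by
    refine le_trans ?_ h1
    have : N ((1 + e) * (T + a)) ≤ N ((1 + e) * ((1 + e) * T)) :=
      H.pts.mono (mul_le_mul_of_nonneg_left hX (by linarith))
    exact_mod_cast this
  have k2 : Real.log ((1 + e) * ((1 + e) * T)) ≤ (1 + e) * Real.log T := by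
    rw [Real.log_mul (by positivity) (by positivity), Real.log_mul (by positivity) (by positivity)]
    linarith
  have k3 : a * (N ((1 + e) * (T + a)) : ℝ) ≤ s * (1 + e) ^ 5 * T := by
    have k4 : (1 + e) * ((1 + e) * T) * Real.log ((1 + e) * ((1 + e) * T)) ≤
        (1 + e) * ((1 + e) * T) * ((1 + e) * Real.log T) := mul_le_mul_of_nonneg_left k2 (by positivity)
    calc a * (N ((1 + e) * (T + a)) : ℝ) ≤ a * ((1 + e) * ((1 + e) * ((1 + e) * T) * ((1 + e) * Real.log T) / (2 * Real.pi))) := by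
          apply mul_le_mul_of_nonneg_left _ ha0.le
          refine k1.trans ?_
          gcongr
      _ = s * (1 + e) ^ 4 * T := by
          rw [ha]
          field_simp
      _ ≤ s * (1 + e) ^ 5 * T := by
          have : (1 + e) ^ 4 ≤ (1 + e) ^ 5 := pow_le_pow_right₀ (by linarith) (by norm_num)
          gcongr
  have k5 : a * ((T + a) * B) ≤ ε / 2 * T := by
    have k6 : (T + a) ≤ 2 * T := by linarith
    have k7 : 2 * Real.pi * s * 2 * B * (1 / Real.log T) * T ≤ ε / 2 * T := mul_le_mul_of_nonneg_right h3.le hT.le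
    calc a * ((T + a) * B) ≤ a * ((2 * T) * B) := by gcongr
      _ = 2 * Real.pi * s * 2 * B * (1 / Real.log T) * T := by rw [ha]; ring
      _ ≤ _ := k7
  have k8 : s * (1 + e) ^ 5 * T ≤ (s + ε / 2) * T := mul_le_mul_of_nonneg_right he2.le hT.le
  have e9 : (s + ε) * T = (s + ε / 2) * T + ε / 2 * T := by ring
  rw [e9, mul_add]
  linarith

/-- Fubini from below -/
lemma FL0 (ν : Measure ℝ) [SFinite ν] {a R X : ℝ} :
    ENNReal.ofReal a * ν (Ioc (R + a) X) ≤ ∫⁻ t in Ioc R X, ν (Ioc t (t + a)) := by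
  have hS : MeasurableSet {p : ℝ × ℝ | p.1 < p.2 ∧ p.2 ≤ p.1 + a} :=
    (measurableSet_lt measurable_fst measurable_snd).inter
      (measurableSet_le measurable_snd (measurable_fst.add_const a))
  have h1 : ∫⁻ t in Ioc R X, ν (Ioc t (t + a)) =
      ((volume.restrict (Ioc R X)).prod ν) {p : ℝ × ℝ | p.1 < p.2 ∧ p.2 ≤ p.1 + a} := by
    rw [Measure.prod_apply hS]
    rfl
  rw [h1, Measure.prod_apply_symm hS]
  calc ENNReal.ofReal a * ν (Ioc (R + a) X) = ∫⁻ x, (Ioc (R + a) X).indicator (fun _ => ENNReal.ofReal a) x ∂ν := by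
        rw [lintegral_indicator measurableSet_Ioc, setLIntegral_const]
    _ ≤ _ := by
        refine lintegral_mono fun x => ?_
        show (Ioc (R + a) X).indicator (fun _ => ENNReal.ofReal a) x ≤
          (volume.restrict (Ioc R X)) ((fun t => (t, x)) ⁻¹' {p : ℝ × ℝ | p.1 < p.2 ∧ p.2 ≤ p.1 + a})
        rw [Measure.restrict_apply (measurable_prodMk_right hS)]
        by_cases hx : x ∈ Ioc (R + a) X
        · rw [indicator_of_mem hx]
          have hsub : Ioo (x - a) x ⊆ ((fun t => (t, x)) ⁻¹' {p : ℝ × ℝ | p.1 < p.2 ∧ p.2 ≤ p.1 + a}) ∩ Ioc R X := by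
            intro t ht
            refine ⟨⟨ht.2, ?_⟩, ?_, ?_⟩
            · simp only
              linarith [ht.1]
            · linarith [ht.1, hx.1]
            · linarith [ht.2, hx.2]
          refine le_trans (le_of_eq ?_) (measure_mono hsub)
          rw [Real.volume_Ioo]
          congr 1
          ring
        · rw [indicator_of_notMem hx]
          exact zero_le

/-- smoothing keeps the mass of the inner part -/
lemma Sm_inner {g : ℝ → ℝ≥0∞} (hg : Measurable g) {h R T : ℝ} (hh : 0 < h) (hR : 0 < R) :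
    (1 - ENNReal.ofReal (2 * h / R)) * ∫⁻ t in Ioc R (T - R), g t ≤ ∫⁻ t in Ioc 0 T, Sm h g t := by
  unfold Sm
  rw [lintegral_lintegral_swap]
  swap
  · exact (Sm_meas2 hg).aemeasurable
  have mS : MeasurableSet {r : ℝ | |r| ≤ R} := measurableSet_le continuous_abs.measurable measurable_const
  have h1 : ∀ r, {r : ℝ | |r| ≤ R}.indicator (fun r => pe h r) r * (∫⁻ t in Ioc R (T - R), g t) ≤
      ∫⁻ t in Ioc 0 T, pe h r * g (t - r) := by
    intro r
    have hm : Measurable (fun t : ℝ => g (t - r)) := hg.comp (measurable_id.sub_const r)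
    rw [lintegral_const_mul _ hm]
    by_cases hr : r ∈ {r : ℝ | |r| ≤ R}
    · rw [indicator_of_mem hr]
      refine mul_le_mul_right ?_ _
      have hr2 : |r| ≤ R := hr
      rw [abs_le] at hr2
      have h2 : ∫⁻ t in Ioc 0 T, g (t - r) = ∫⁻ t in Ioc (0 - r) (T - r), g t := by
        rw [← lintegral_indicator measurableSet_Ioc, ← lintegral_indicator measurableSet_Ioc,
          ← lintegral_sub_right_eq_self ((Ioc (0 - r) (T - r)).indicator g) r]
        refine lintegral_congr fun t => ?_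
        by_cases ht : t ∈ Ioc 0 T
        · have : t - r ∈ Ioc (0 - r) (T - r) := ⟨by linarith [ht.1], by linarith [ht.2]⟩
          rw [indicator_of_mem ht, indicator_of_mem this]
        · have : t - r ∉ Ioc (0 - r) (T - r) := fun h3 => ht ⟨by linarith [h3.1], by linarith [h3.2]⟩
          rw [indicator_of_notMem ht, indicator_of_notMem this]
      rw [h2]
      exact lintegral_mono_set fun x hx => ⟨by linarith [hx.1], by linarith [hx.2]⟩
    · rw [indicator_of_notMem hr, zero_mul]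
      exact zero_le
  refine le_trans ?_ (lintegral_mono h1)
  rw [lintegral_mul_const _ ((pe_meas h).indicator mS), lintegral_indicator mS]
  refine mul_le_mul_left ?_ _
  rw [tsub_le_iff_right]
  have h2 : ∫⁻ r in {r : ℝ | |r| ≤ R}ᶜ, pe h r ≤ ENNReal.ofReal (2 * h / R) := by
    calc ∫⁻ r in {r : ℝ | |r| ≤ R}ᶜ, pe h r ≤ ∫⁻ r in {r : ℝ | |r| ≤ R}ᶜ, ENNReal.ofReal (2 * h / R) * pe R r := by
          refine setLIntegral_mono' mS.compl fun r hr => pe_tail hh.le hR ?_
          exact (not_le.1 (show ¬ |r| ≤ R from hr)).le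
      _ ≤ ∫⁻ r, ENNReal.ofReal (2 * h / R) * pe R r := lintegral_mono' Measure.restrict_le_self le_rfl
      _ = _ := by rw [lintegral_const_mul _ (pe_meas R), lint_pe hR, mul_one]
  calc (1 : ℝ≥0∞) = ∫⁻ r, pe h r := (lint_pe hh).symm
    _ = (∫⁻ r in {r : ℝ | |r| ≤ R}, pe h r) + ∫⁻ r in {r : ℝ | |r| ≤ R}ᶜ, pe h r := (lintegral_add_compl _ mS).symm
    _ ≤ _ := add_le_add le_rfl h2

lemma poly_aux {e : ℝ} (he0 : 0 < e) (he1 : e ≤ 1 / 2) : (1 - e) ^ 4 ≤ (1 - e / 2) ^ 3 - e / 8 := by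
  have q1 : 0 ≤ 19 / 8 - 21 / 4 * e + 27 / 8 * e ^ 2 := by nlinarith [sq_nonneg (e - 7 / 9)]
  have q2 : 0 ≤ 1 / 2 - e := by linarith
  have q3 : (1 - e / 2) ^ 3 - e / 8 - (1 - e) ^ 4 =
      e * (19 / 8 - 21 / 4 * e + 27 / 8 * e ^ 2) + e ^ 3 * (1 / 2 - e) := by ring
  have q4 : 0 ≤ e * (19 / 8 - 21 / 4 * e + 27 / 8 * e ^ 2) + e ^ 3 * (1 / 2 - e) := by positivity
  linarith

set_option maxHeartbeats 1000000 in
/-- the mean of the window mass, from below -/
theorem mean_low {γ : ℕ → ℝ} {N : ℝ → ℕ} (H : Zd γ N)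
    (low : ∀ ε : ℝ, 0 < ε → ∀ᶠ X in atTop, (1 - ε) * (X * Real.log X / (2 * Real.pi)) ≤ (N X : ℝ)) {s ε : ℝ} (hs : 0 < s)
    (hε : 0 < ε) : ∀ᶠ T in atTop, ∀ h : ℝ, 0 ≤ h → h ≤ 1 →
    ENNReal.ofReal ((s - ε) * T) ≤ ∫⁻ t in Ioc 0 T, DD (mz γ) h (2 * Real.pi * s / Real.log T) t := by
  have hpi := Real.pi_pos
  obtain ⟨e, he0, he1, he2⟩ : ∃ e : ℝ, 0 < e ∧ e ≤ 1 / 2 ∧ s - ε ≤ s * (1 - e) ^ 5 := by
    have h1 : Tendsto (fun e : ℝ => s * (1 - e) ^ 5) (𝓝[>] 0) (𝓝 (s * (1 - 0) ^ 5)) := by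
      apply tendsto_nhdsWithin_of_tendsto_nhds
      exact ((tendsto_id.const_sub 1).pow 5).const_mul s
    have e0 : s * (1 - 0) ^ 5 = s := by ring
    rw [e0] at h1
    have h2 : ∀ᶠ e : ℝ in 𝓝[>] 0, e < 1 / 2 := eventually_nhdsWithin_of_eventually_nhds (gt_mem_nhds (by norm_num))
    obtain ⟨e, a1, a2, a3⟩ := ((h1.eventually (lt_mem_nhds (show s - ε < s by linarith))).and
      (h2.and self_mem_nhdsWithin)).exists
    exact ⟨e, a3, a2.le, a1.le⟩
  obtain ⟨c, hc⟩ : ∃ c, c = 1 - e / 2 := ⟨_, rfl⟩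
  have hc0 : 0 < c := by rw [hc]; linarith
  have hc1 : c < 1 := by rw [hc]; linarith
  have hA : Tendsto (fun T : ℝ => c * T) atTop atTop := tendsto_id.const_mul_atTop hc0
  have hsq : Tendsto (fun T : ℝ => 2 * Real.sqrt T) atTop atTop := Real.tendsto_sqrt_atTop.const_mul_atTop (by norm_num)
  have hl2 : ∀ᶠ T : ℝ in atTop, -(2 * Real.log c) ≤ e * Real.log T :=
    (Real.tendsto_log_atTop.const_mul_atTop he0).eventually_ge_atTop _
  -- `N(2√T)` is negligible
  have hsm : Tendsto (fun T : ℝ => 8 * (1 / Real.sqrt T)) atTop (𝓝 0) := by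
    have := (Real.tendsto_sqrt_atTop.const_div_atTop 1).const_mul 8
    rwa [mul_zero] at this
  have hem : 0 < e / 8 := by positivity
  filter_upwards [hA.eventually (low (e / 2) (by positivity)), hsq.eventually (H.cnt 1 one_pos), hl2,
    hsm.eventually (gt_mem_nhds hem), eventually_ge_atTop 4,
    Real.tendsto_log_atTop.eventually_ge_atTop (max 1 (2 * Real.pi * s)),
    eventually_ge_atTop (8 / e)] with T h1 h2 h3 h4 h5 h6 h7
  intro h hh hh1
  have hT : 0 < T := by linarith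
  have hl1 : 1 ≤ Real.log T := (le_max_left _ _).trans h6
  have hls : 2 * Real.pi * s ≤ Real.log T := (le_max_right _ _).trans h6
  have hl : 0 < Real.log T := by linarith
  obtain ⟨a, ha⟩ : ∃ a, a = 2 * Real.pi * s / Real.log T := ⟨_, rfl⟩
  have ha0 : 0 < a := by rw [ha]; positivity
  have ha1 : a ≤ 1 := by rw [ha, div_le_one hl]; exact hls
  obtain ⟨R, hR⟩ : ∃ R, R = Real.sqrt T := ⟨_, rfl⟩
  have hR2 : 2 ≤ R := by
    rw [hR]
    exact Real.le_sqrt_of_sq_le (by norm_num; exact h5)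
  have hR0 : 0 < R := by linarith
  have hRR : R * R = T := by rw [hR]; exact Real.mul_self_sqrt hT.le
  rw [← hR] at h2 h4
  have h4' : 8 ≤ e / 8 * R := by
    rw [mul_one_div, div_lt_iff₀ hR0] at h4
    exact h4.le
  have hRT : R ≤ e / 64 * T := by
    rw [← hRR]
    nlinarith
  rw [← ha]
  -- the inner part
  have g1 : ENNReal.ofReal a * ((N (T - R) - N (R + a) : ℕ) : ℝ≥0∞) ≤ ∫⁻ t in Ioc R (T - R), DD (mz γ) 0 a t := by
    have := FL0 (mz γ) (a := a) (R := R) (X := T - R)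
    rw [DD_zero]
    refine le_trans (mul_le_mul_right (le_of_eq ?_) _) this
    have e1 := mz_win H.pts (t := R + a) (a := T - R - (R + a)) (by linarith)
    rw [show R + a + (T - R - (R + a)) = T - R by ring] at e1
    exact e1.symm
  have g2 : (1 - ENNReal.ofReal (2 * h / R)) * ∫⁻ t in Ioc R (T - R), DD (mz γ) 0 a t ≤
      ∫⁻ t in Ioc 0 T, DD (mz γ) h a t := by
    rcases hh.eq_or_lt with rfl | h0
    · calc _ ≤ 1 * ∫⁻ t in Ioc R (T - R), DD (mz γ) 0 a t := mul_le_mul_left tsub_le_self _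
        _ = ∫⁻ t in Ioc R (T - R), DD (mz γ) 0 a t := one_mul _
        _ ≤ ∫⁻ t in Ioc 0 T, DD (mz γ) 0 a t := lintegral_mono_set (Ioc_subset_Ioc hR0.le (by linarith))
    · have := Sm_inner (W0_meas (mz γ) a) (T := T) h0 hR0
      rw [DD_zero, DD_pos (mz γ) h0]
      exact this
  refine le_trans ?_ g2
  refine le_trans ?_ (mul_le_mul_right g1 _)
  have g3 : ENNReal.ofReal (1 - e) ≤ 1 - ENNReal.ofReal (2 * h / R) := by
    rw [← ENNReal.ofReal_one, ← ENNReal.ofReal_sub _ (by positivity)]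
    apply ENNReal.ofReal_le_ofReal
    have : 2 * h / R ≤ e := by
      rw [div_le_iff₀ hR0]
      linarith
    linarith
  refine le_trans ?_ (mul_le_mul_left g3 _)
  rw [← ENNReal.ofReal_natCast, ← ENNReal.ofReal_mul ha0.le, ← ENNReal.ofReal_mul (by linarith)]
  apply ENNReal.ofReal_le_ofReal
  -- the numerical estimate
  have k0 : c * T ≤ T - R := by
    rw [hc]
    linarith
  have k1 : N (c * T) ≤ N (T - R) := H.pts.mono k0
  have k2 : N (R + a) ≤ N (2 * R) := H.pts.mono (by linarith)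
  have k3 : N (R + a) ≤ N (T - R) := H.pts.mono (by
    have : 2 * R + a ≤ T := by rw [← hRR]; nlinarith
    linarith)
  have k4 : ((N (T - R) - N (R + a) : ℕ) : ℝ) = (N (T - R) : ℝ) - N (R + a) := by
    rw [Nat.cast_sub k3]
  have k5 : (1 - e / 2) * (c * T * Real.log (c * T) / (2 * Real.pi)) ≤ (N (T - R) : ℝ) := by
    refine h1.trans ?_
    exact_mod_cast k1
  have k6 : (1 - e / 2) * Real.log T ≤ Real.log (c * T) := by
    rw [Real.log_mul hc0.ne' hT.ne']
    linarith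
  have k7 : (N (R + a) : ℝ) ≤ e / 8 * (T * Real.log T / (2 * Real.pi)) := by
    have k8 : (N (R + a) : ℝ) ≤ (1 + 1) * (2 * R * Real.log (2 * R) / (2 * Real.pi)) := by
      refine le_trans ?_ h2
      exact_mod_cast k2
    refine k8.trans ?_
    have k9 : Real.log (2 * R) ≤ Real.log T := by
      apply Real.log_le_log (by positivity)
      rw [← hRR]
      nlinarith
    have k10 : (1 + 1) * (2 * R * Real.log (2 * R) / (2 * Real.pi)) ≤ (1 + 1) * (2 * R * Real.log T / (2 * Real.pi)) := by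
      gcongr
    refine k10.trans ?_
    have k11 : 4 * R ≤ e / 8 * T := by linarith
    have e1 : (1 + 1) * (2 * R * Real.log T / (2 * Real.pi)) = (4 * R) * (Real.log T / (2 * Real.pi)) := by ring
    have e2 : e / 8 * (T * Real.log T / (2 * Real.pi)) = (e / 8 * T) * (Real.log T / (2 * Real.pi)) := by ring
    rw [e1, e2]
    exact mul_le_mul_of_nonneg_right k11 (by positivity)
  have k12 : (1 - e / 2) * (c * T * ((1 - e / 2) * Real.log T) / (2 * Real.pi)) ≤ (N (T - R) : ℝ) := by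
    refine le_trans ?_ k5
    have : 0 ≤ 1 - e / 2 := by linarith
    gcongr
  have k13 : (1 - e) ^ 4 * (T * Real.log T / (2 * Real.pi)) ≤ ((N (T - R) - N (R + a) : ℕ) : ℝ) := by
    rw [k4]
    have e1 : (1 - e / 2) * (c * T * ((1 - e / 2) * Real.log T) / (2 * Real.pi)) =
        (1 - e / 2) ^ 3 * (T * Real.log T / (2 * Real.pi)) := by
      rw [hc]; ring
    rw [e1] at k12
    have k14 := poly_aux he0 he1
    have k15 := mul_le_mul_of_nonneg_right k14 (show 0 ≤ T * Real.log T / (2 * Real.pi) by positivity)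
    rw [sub_mul] at k15
    linarith
  have k16 := mul_le_mul_of_nonneg_left k13 ha0.le
  have e3 : a * ((1 - e) ^ 4 * (T * Real.log T / (2 * Real.pi))) = s * (1 - e) ^ 4 * T := by
    rw [ha]
    field_simp
  rw [e3] at k16
  have k17 := mul_le_mul_of_nonneg_left k16 (show 0 ≤ 1 - e by linarith)
  refine le_trans ?_ k17
  have e4 : (1 - e) * (s * (1 - e) ^ 4 * T) = s * (1 - e) ^ 5 * T := by ring
  rw [e4]
  exact mul_le_mul_of_nonneg_right he2 hT.le

end Pool.Agent.P8H69.PL
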