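import Pool.Agent.P8H69.PL.Th
import Pool.Agent.P8H69.OL.Fn
import Pool.Agent.H382L.ClusterTail
import Pool.Agent.Y743.NC.Block

set_option autoImplicit false

/-!
# The facts on the zeros of zeta
-/

namespace Pool.Agent.P8H69.PL

open MeasureTheory Set Filter Topology
open Pool.Agent.P8H69.OL
open scoped ENNReal

/-- the tail of the distribution of the local counts is summable against powers -/
lemma tail_sum (k : ℕ) {C : ℝ} (hC : 1 ≤ C) :
    ∑' m : ℕ, ENNReal.ofReal (((m : ℝ) + 2) ^ k * (C / ((m + 1 : ℕ) : ℝ)) ^ ((((m + 1 : ℕ) : ℝ)) / C)) ≠ ⊤ := by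
  have hC0 : 0 < C := by linarith
  have h1 : Summable fun m : ℕ => ((m : ℝ) + 2) ^ k * (C / ((m + 1 : ℕ) : ℝ)) ^ ((((m + 1 : ℕ) : ℝ)) / C) := by
    have h2 : Summable fun m : ℕ => (3 : ℝ) ^ k * ((m : ℝ) ^ k * (1 / 2 : ℝ) ^ m) := by
      apply Summable.mul_left
      exact summable_pow_mul_geometric_of_norm_lt_one k (by norm_num)
    have h3 : ∀ᶠ m : ℕ in atTop, C * 2 ^ C ≤ (m : ℝ) := tendsto_natCast_atTop_atTop.eventually_ge_atTop _
    refine Summable.of_norm_bounded_eventually_nat h2 ?_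
    filter_upwards [h3, eventually_ge_atTop 1] with m hm hm1
    have hm1' : (1 : ℝ) ≤ m := by exact_mod_cast hm1
    obtain ⟨x, hx⟩ : ∃ x : ℝ, x = ((m + 1 : ℕ) : ℝ) := ⟨_, rfl⟩
    rw [← hx]
    have hxm : x = m + 1 := by rw [hx]; push_cast; rfl
    have hx0 : 0 < x := by rw [hxm]; positivity
    rw [Real.norm_of_nonneg (by positivity)]
    have h4 : (C / x) ^ (x / C) ≤ (1 / 2 : ℝ) ^ m := by
      have h5 : C / x ≤ (1 / 2 : ℝ) ^ C := by
        rw [div_le_iff₀ hx0, Real.div_rpow (by norm_num) (by norm_num), Real.one_rpow, one_div, inv_mul_eq_div,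
          le_div_iff₀ (by positivity)]
        linarith
      calc (C / x) ^ (x / C) ≤ ((1 / 2 : ℝ) ^ C) ^ (x / C) := Real.rpow_le_rpow (by positivity) h5 (by positivity)
        _ = (1 / 2 : ℝ) ^ x := by
            rw [← Real.rpow_mul (by norm_num)]
            congr 1
            field_simp
        _ ≤ (1 / 2 : ℝ) ^ (m : ℝ) := Real.rpow_le_rpow_of_exponent_ge (by norm_num) (by norm_num) (by linarith)
        _ = _ := Real.rpow_natCast _ _
    have h6 : ((m : ℝ) + 2) ^ k ≤ 3 ^ k * (m : ℝ) ^ k := by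
      rw [← mul_pow]
      apply pow_le_pow_left₀ (by positivity)
      linarith
    calc ((m : ℝ) + 2) ^ k * (C / x) ^ (x / C) ≤ (3 ^ k * (m : ℝ) ^ k) * (1 / 2 : ℝ) ^ m := by gcongr
      _ = _ := by ring
  exact h1.tsum_ofReal_ne_top

/-- the ordinates in one window -/
lemma win_ord {t a : ℝ} {j : ℕ} (h : j + 1 ≤ SG.NZ (t + a) - SG.NZ t) :
    1 ≤ SG.NZ t + 1 ∧ t < SG.ord (SG.NZ t + 1) ∧ SG.ord (SG.NZ t + 1 + j) ≤ t + a := by
  refine ⟨by omega, ?_, ?_⟩
  · by_contra hcon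
    rw [not_lt, SG.ord_le_iff (by omega)] at hcon
    omega
  · rw [SG.ord_le_iff (by omega)]
    omega

/-- the moments of the local counts -/
theorem zeta_mom (RH : RiemannHypothesis) (k : ℕ) {b : ℝ} (hb : 0 < b) : ∃ C : ℝ, 0 < C ∧ ∀ᶠ U in atTop, ∀ a : ℝ, 0 < a →
    a * Real.log U ≤ b → ∫⁻ t in Ioc U (2 * U), ((SG.NZ (t + a) - SG.NZ t : ℕ) : ℝ≥0∞) ^ k ≤ ENNReal.ofReal (C * U) := by
  classical
  have hpi := Real.pi_pos
  obtain ⟨C, T0, hC, hT0, hcl⟩ := LG.cluster_tail (rhs_of RH) (b / (2 * Real.pi)) (by positivity)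
  obtain ⟨C1, hC1, hu⟩ := Pool.Agent.Y743.NC.unit_count
  obtain ⟨Sg, hSg⟩ : ∃ Sg : ℝ, Sg = (∑' m : ℕ, ENNReal.ofReal (((m : ℝ) + 2) ^ k *
    (C / ((m + 1 : ℕ) : ℝ)) ^ ((((m + 1 : ℕ) : ℝ)) / C))).toReal := ⟨_, rfl⟩
  have hSg0 : 0 ≤ Sg := by rw [hSg]; exact ENNReal.toReal_nonneg
  have hSge : ∑' m : ℕ, ENNReal.ofReal (((m : ℝ) + 2) ^ k *
    (C / ((m + 1 : ℕ) : ℝ)) ^ ((((m + 1 : ℕ) : ℝ)) / C)) = ENNReal.ofReal Sg := by
    rw [hSg, ENNReal.ofReal_toReal (tail_sum k hC)]
  refine ⟨2 + b * C * Sg, by positivity, ?_⟩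
  -- the last part of the block
  have hlast : ∀ᶠ U : ℝ in atTop, b * (C1 * Real.log (2 * U)) ^ k ≤ U := by
    have h1 : (fun x : ℝ => Real.log x ^ k) =o[atTop] fun x : ℝ => x ^ (1 : ℝ) := by
      have := isLittleO_log_rpow_rpow_atTop (s := 1) (k : ℝ) one_pos
      simpa using this
    have h2 := h1.bound (show (0 : ℝ) < 1 / (2 * (b * C1 ^ k)) by positivity)
    have h3 : Tendsto (fun U : ℝ => 2 * U) atTop atTop := tendsto_id.const_mul_atTop two_pos
    filter_upwards [h3.eventually h2, eventually_ge_atTop 1] with U h4 h5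
    have hl : 0 ≤ Real.log (2 * U) := Real.log_nonneg (by linarith)
    rw [Real.norm_of_nonneg (by positivity), Real.rpow_one, Real.norm_of_nonneg (by linarith)] at h4
    calc b * (C1 * Real.log (2 * U)) ^ k = (b * C1 ^ k) * Real.log (2 * U) ^ k := by rw [mul_pow]; ring
      _ ≤ (b * C1 ^ k) * (1 / (2 * (b * C1 ^ k)) * (2 * U)) := by gcongr
      _ = U := by field_simp
  filter_upwards [hlast, eventually_ge_atTop T0, eventually_ge_atTop 3,
    Real.tendsto_log_atTop.eventually_ge_atTop (max 1 b)] with U h1 h2 h3 h4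
  intro a ha hab
  have hU : 0 < U := by linarith
  have hl1 : 1 ≤ Real.log U := (le_max_left _ _).trans h4
  have hlb : b ≤ Real.log U := (le_max_right _ _).trans h4
  have hl : 0 < Real.log U := by linarith
  have ha1 : a ≤ 1 := by
    by_contra hcon
    rw [not_le] at hcon
    nlinarith
  have hal : a ≤ b / Real.log U := by rw [le_div_iff₀ hl]; exact hab
  have hab' : a ≤ b := hal.trans (div_le_self hb.le hl1)
  -- the two parts
  have hsub : Ioc U (2 * U) ⊆ Ioc U (2 * U - a) ∪ Ioc (2 * U - a) (2 * U) := by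
    intro x hx
    rcases le_or_gt x (2 * U - a) with h5 | h5
    · exact Or.inl ⟨hx.1, h5⟩
    · exact Or.inr ⟨h5, hx.2⟩
  refine (lintegral_mono_set hsub).trans ((lintegral_union_le _ _ _).trans ?_)
  have p2 : ∫⁻ t in Ioc (2 * U - a) (2 * U), ((SG.NZ (t + a) - SG.NZ t : ℕ) : ℝ≥0∞) ^ k ≤ ENNReal.ofReal U := by
    calc ∫⁻ t in Ioc (2 * U - a) (2 * U), ((SG.NZ (t + a) - SG.NZ t : ℕ) : ℝ≥0∞) ^ k
        ≤ ∫⁻ _t in Ioc (2 * U - a) (2 * U), ENNReal.ofReal ((C1 * Real.log (2 * U)) ^ k) := by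
          refine setLIntegral_mono' measurableSet_Ioc fun t ht => ?_
          have ht3 : 3 ≤ t := by linarith [ht.1]
          have g1 : ((SG.NZ (t + a) - SG.NZ t : ℕ) : ℝ) ≤ C1 * Real.log (2 * U) := by
            have g2 : SG.NZ (t + a) ≤ SG.NZ (t + 1) := SG.NZ_mono (by linarith)
            have g3 : ((SG.NZ (t + a) - SG.NZ t : ℕ) : ℝ) = (SG.NZ (t + a) : ℝ) - SG.NZ t := by
              rw [Nat.cast_sub (SG.NZ_mono (by linarith))]
            have g4 : (SG.NZ (t + a) : ℝ) ≤ SG.NZ (t + 1) := by exact_mod_cast g2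
            have g5 := hu t ht3
            have g6 : Real.log t ≤ Real.log (2 * U) := Real.log_le_log (by linarith) ht.2
            have g7 := mul_le_mul_of_nonneg_left g6 hC1.le
            rw [g3]
            linarith
          rw [← ENNReal.ofReal_natCast, ← ENNReal.ofReal_pow (by positivity)]
          apply ENNReal.ofReal_le_ofReal
          exact pow_le_pow_left₀ (by positivity) g1 k
      _ = ENNReal.ofReal ((C1 * Real.log (2 * U)) ^ k * a) := by
          rw [setLIntegral_const, Real.volume_Ioc, sub_sub_cancel, ← ENNReal.ofReal_mul]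
          have : 0 ≤ Real.log (2 * U) := Real.log_nonneg (by linarith)
          positivity
      _ ≤ _ := by
          apply ENNReal.ofReal_le_ofReal
          refine le_trans ?_ h1
          have : 0 ≤ Real.log (2 * U) := Real.log_nonneg (by linarith)
          rw [mul_comm b]
          gcongr
  have p1 : ∫⁻ t in Ioc U (2 * U - a), ((SG.NZ (t + a) - SG.NZ t : ℕ) : ℝ≥0∞) ^ k ≤ ENNReal.ofReal ((1 + b * C * Sg) * U) := by
    -- the layers
    have hmeas : ∀ m : ℕ, MeasurableSet {t : ℝ | m + 2 ≤ SG.NZ (t + a) - SG.NZ t} := by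
      intro m
      have hN : Measurable SG.NZ := SG.NZ_mono.measurable
      have h5 : Measurable (fun t : ℝ => SG.NZ (t + a) - SG.NZ t) :=
        (hN.comp (measurable_id.add_const a)).sub hN
      exact measurableSet_le measurable_const h5
    have hpt : ∀ t : ℝ, ((SG.NZ (t + a) - SG.NZ t : ℕ) : ℝ≥0∞) ^ k ≤ 1 + ∑' m : ℕ,
        {t : ℝ | m + 2 ≤ SG.NZ (t + a) - SG.NZ t}.indicator (fun _ => ((m + 2 : ℕ) : ℝ≥0∞) ^ k) t := by
      intro t
      obtain ⟨n, hn⟩ : ∃ n, n = SG.NZ (t + a) - SG.NZ t := ⟨_, rfl⟩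
      rw [← hn]
      rcases Nat.lt_or_ge n 2 with h5 | h5
      · refine le_trans ?_ le_self_add
        apply pow_le_one'
        have : n ≤ 1 := by omega
        exact_mod_cast this
      · refine le_trans ?_ le_add_self
        refine le_trans ?_ (ENNReal.le_tsum (n - 2))
        rw [indicator_of_mem]
        · rw [Nat.sub_add_cancel h5]
        · show n - 2 + 2 ≤ SG.NZ (t + a) - SG.NZ t
          omega
    refine (lintegral_mono hpt).trans ?_
    rw [lintegral_add_left measurable_const, lintegral_tsum]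
    swap
    · intro m
      exact (measurable_const.indicator (hmeas m)).aemeasurable
    have hvol : ∀ m : ℕ, ∫⁻ t in Ioc U (2 * U - a), {t : ℝ | m + 2 ≤ SG.NZ (t + a) - SG.NZ t}.indicator
        (fun _ => ((m + 2 : ℕ) : ℝ≥0∞) ^ k) t ≤ ENNReal.ofReal (b * C * U) * ENNReal.ofReal (((m : ℝ) + 2) ^ k *
        (C / ((m + 1 : ℕ) : ℝ)) ^ ((((m + 1 : ℕ) : ℝ)) / C)) := by
      intro m
      rw [lintegral_indicator_const (hmeas m), Measure.restrict_apply (hmeas m)]
      obtain ⟨S, hS⟩ : ∃ S : Set ℕ, S = {n : ℕ | 1 ≤ n ∧ U ≤ SG.ord n ∧ SG.ord (n + (m + 1)) ≤ 2 * U ∧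
        SG.ord (n + (m + 1)) - SG.ord n ≤ b / (2 * Real.pi) * (2 * Real.pi / Real.log U)} := ⟨_, rfl⟩
      have hSfin : S.Finite := by
        refine (Set.finite_Iic (SG.NZ (2 * U))).subset fun n hn => ?_
        rw [hS] at hn
        have := (SG.ord_le_iff (show 1 ≤ n + (m + 1) by omega) (2 * U)).1 hn.2.2.1
        rw [mem_Iic]
        omega
      have hcov : {t : ℝ | m + 2 ≤ SG.NZ (t + a) - SG.NZ t} ∩ Ioc U (2 * U - a) ⊆
          ⋃ n ∈ hSfin.toFinset, Ico (SG.ord (n + (m + 1)) - a) (SG.ord n) := by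
        rintro t ⟨ht1, ht2⟩
        have ht1' : (m + 1) + 1 ≤ SG.NZ (t + a) - SG.NZ t := ht1
        obtain ⟨g1, g2, g3⟩ := win_ord ht1'
        rw [mem_iUnion₂]
        refine ⟨SG.NZ t + 1, ?_, ?_⟩
        · rw [Set.Finite.mem_toFinset, hS]
          refine ⟨g1, by linarith [ht2.1], by linarith [ht2.2], ?_⟩
          have e1 : b / (2 * Real.pi) * (2 * Real.pi / Real.log U) = b / Real.log U := by field_simp
          rw [e1]
          linarith
        · exact ⟨by linarith, g2⟩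
      have hv : volume ({t : ℝ | m + 2 ≤ SG.NZ (t + a) - SG.NZ t} ∩ Ioc U (2 * U - a)) ≤
          (S.ncard : ℝ≥0∞) * ENNReal.ofReal a := by
        refine (measure_mono hcov).trans ((measure_biUnion_finset_le _ _).trans ?_)
        calc ∑ n ∈ hSfin.toFinset, volume (Ico (SG.ord (n + (m + 1)) - a) (SG.ord n)) ≤
              ∑ _n ∈ hSfin.toFinset, ENNReal.ofReal a := by
              refine Finset.sum_le_sum fun n hn => ?_
              rw [Set.Finite.mem_toFinset, hS] at hn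
              rw [Real.volume_Ico]
              apply ENNReal.ofReal_le_ofReal
              have := SG.ord_mono hn.1 (show n ≤ n + (m + 1) by omega)
              linarith
          _ = _ := by
              rw [Finset.sum_const, nsmul_eq_mul, Set.ncard_eq_toFinset_card _ hSfin]
      have hc := hcl U h2 (m + 1) (by omega)
      rw [← hS] at hc
      refine (mul_le_mul_right hv _).trans ?_
      have e1 : ((m + 2 : ℕ) : ℝ≥0∞) ^ k = ENNReal.ofReal (((m : ℝ) + 2) ^ k) := by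
        rw [← ENNReal.ofReal_natCast, ← ENNReal.ofReal_pow (by positivity)]
        push_cast
        rfl
      have e2 : (S.ncard : ℝ≥0∞) = ENNReal.ofReal (S.ncard : ℝ) := (ENNReal.ofReal_natCast _).symm
      rw [e1, e2, ← ENNReal.ofReal_mul (by positivity), ← ENNReal.ofReal_mul (by positivity),
        ← ENNReal.ofReal_mul (by positivity)]
      apply ENNReal.ofReal_le_ofReal
      obtain ⟨q, hq⟩ : ∃ q, q = (C / ((m + 1 : ℕ) : ℝ)) ^ ((((m + 1 : ℕ) : ℝ)) / C) := ⟨_, rfl⟩
      have hq0 : 0 ≤ q := by rw [hq]; positivity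
      rw [← hq] at hc ⊢
      calc ((m : ℝ) + 2) ^ k * ((S.ncard : ℝ) * a) ≤ ((m : ℝ) + 2) ^ k * ((C * q * (U * Real.log U)) * (b / Real.log U)) := by
            gcongr
        _ = b * C * U * (((m : ℝ) + 2) ^ k * q) := by
            field_simp
    refine (add_le_add le_rfl (ENNReal.tsum_le_tsum hvol)).trans ?_
    rw [ENNReal.tsum_mul_left, hSge, setLIntegral_const, one_mul, Real.volume_Ioc, ← ENNReal.ofReal_mul (by positivity),
      ← ENNReal.ofReal_add (by linarith) (by positivity)]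
    apply ENNReal.ofReal_le_ofReal
    have : b * C * U * Sg = b * C * Sg * U := by ring
    rw [this]
    linarith
  refine (add_le_add p1 p2).trans ?_
  rw [← ENNReal.ofReal_add (by positivity) hU.le]
  apply ENNReal.ofReal_le_ofReal
  linarith

lemma zeta_low (ε : ℝ) (hε : 0 < ε) : ∀ᶠ X in atTop, (1 - ε) * (X * Real.log X / (2 * Real.pi)) ≤ (SG.NZ X : ℝ) := by
  obtain ⟨C, T0, hC, hT0, h⟩ := Pool.Agent.P8H8.HF.rvm
  have hpi := Real.pi_pos
  filter_upwards [eventually_ge_atTop T0, log_big C (show 0 < ε / (2 * Real.pi) by positivity)] with X h1 h2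
  have h3 := h X h1
  rw [abs_le] at h3
  have hX : 0 < X := by linarith
  have h4 := mul_le_mul_of_nonneg_right h2 hX.le
  have e : (1 - ε) * (X * Real.log X / (2 * Real.pi)) = Pool.Agent.P8H8.HF.MT X - ε / (2 * Real.pi) * Real.log X * X := by
    unfold Pool.Agent.P8H8.HF.MT
    ring
  rw [e]
  linarith [h3.1]

lemma zeta_unit : ∃ C : ℝ, 0 < C ∧ ∀ t : ℝ, 0 ≤ t → (SG.NZ (t + 1) : ℝ) - SG.NZ t ≤ C * Real.log (t + 3) := by
  obtain ⟨C, hC, h⟩ := Pool.Agent.Y743.NC.unit_count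
  refine ⟨C + SG.NZ 4, by positivity, fun t ht => ?_⟩
  have hl1 : 1 ≤ Real.log (t + 3) := by
    have : Real.log (Real.exp 1) ≤ Real.log (t + 3) := by
      apply Real.log_le_log (Real.exp_pos 1)
      have := Real.exp_one_lt_d9
      linarith
    rwa [Real.log_exp] at this
  have hn : (0 : ℝ) ≤ SG.NZ 4 := Nat.cast_nonneg _
  have hn2 : (SG.NZ 4 : ℝ) ≤ SG.NZ 4 * Real.log (t + 3) := le_mul_of_one_le_right hn hl1
  rcases le_or_gt 3 t with h3 | h3
  · have h4 := h t h3
    have h5 : Real.log t ≤ Real.log (t + 3) := Real.log_le_log (by linarith) (by linarith)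
    have h6 := mul_le_mul_of_nonneg_left h5 hC.le
    rw [add_mul]
    linarith
  · have h4 : (SG.NZ (t + 1) : ℝ) ≤ SG.NZ 4 := by exact_mod_cast SG.NZ_mono (by linarith)
    have h5 : (0 : ℝ) ≤ SG.NZ t := Nat.cast_nonneg _
    have h6 : 0 ≤ C * Real.log (t + 3) := by positivity
    rw [add_mul]
    linarith

theorem gm_zq (RH : RiemannHypothesis) : Zq gm SG.NZ :=
  { gm_zd RH with
    low := fun ε hε => zeta_low ε hε
    unit := zeta_unit
    mom := fun k _ hb => zeta_mom RH k hb }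

end Pool.Agent.P8H69.PL
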