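import Pool.Agent.P8H69.PL.Sc

set_option autoImplicit false

/-!
# Away from the line the windows of small length contain two points very rarely
-/

namespace Pool.Agent.P8H69.PL

open MeasureTheory Set Filter Topology
open Pool.Agent.P8H69.OL
open scoped ENNReal

/-- Young's inequality -/
lemma young (k : ℕ) {x m : ℝ} (hx : 0 ≤ x) (hm : 0 ≤ m) : (k + 1) * m ^ k * x ≤ x ^ (k + 1) + k * m ^ (k + 1) := by
  induction k with
  | zero => simp
  | succ k ih =>
    have h1 := mul_le_mul_of_nonneg_left ih hx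
    have h2 : 0 ≤ ((k : ℝ) + 1) * m ^ k * (x - m) ^ 2 := by positivity
    have e : x ^ (k + 1 + 1) + ((k + 1 : ℕ) : ℝ) * m ^ (k + 1 + 1) - (((k + 1 : ℕ) : ℝ) + 1) * m ^ (k + 1) * x =
        (x * (x ^ (k + 1) + k * m ^ (k + 1)) - x * ((k + 1) * m ^ k * x)) + ((k : ℝ) + 1) * m ^ k * (x - m) ^ 2 := by
      push_cast
      ring
    linarith

lemma young' (k : ℕ) (x m : ℝ≥0∞) (hm : m ≠ ⊤) : ((k : ℝ≥0∞) + 1) * m ^ k * x ≤ x ^ (k + 1) + k * m ^ (k + 1) := by
  rcases eq_or_ne x ⊤ with rfl | hx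
  · rw [ENNReal.top_pow (Nat.succ_ne_zero k), top_add]
    exact le_top
  · have h := young k (x := x.toReal) (m := m.toReal) ENNReal.toReal_nonneg ENNReal.toReal_nonneg
    have h2 := ENNReal.ofReal_le_ofReal h
    rw [ENNReal.ofReal_mul (by positivity), ENNReal.ofReal_mul (by positivity), ENNReal.ofReal_add (by positivity) zero_le_one,
      ENNReal.ofReal_add (by positivity) (by positivity), ENNReal.ofReal_mul (by positivity),
      ENNReal.ofReal_pow ENNReal.toReal_nonneg, ENNReal.ofReal_pow ENNReal.toReal_nonneg,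
      ENNReal.ofReal_pow ENNReal.toReal_nonneg, ENNReal.ofReal_toReal hx, ENNReal.ofReal_toReal hm,
      ENNReal.ofReal_natCast, ENNReal.ofReal_one] at h2
    exact h2

/-- Jensen's inequality for powers -/
lemma pow_jens {h : ℝ} (hh : 0 < h) {g : ℝ → ℝ≥0∞} (hg : Measurable g) (k : ℕ) (t : ℝ) :
    Sm h g t ^ k ≤ Sm h (fun t => g t ^ k) t := by
  rcases k with _ | k
  · simp only [pow_zero]
    exact (Sm_const hh 1 t).symm.le
  have hgk : Measurable (fun t => g t ^ (k + 1)) := hg.pow_const _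
  rcases eq_or_ne (Sm h g t) ⊤ with h1 | h1
  · have h2 : ∀ t, g t ≤ 1 + g t ^ (k + 1) := by
      intro t
      rcases le_total (g t) 1 with h3 | h3
      · exact h3.trans le_self_add
      · exact (le_self_pow h3 (Nat.succ_ne_zero k)).trans le_add_self
    have h3 : Sm h g t ≤ 1 + Sm h (fun t => g t ^ (k + 1)) t := by
      have e : 1 + Sm h (fun t => g t ^ (k + 1)) t = Sm h (fun t => 1 + g t ^ (k + 1)) t := by
        rw [Sm_add measurable_const, Sm_const hh]
      rw [e]
      exact Sm_mono h2 t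
    rw [h1, top_le_iff] at h3
    have h4 : Sm h (fun t => g t ^ (k + 1)) t = ⊤ := by
      rcases ENNReal.add_eq_top.1 h3 with h5 | h5
      · exact absurd h5 ENNReal.one_ne_top
      · exact h5
    rw [h4]
    exact le_top
  · obtain ⟨m, hm⟩ : ∃ m, m = Sm h g t := ⟨_, rfl⟩
    rw [← hm] at h1 ⊢
    have h2 : ((k : ℝ≥0∞) + 1) * m ^ k * m ≤ Sm h (fun t => g t ^ (k + 1)) t + k * m ^ (k + 1) := by
      have e1 : Sm h (fun t => g t ^ (k + 1)) t + k * m ^ (k + 1) = Sm h (fun t => g t ^ (k + 1) + k * m ^ (k + 1)) t := by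
        rw [Sm_add hgk, Sm_const hh]
      have e2 : ((k : ℝ≥0∞) + 1) * m ^ k * m = Sm h (fun t => ((k : ℝ≥0∞) + 1) * m ^ k * g t) t := by
        have hmm : m = ∫⁻ r, pe h r * g (t - r) := hm
        have hmeas : Measurable (fun r => pe h r * g (t - r)) :=
          (pe_meas h).mul (hg.comp (measurable_const.sub measurable_id))
        calc ((k : ℝ≥0∞) + 1) * m ^ k * m = ((k : ℝ≥0∞) + 1) * m ^ k * ∫⁻ r, pe h r * g (t - r) := by rw [← hmm]
          _ = ∫⁻ r, ((k : ℝ≥0∞) + 1) * m ^ k * (pe h r * g (t - r)) := (lintegral_const_mul _ hmeas).symm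
          _ = _ := by
            unfold Sm
            refine lintegral_congr fun r => ?_
            ring
      rw [e1, e2]
      exact Sm_mono (fun t => young' k (g t) m h1) t
    have h3 : m ^ (k + 1) + k * m ^ (k + 1) ≤ Sm h (fun t => g t ^ (k + 1)) t + k * m ^ (k + 1) := by
      refine le_trans (le_of_eq ?_) h2
      ring
    have h4 : (k : ℝ≥0∞) * m ^ (k + 1) ≠ ⊤ := ENNReal.mul_ne_top (ENNReal.natCast_ne_top k) (ENNReal.pow_ne_top h1)
    exact (ENNReal.add_le_add_iff_right h4).1 h3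

lemma ex_pow {k : ℕ} (hk : 2 ≤ k) (x : ℝ≥0∞) : ex x ≤ x ^ k := by
  rcases le_total x 1 with h1 | h1
  · have : ex x = 0 := by
      unfold ex
      rw [ENNReal.tsum_eq_zero]
      intro j
      rw [tsub_eq_zero_iff_le]
      exact h1.trans le_add_self
    rw [this]
    exact zero_le
  · exact (ex_sq x).trans (pow_le_pow_right₀ h1 hk)

variable {γ : ℕ → ℝ} {N : ℝ → ℕ}

/-- the moments at distance `h` -/
theorem mom_h (H : Zq γ N) (k : ℕ) {s : ℝ} (hs : 0 < s) : ∃ C : ℝ, 0 < C ∧ ∀ᶠ T in atTop, ∀ h : ℝ, 0 ≤ h → h ≤ 1 →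
    ∫⁻ t in Ioc 0 T, DD (mz γ) h (2 * Real.pi * s / Real.log T) t ^ k ≤ ENNReal.ofReal (C * T) := by
  have hpi := Real.pi_pos
  obtain ⟨C, hC, hmom⟩ := mom_all H k hs
  obtain ⟨B, hB1, hB⟩ := gwk H k
  refine ⟨C + 6 * B, by positivity, ?_⟩
  filter_upwards [hmom, eventually_ge_atTop 1, Real.tendsto_log_atTop.eventually_ge_atTop (max 1 (2 * Real.pi * s))]
    with T h1 h2 h5
  intro h hh hh1
  have hT : 0 < T := by linarith
  have hl1 : 1 ≤ Real.log T := (le_max_left _ _).trans h5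
  have hls : 2 * Real.pi * s ≤ Real.log T := (le_max_right _ _).trans h5
  have hl : 0 < Real.log T := by linarith
  obtain ⟨a, ha⟩ : ∃ a, a = 2 * Real.pi * s / Real.log T := ⟨_, rfl⟩
  have ha1 : a ≤ 1 := by rw [ha, div_le_one hl]; exact hls
  rw [← ha] at h1 ⊢
  rcases hh.eq_or_lt with rfl | h0
  · rw [DD_zero]
    refine h1.trans (ENNReal.ofReal_le_ofReal ?_)
    have : 0 ≤ 6 * B * T := by positivity
    linarith
  · rw [DD_pos (mz γ) h0]
    have hg : Measurable (fun t => W0 (mz γ) a t ^ k) := (W0_meas (mz γ) a).pow_const _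
    refine (lintegral_mono fun t => pow_jens h0 (W0_meas (mz γ) a) k t).trans ?_
    refine (bdry2 hg (fun t => hB a t ha1) h0 h2).trans ((add_le_add h1 le_rfl).trans ?_)
    rw [← ENNReal.ofReal_mul (by linarith), ← ENNReal.ofReal_add (by positivity) (by positivity)]
    apply ENNReal.ofReal_le_ofReal
    have hs1 : 1 ≤ Real.sqrt (Real.sqrt T) := by
      rw [Real.one_le_sqrt, Real.one_le_sqrt]
      exact h2
    have h6 : T / Real.sqrt (Real.sqrt T) ≤ T := div_le_self hT.le hs1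
    have h7 : 2 + 4 * h ≤ 6 := by linarith
    have h8 : B * ((2 + 4 * h) * (T / Real.sqrt (Real.sqrt T))) ≤ B * (6 * T) := by gcongr
    linarith

variable (μ : Measure ℝ) [SFinite μ]

/-- the density is at most three times its mean over a window of length `h` -/
lemma ww_avg {h : ℝ} (hh : 0 < h) (y : ℝ) : ww μ h y ≤ ENNReal.ofReal (3 / h) * ∫⁻ z in Ioc y (y + h), ww μ h z := by
  have hpi := Real.pi_pos
  unfold ww
  rw [lintegral_lintegral_swap (f := fun z γ => pe h (z - γ))]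
  swap
  · exact ((pe_meas h).comp (measurable_fst.sub measurable_snd)).aemeasurable
  rw [← lintegral_const_mul']
  swap
  · exact ENNReal.ofReal_ne_top
  refine lintegral_mono fun γ => ?_
  have h1 : ∀ z ∈ Ioc y (y + h), ENNReal.ofReal (1 / 3) * pe h (y - γ) ≤ pe h (z - γ) := by
    intro z hz
    unfold pe
    rw [← ENNReal.ofReal_mul (by norm_num)]
    apply ENNReal.ofReal_le_ofReal
    unfold pk
    rw [← mul_div_assoc, div_le_div_iff₀ (by positivity) (by positivity)]
    obtain ⟨r, hr⟩ : ∃ r, r = y - γ := ⟨_, rfl⟩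
    obtain ⟨v, hv⟩ : ∃ v, v = z - y := ⟨_, rfl⟩
    have e : z - γ = r + v := by rw [hr, hv]; ring
    have hv0 : 0 ≤ v := by rw [hv]; linarith [hz.1]
    have hvh : v ≤ h := by rw [hv]; linarith [hz.2]
    rw [e, ← hr]
    have h2 : h ^ 2 + (r + v) ^ 2 ≤ 3 * (h ^ 2 + r ^ 2) := by
      have : v ^ 2 ≤ h ^ 2 := pow_le_pow_left₀ hv0 hvh 2
      nlinarith [sq_nonneg (r - v)]
    have h3 := mul_le_mul_of_nonneg_left h2 (show 0 ≤ 1 / 3 * h * Real.pi by positivity)
    linarith
  calc pe h (y - γ) = ENNReal.ofReal (3 / h) * ((ENNReal.ofReal (1 / 3) * pe h (y - γ)) * ENNReal.ofReal h) := by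
        have e : ENNReal.ofReal (3 / h) * ((ENNReal.ofReal (1 / 3) * pe h (y - γ)) * ENNReal.ofReal h) =
            (ENNReal.ofReal (3 / h) * ENNReal.ofReal (1 / 3) * ENNReal.ofReal h) * pe h (y - γ) := by ring
        rw [e, ← ENNReal.ofReal_mul (by positivity), ← ENNReal.ofReal_mul (by positivity)]
        have e2 : 3 / h * (1 / 3) * h = 1 := by field_simp
        rw [e2, ENNReal.ofReal_one, one_mul]
    _ = ENNReal.ofReal (3 / h) * ∫⁻ _z in Ioc y (y + h), ENNReal.ofReal (1 / 3) * pe h (y - γ) := by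
        rw [setLIntegral_const, Real.volume_Ioc, add_sub_cancel_left]
    _ ≤ _ := mul_le_mul_right (setLIntegral_mono' measurableSet_Ioc h1) _

/-- the mass of a short window -/
lemma DD_short {h a : ℝ} (hh : 0 < h) (t : ℝ) :
    DD μ h a t ≤ ENNReal.ofReal (3 * a / h) * DD μ h (a + h) t := by
  rw [DD_pos μ hh, DD_pos μ hh, Sm_W0, Sm_W0]
  calc ∫⁻ y in Ioc t (t + a), ww μ h y ≤ ∫⁻ _y in Ioc t (t + a), ENNReal.ofReal (3 / h) * ∫⁻ z in Ioc t (t + (a + h)), ww μ h z := by
        refine setLIntegral_mono' measurableSet_Ioc fun y hy => (ww_avg μ hh y).trans (mul_le_mul_right ?_ _)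
        exact lintegral_mono_set (Ioc_subset_Ioc hy.1.le (by linarith [hy.2]))
    _ = _ := by
        rw [setLIntegral_const, Real.volume_Ioc, add_sub_cancel_left, mul_right_comm, ← ENNReal.ofReal_mul (by positivity)]
        congr 2
        ring

omit [SFinite μ] in
/-- two points in a short window are very rare -/
theorem rare (H : Zq γ N) {k : ℕ} (hk : 2 ≤ k) {c : ℝ} (hc : 0 < c) : ∃ K : ℝ, 0 < K ∧ ∀ s ε : ℝ, 0 < s → s ≤ 1 → 0 < ε →
    ∀ᶠ T in atTop, ∀ h : ℝ, h ≤ 1 → c ≤ h * Real.log T →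
      EX (mz γ) 0 h (2 * Real.pi * s / Real.log T) T ≤ ENNReal.ofReal ((K * s ^ k + ε) * T) := by
  have hpi := Real.pi_pos
  obtain ⟨s', hs'⟩ : ∃ s', s' = 1 + c / (2 * Real.pi) := ⟨_, rfl⟩
  have hs'0 : 0 < s' := by rw [hs']; positivity
  obtain ⟨C, hC, hmom⟩ := mom_h H k hs'0
  refine ⟨(6 * Real.pi / c) ^ k * C, by positivity, fun s ε hs hs1 hε => ?_⟩
  filter_upwards [hmom, mono_ex H hε, eventually_gt_atTop 0,
    Real.tendsto_log_atTop.eventually_ge_atTop (max (max 1 c) (2 * Real.pi * s))] with T h1 h2 hT h5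
  intro h hh1 hch
  have hl1 : 1 ≤ Real.log T := (le_max_left _ _).trans ((le_max_left _ _).trans h5)
  have hlc : c ≤ Real.log T := (le_max_right _ _).trans ((le_max_left _ _).trans h5)
  have hls : 2 * Real.pi * s ≤ Real.log T := (le_max_right _ _).trans h5
  have hl : 0 < Real.log T := by linarith
  obtain ⟨a, ha⟩ : ∃ a, a = 2 * Real.pi * s / Real.log T := ⟨_, rfl⟩
  have ha0 : 0 < a := by rw [ha]; positivity
  have ha1 : a ≤ 1 := by rw [ha, div_le_one hl]; exact hls
  obtain ⟨h0, hh0⟩ : ∃ h0, h0 = c / Real.log T := ⟨_, rfl⟩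
  have h00 : 0 < h0 := by rw [hh0]; positivity
  have h01 : h0 ≤ 1 := by rw [hh0, div_le_one hl]; exact hlc
  have h0h : h0 ≤ h := by rw [hh0, div_le_iff₀ hl]; exact hch
  rw [← ha]
  refine (h2 0 a h0 h ha1 h00.le h0h hh1).trans ?_
  rw [add_mul, ENNReal.ofReal_add (by positivity) (by positivity)]
  refine add_le_add ?_ le_rfl
  have h3 : ∀ t, exJ 0 (DD (mz γ) h0 a t) ≤ ENNReal.ofReal ((6 * Real.pi * s / c) ^ k) *
      DD (mz γ) h0 (2 * Real.pi * s' / Real.log T) t ^ k := by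
    intro t
    rw [← ex_eq]
    refine (ex_pow hk _).trans ?_
    rw [ENNReal.ofReal_pow (by positivity), ← mul_pow]
    refine pow_le_pow_left' ?_ k
    refine (DD_short (mz γ) h00 t).trans ?_
    have e1 : 3 * a / h0 = 6 * Real.pi * s / c := by
      rw [ha, hh0]
      field_simp
      ring
    rw [e1]
    refine mul_le_mul_right ?_ _
    have e2 : a + h0 ≤ 2 * Real.pi * s' / Real.log T := by
      rw [ha, hh0, hs', ← add_div]
      apply div_le_div_of_nonneg_right _ hl.le
      have : 2 * Real.pi * (1 + c / (2 * Real.pi)) = 2 * Real.pi + c := by field_simp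
      rw [this]
      nlinarith
    have := DD_win (mz γ) h00.le (a := 2 * Real.pi * s' / Real.log T) (b := a + h0) (u := 0) (t := t) le_rfl (by linarith)
    rwa [add_zero] at this
  unfold EX
  refine (lintegral_mono h3).trans ?_
  rw [lintegral_const_mul _ ((DD_meas (mz γ) h00.le _).pow_const k)]
  refine (mul_le_mul_right (h1 h0 h00.le h01) _).trans (le_of_eq ?_)
  rw [← ENNReal.ofReal_mul (by positivity)]
  congr 1
  rw [show 6 * Real.pi * s / c = (6 * Real.pi / c) * s by ring, mul_pow]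
  ring

end Pool.Agent.P8H69.PL
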