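import Pool.Agent.P8H69.PL.Ui

set_option autoImplicit false

/-!
# Stability of the mean square
-/

namespace Pool.Agent.P8H69.PL

open MeasureTheory Set Filter Topology
open Pool.Agent.P8H69.OL
open scoped ENNReal

/-- the deficit at level `c` -/
noncomputable def VC (μ : Measure ℝ) (c : ℝ≥0∞) (h a T : ℝ) : ℝ≥0∞ := ∫⁻ t in Ioc 0 T, (c - DD μ h a t)

/-- the excess at level `c` -/
noncomputable def XC (μ : Measure ℝ) (c : ℝ≥0∞) (h a T : ℝ) : ℝ≥0∞ := ∫⁻ t in Ioc 0 T, (DD μ h a t - c)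

/-- the first moment -/
noncomputable def EM (μ : Measure ℝ) (h a T : ℝ) : ℝ≥0∞ := ∫⁻ t in Ioc 0 T, DD μ h a t

variable (μ : Measure ℝ) [SFinite μ]

lemma exch (x c : ℝ≥0∞) : (x - c) + c = x + (c - x) := by
  rcases le_total x c with h | h
  · rw [tsub_eq_zero_of_le h, zero_add, add_tsub_cancel_of_le h]
  · rw [tsub_add_cancel_of_le h, tsub_eq_zero_of_le h, add_zero]

lemma XC_eq (c : ℝ≥0∞) {h : ℝ} (hh : 0 ≤ h) (a T : ℝ) :
    XC μ c h a T + c * ENNReal.ofReal T = EM μ h a T + VC μ c h a T := by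
  have e : c * ENNReal.ofReal T = ∫⁻ _t in Ioc 0 T, c := by
    rw [setLIntegral_const, Real.volume_Ioc, sub_zero]
  rw [e]
  unfold XC EM VC
  rw [← lintegral_add_right _ measurable_const, ← lintegral_add_left (DD_meas μ hh a)]
  exact lintegral_congr fun t => exch _ _

/-- comparison of the excess -/
lemma XC_comp {c e1 e2 : ℝ≥0∞} (hc : c ≠ ⊤) {h h' a T : ℝ} (hh : 0 ≤ h) (hh' : 0 ≤ h')
    (m : EM μ h a T ≤ EM μ h' a T + e1) (v : VC μ c h a T ≤ VC μ c h' a T + e2) :
    XC μ c h a T ≤ XC μ c h' a T + (e1 + e2) := by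
  have hct : c * ENNReal.ofReal T ≠ ⊤ := ENNReal.mul_ne_top hc ENNReal.ofReal_ne_top
  rw [← ENNReal.add_le_add_iff_right hct, XC_eq μ c hh]
  refine (add_le_add m v).trans (le_of_eq ?_)
  rw [add_add_add_comm, ← XC_eq μ c hh']
  rw [add_right_comm]

/-- the pointwise stability estimate -/
lemma stabc1 (c : ℝ≥0∞) {h δ η a : ℝ} (hh : 0 ≤ h) (hδ : 0 < δ) (hη : 0 < η) (t : ℝ) :
    c - DD μ h a t ≤ (c - DD μ (h + δ) (a - 2 * η) (t + η)) + ENNReal.ofReal (2 * δ / η) * DD μ (h + η) a t := by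
  have key : DD μ (h + δ) (a - 2 * η) (t + η) ≤ DD μ h a t + ENNReal.ofReal (2 * δ / η) * DD μ (h + η) a t := by
    have h1 : DD μ (h + η) (a - 2 * η) (t + η) ≤ DD μ (h + η) a t := DD_win μ (by linarith) hη.le (by linarith)
    refine le_trans ?_ (add_le_add_right (mul_le_mul_right h1 _) _)
    rw [DD_add μ hh hδ, DD_add μ hh hη]
    have hm := DD_meas μ hh (a - 2 * η)
    have h2 : ∀ r, pe δ r * DD μ h (a - 2 * η) (t + η - r) ≤ pe δ r * DD μ h a t +
        ENNReal.ofReal (2 * δ / η) * (pe η r * DD μ h (a - 2 * η) (t + η - r)) := by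
      intro r
      rcases le_total |r| η with h3 | h3
      · refine le_trans ?_ le_self_add
        refine mul_le_mul_right ?_ _
        rw [abs_le] at h3
        rw [show t + η - r = t + (η - r) by ring]
        exact DD_win μ hh (by linarith) (by linarith)
      · refine le_trans ?_ le_add_self
        rw [← mul_assoc]
        exact mul_le_mul_left (pe_tail hδ.le hη h3) _
    unfold Sm
    refine (lintegral_mono h2).trans (le_of_eq ?_)
    rw [lintegral_add_left ((pe_meas δ).mul_const _), lintegral_mul_const _ (pe_meas δ), lint_pe hδ, one_mul,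
      lintegral_const_mul]
    exact (pe_meas η).mul (hm.comp (measurable_const.sub measurable_id))
  rw [tsub_le_iff_right]
  calc c ≤ (c - DD μ (h + δ) (a - 2 * η) (t + η)) + DD μ (h + δ) (a - 2 * η) (t + η) := le_tsub_add
    _ ≤ (c - DD μ (h + δ) (a - 2 * η) (t + η)) + (DD μ h a t + ENNReal.ofReal (2 * δ / η) * DD μ (h + η) a t) :=
        add_le_add_right key _
    _ = _ := by rw [← add_assoc, add_right_comm]

/-- stability -/
theorem VC_stab (c : ℝ≥0∞) {h δ η a T : ℝ} (hh : 0 ≤ h) (hδ : 0 < δ) (hη : 0 < η) (ha : 2 * η ≤ a)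
    {M : ℝ≥0∞} (hM : ∀ k, 0 ≤ k → k ≤ h + δ + η → nu μ k (Ioc 0 (T + a)) ≤ M) :
    VC μ c h a T ≤ VC μ c (h + δ) a T + ENNReal.ofReal (2 * η + 2 * δ * a / η) * M := by
  have hd0 : 0 ≤ h + δ := by linarith
  have hsplit : ∀ t, DD μ (h + δ) a t = DD μ (h + δ) η t + DD μ (h + δ) (a - 2 * η) (t + η) +
      DD μ (h + δ) η (t + (a - η)) := by
    intro t
    have e1 := DD_split μ hd0 (a := η + (a - 2 * η)) (b := η) (by linarith) hη.le t
    have e2 := DD_split μ hd0 (a := η) (b := a - 2 * η) hη.le (by linarith) t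
    rw [e2, show η + (a - 2 * η) + η = a by ring, show t + (η + (a - 2 * η)) = t + (a - η) by ring] at e1
    exact e1
  have h1 : ∀ t, c - DD μ h a t ≤ (c - DD μ (h + δ) a t) + DD μ (h + δ) η t + DD μ (h + δ) η (t + (a - η)) +
      ENNReal.ofReal (2 * δ / η) * DD μ (h + η) a t := by
    intro t
    refine (stabc1 μ c hh hδ hη t).trans (add_le_add_left ?_ _)
    rw [tsub_le_iff_right]
    calc c ≤ (c - DD μ (h + δ) a t) + DD μ (h + δ) a t := le_tsub_add
      _ = (c - DD μ (h + δ) a t) + (DD μ (h + δ) η t + DD μ (h + δ) (a - 2 * η) (t + η) +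
      DD μ (h + δ) η (t + (a - η))) := congrArg (fun x => (c - DD μ (h + δ) a t) + x) (hsplit t)
      _ = _ := by
        generalize DD μ (h + δ) η (t + (a - η)) = X3
        generalize DD μ (h + δ) (a - 2 * η) (t + η) = X2
        generalize DD μ (h + δ) η t = X1
        generalize c - DD μ (h + δ) a t = X0
        ring
  have m1 := DD_meas μ hd0 a
  have m2 := DD_meas μ hd0 η
  have m3 : Measurable (fun t => DD μ (h + δ) η (t + (a - η))) := m2.comp (measurable_id.add_const _)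
  have m4 := DD_meas μ (show 0 ≤ h + η by linarith) a
  unfold VC
  refine (lintegral_mono h1).trans ?_
  rw [lintegral_add_left, lintegral_add_left, lintegral_add_left, lintegral_const_mul _ m4]
  · have b1 : ∫⁻ t in Ioc 0 T, DD μ (h + δ) η t ≤ ENNReal.ofReal η * M := by
      refine (FM μ hd0).trans (mul_le_mul_right ?_ _)
      refine (measure_mono ?_).trans (hM (h + δ) hd0 (by linarith))
      exact Ioc_subset_Ioc_right (by linarith)
    have b2 : ∫⁻ t in Ioc 0 T, DD μ (h + δ) η (t + (a - η)) ≤ ENNReal.ofReal η * M := by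
      rw [shift_Ioc]
      have : ∫⁻ t in Ioc (a - η) (T + (a - η)), DD μ (h + δ) η t ≤ ∫⁻ t in Ioc 0 (T + (a - η)), DD μ (h + δ) η t :=
        lintegral_mono_set (Ioc_subset_Ioc_left (by linarith))
      refine this.trans ((FM μ hd0).trans (mul_le_mul_right ?_ _))
      refine (measure_mono ?_).trans (hM (h + δ) hd0 (by linarith))
      exact Ioc_subset_Ioc_right (by linarith)
    have b3 : ∫⁻ t in Ioc 0 T, DD μ (h + η) a t ≤ ENNReal.ofReal a * M := by
      refine (FM μ (by linarith)).trans (mul_le_mul_right ?_ _)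
      exact hM (h + η) (by linarith) (by linarith)
    have ha0 : 0 ≤ a := by linarith
    calc _ ≤ (∫⁻ t in Ioc 0 T, (c - DD μ (h + δ) a t)) + ENNReal.ofReal η * M + ENNReal.ofReal η * M +
          ENNReal.ofReal (2 * δ / η) * (ENNReal.ofReal a * M) := by gcongr
      _ = _ := by
        rw [add_assoc, add_assoc]
        congr 1
        rw [← mul_assoc, ← ENNReal.ofReal_mul (by positivity), ← add_mul, ← add_mul,
          ← ENNReal.ofReal_add (by positivity) (by positivity), ← ENNReal.ofReal_add (by positivity) (by positivity)]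
        congr 2
        ring
  · exact measurable_const.sub m1
  · exact (measurable_const.sub m1).add m2
  · exact ((measurable_const.sub m1).add m2).add m3

variable {γ : ℕ → ℝ} {N : ℝ → ℕ}

omit [SFinite μ] in
/-- stability of the deficits, uniformly in the level -/
theorem VC_thr (H : Zd γ N) {s ε : ℝ} (hs : 0 < s) (hε : 0 < ε) : ∃ κ : ℝ, 0 < κ ∧ ∀ᶠ T in atTop, ∀ (c : ℝ≥0∞) (h h' : ℝ),
    0 ≤ h → h ≤ h' → h' ≤ 1 → (h' - h) * Real.log T ≤ κ → VC (mz γ) c h (2 * Real.pi * s / Real.log T) T ≤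
      VC (mz γ) c h' (2 * Real.pi * s / Real.log T) T + ENNReal.ofReal (ε * T) := by
  obtain ⟨C, hC, hmass⟩ := mass H
  have hpi := Real.pi_pos
  obtain ⟨e, he⟩ : ∃ e, e = min (ε / (16 * Real.pi * C)) s / 2 := ⟨_, rfl⟩
  have he0 : 0 < e := by rw [he]; positivity
  have he1 : e ≤ ε / (16 * Real.pi * C) / 2 := by
    rw [he]
    have := min_le_left (ε / (16 * Real.pi * C)) s
    linarith
  have he2 : 2 * e ≤ s := by
    rw [he]
    have := min_le_right (ε / (16 * Real.pi * C)) s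
    linarith
  obtain ⟨κ, hκ⟩ : ∃ κ, κ = ε * e / (16 * C * s) := ⟨_, rfl⟩
  have hκ0 : 0 < κ := by rw [hκ]; positivity
  refine ⟨κ, hκ0, ?_⟩
  have hA : Tendsto (fun T : ℝ => 2 * T) atTop atTop := tendsto_id.const_mul_atTop two_pos
  have hL0 : ∀ᶠ T : ℝ in atTop, 2 * Real.pi * s ≤ Real.log T := Real.tendsto_log_atTop.eventually_ge_atTop _
  have hL1 : ∀ᶠ T : ℝ in atTop, 2 * Real.pi * e ≤ Real.log T := Real.tendsto_log_atTop.eventually_ge_atTop _
  filter_upwards [hA.eventually hmass, hL0, hL1, eventually_ge_atTop 2, Real.tendsto_log_atTop.eventually_ge_atTop 1]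
    with T h1 h2 h3 h4 h5
  intro c h h' hh hh' hh1 hd
  have hT : 0 < T := by linarith
  have hlog : 0 < Real.log T := by linarith
  rcases hh'.eq_or_lt with rfl | hlt
  · exact le_self_add
  obtain ⟨δ, hδ⟩ : ∃ δ, δ = h' - h := ⟨_, rfl⟩
  have hδ0 : 0 < δ := by rw [hδ]; linarith
  have hh'e : h' = h + δ := by rw [hδ]; ring
  rw [← hδ] at hd
  obtain ⟨a, ha⟩ : ∃ a, a = 2 * Real.pi * s / Real.log T := ⟨_, rfl⟩
  obtain ⟨η, hη⟩ : ∃ η, η = 2 * Real.pi * e / Real.log T := ⟨_, rfl⟩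
  have ha0 : 0 < a := by rw [ha]; positivity
  have hη0 : 0 < η := by rw [hη]; positivity
  have ha1 : a ≤ 1 := by rw [ha, div_le_one hlog]; exact h2
  have hη1 : η ≤ 1 := by rw [hη, div_le_one hlog]; exact h3
  have hηa : 2 * η ≤ a := by
    rw [ha, hη, ← mul_div_assoc]
    apply div_le_div_of_nonneg_right _ hlog.le
    nlinarith
  have hM : ∀ k, 0 ≤ k → k ≤ h + δ + η → nu (mz γ) k (Ioc 0 (T + a)) ≤
      ENNReal.ofReal (C * (2 * T * Real.log (2 * T))) := by
    intro k hk0 hk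
    refine (measure_mono (Ioc_subset_Ioc_right (by linarith))).trans (h1 k hk0 (by linarith))
  have hst := VC_stab (mz γ) c hh hδ0 hη0 hηa hM
  have hlog2 : Real.log (2 * T) ≤ 2 * Real.log T := by
    rw [Real.log_mul (by norm_num) (by linarith)]
    have : Real.log 2 ≤ Real.log T := Real.log_le_log (by norm_num) (by linarith)
    linarith
  have hlog20 : 0 ≤ Real.log (2 * T) := Real.log_nonneg (by linarith)
  rw [← ENNReal.ofReal_mul (by positivity)] at hst
  rw [← ha, hh'e]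
  refine hst.trans (add_le_add le_rfl (ENNReal.ofReal_le_ofReal ?_))
  have h8 : C * (2 * T * Real.log (2 * T)) ≤ 4 * C * T * Real.log T := by
    have h9 : 2 * T * Real.log (2 * T) ≤ 2 * T * (2 * Real.log T) := mul_le_mul_of_nonneg_left hlog2 (by linarith)
    calc C * (2 * T * Real.log (2 * T)) ≤ C * (2 * T * (2 * Real.log T)) := mul_le_mul_of_nonneg_left h9 hC.le
      _ = _ := by ring
  have h10 : 2 * δ * a / η = 2 * δ * s / e := by
    rw [ha, hη]
    field_simp
  have h11 : (2 * η + 2 * δ * a / η) * Real.log T ≤ 4 * Real.pi * e + 2 * κ * s / e := by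
    rw [h10, add_mul]
    have e1 : 2 * η * Real.log T = 4 * Real.pi * e := by
      rw [hη]
      field_simp
      ring
    have e2 : 2 * δ * s / e * Real.log T = (δ * Real.log T) * (2 * s / e) := by ring
    have e3 : 2 * κ * s / e = κ * (2 * s / e) := by ring
    rw [e1, e2, e3]
    have : 0 ≤ 2 * s / e := by positivity
    nlinarith
  have h12 : 4 * C * (4 * Real.pi * e + 2 * κ * s / e) ≤ ε := by
    have e1 : 4 * C * (4 * Real.pi * e) ≤ ε / 2 := by
      have := mul_le_mul_of_nonneg_left he1 (show 0 ≤ 16 * Real.pi * C by positivity)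
      have e4 : 16 * Real.pi * C * (ε / (16 * Real.pi * C) / 2) = ε / 2 := by field_simp
      rw [e4] at this
      linarith
    have e2 : 4 * C * (2 * κ * s / e) = ε / 2 := by
      rw [hκ]
      field_simp
      ring
    linarith
  calc (2 * η + 2 * δ * a / η) * (C * (2 * T * Real.log (2 * T)))
      ≤ (2 * η + 2 * δ * a / η) * (4 * C * T * Real.log T) := mul_le_mul_of_nonneg_left h8 (by positivity)
    _ = ((2 * η + 2 * δ * a / η) * Real.log T) * (4 * C * T) := by ring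
    _ ≤ (4 * Real.pi * e + 2 * κ * s / e) * (4 * C * T) := mul_le_mul_of_nonneg_right h11 (by positivity)
    _ = (4 * C * (4 * Real.pi * e + 2 * κ * s / e)) * T := by ring
    _ ≤ ε * T := mul_le_mul_of_nonneg_right h12 hT.le

/-- the means at two distances -/
lemma mean_cmp (H : Zq γ N) {s ε : ℝ} (hs : 0 < s) (hε : 0 < ε) : ∀ᶠ T in atTop, ∀ h h' : ℝ, 0 ≤ h → h ≤ 1 → 0 ≤ h' →
    h' ≤ 1 → EM (mz γ) h (2 * Real.pi * s / Real.log T) T ≤
      EM (mz γ) h' (2 * Real.pi * s / Real.log T) T + ENNReal.ofReal (ε * T) := by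
  filter_upwards [mean_up H.toZd hs (show 0 < ε / 2 by positivity),
    mean_low H.toZd H.low hs (show 0 < ε / 2 by positivity), eventually_gt_atTop 0] with T h1 h2 hT
  intro h h' a1 a2 a3 a4
  refine (h1 h a1 a2).trans (le_trans ?_ (add_le_add (h2 h' a3 a4) le_rfl))
  refine le_trans ?_ ENNReal.ofReal_add_le
  apply ENNReal.ofReal_le_ofReal
  linarith

/-- stability of the mean square -/
theorem EF_stab (H : Zq γ N) {s ε : ℝ} (hs : 0 < s) (hε : 0 < ε) : ∃ κ : ℝ, 0 < κ ∧ ∀ᶠ T in atTop, ∀ h h' : ℝ,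
    0 ≤ h → h ≤ h' → h' ≤ 1 → (h' - h) * Real.log T ≤ κ → EF (mz γ) h (2 * Real.pi * s / Real.log T) T ≤
      EF (mz γ) h' (2 * Real.pi * s / Real.log T) T + ENNReal.ofReal (ε * T) := by
  obtain ⟨J, hJ, hui⟩ := ui H hs (show 0 < ε / 4 by positivity)
  have hJr : (0 : ℝ) < J := by exact_mod_cast hJ
  obtain ⟨e, he⟩ : ∃ e, e = ε / (16 * J) := ⟨_, rfl⟩
  have he0 : 0 < e := by rw [he]; positivity
  obtain ⟨κ, hκ, hst⟩ := VC_thr H.toZd hs he0
  refine ⟨κ, hκ, ?_⟩
  filter_upwards [hui, hst, mean_cmp H hs he0, eventually_gt_atTop 0] with T h1 h2 h3 hT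
  intro h h' hh hh' hh1 hd
  have hh0 : 0 ≤ h' := hh.trans hh'
  obtain ⟨a, ha⟩ : ∃ a, a = 2 * Real.pi * s / Real.log T := ⟨_, rfl⟩
  rw [← ha] at h1 h2 h3 ⊢
  have hm := h3 h h' hh (hh'.trans hh1) hh0 hh1
  rw [EF_eq (mz γ) hh, EF_eq (mz γ) hh0, EX_split (mz γ) hh a T J]
  have b1 : ∀ j ∈ Finset.range J, ∫⁻ t in Ioc 0 T, (DD (mz γ) h a t - ((j : ℝ≥0∞) + 1)) ≤
      (∫⁻ t in Ioc 0 T, (DD (mz γ) h' a t - ((j : ℝ≥0∞) + 1))) + ENNReal.ofReal (2 * e * T) := by
    intro j _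
    have hc : ((j : ℝ≥0∞) + 1) ≠ ⊤ := ENNReal.add_ne_top.2 ⟨ENNReal.natCast_ne_top j, ENNReal.one_ne_top⟩
    have := XC_comp (mz γ) hc hh hh0 hm (h2 ((j : ℝ≥0∞) + 1) h h' hh hh' hh1 hd)
    rw [← ENNReal.ofReal_add (by positivity) (by positivity), ← add_mul, ← two_mul] at this
    exact this
  have b2 : (∑ j ∈ Finset.range J, ∫⁻ t in Ioc 0 T, (DD (mz γ) h a t - ((j : ℝ≥0∞) + 1))) ≤
      (∑ j ∈ Finset.range J, ∫⁻ t in Ioc 0 T, (DD (mz γ) h' a t - ((j : ℝ≥0∞) + 1))) + ENNReal.ofReal (ε / 8 * T) := by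
    refine (Finset.sum_le_sum b1).trans ?_
    rw [Finset.sum_add_distrib, Finset.sum_const, Finset.card_range, nsmul_eq_mul, ← ENNReal.ofReal_natCast,
      ← ENNReal.ofReal_mul hJr.le]
    refine add_le_add le_rfl (ENNReal.ofReal_le_ofReal (le_of_eq ?_))
    rw [he]
    field_simp
    ring
  have b3 : (∑ j ∈ Finset.range J, ∫⁻ t in Ioc 0 T, (DD (mz γ) h' a t - ((j : ℝ≥0∞) + 1))) ≤ EX (mz γ) 0 h' a T := by
    rw [EX_split (mz γ) hh0 a T J]
    exact le_self_add
  have b4 : EM (mz γ) h a T ≤ EM (mz γ) h' a T + ENNReal.ofReal (ε / 4 * T) := by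
    refine hm.trans (add_le_add le_rfl (ENNReal.ofReal_le_ofReal ?_))
    apply mul_le_mul_of_nonneg_right _ hT.le
    rw [he]
    have hJ1 : (1 : ℝ) ≤ J := by exact_mod_cast hJ
    rw [div_le_div_iff₀ (by positivity) (by norm_num)]
    nlinarith
  have b5 := h1 h hh (hh'.trans hh1)
  calc EM (mz γ) h a T + 2 * ((∑ j ∈ Finset.range J, ∫⁻ t in Ioc 0 T, (DD (mz γ) h a t - ((j : ℝ≥0∞) + 1))) +
        EX (mz γ) J h a T)
      ≤ (EM (mz γ) h' a T + ENNReal.ofReal (ε / 4 * T)) + 2 * ((EX (mz γ) 0 h' a T + ENNReal.ofReal (ε / 8 * T)) +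
        ENNReal.ofReal (ε / 4 * T)) := by
        gcongr
        exact b2.trans (add_le_add b3 le_rfl)
    _ = (EM (mz γ) h' a T + 2 * EX (mz γ) 0 h' a T) + ENNReal.ofReal (ε * T) := by
        have e1 : ENNReal.ofReal (ε * T) = ENNReal.ofReal (ε / 4 * T) + 2 * (ENNReal.ofReal (ε / 8 * T) + ENNReal.ofReal (ε / 4 * T)) := by
          rw [show (2 : ℝ≥0∞) = ENNReal.ofReal 2 by norm_num, ← ENNReal.ofReal_add (by positivity) (by positivity),
            ← ENNReal.ofReal_mul (by norm_num), ← ENNReal.ofReal_add (by positivity) (by positivity)]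
          congr 1
          ring
        rw [e1]
        ring

/-- monotonicity of the mean square -/
theorem EF_mono (H : Zq γ N) {s ε : ℝ} (hs : 0 < s) (hε : 0 < ε) : ∀ᶠ T in atTop, ∀ h h' : ℝ,
    0 ≤ h → h ≤ h' → h' ≤ 1 → EF (mz γ) h' (2 * Real.pi * s / Real.log T) T ≤
      EF (mz γ) h (2 * Real.pi * s / Real.log T) T + ENNReal.ofReal (ε * T) := by
  have hpi := Real.pi_pos
  filter_upwards [mean_cmp H hs (show 0 < ε / 2 by positivity), mono_ex H (show 0 < ε / 4 by positivity),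
    Real.tendsto_log_atTop.eventually_ge_atTop (max 1 (2 * Real.pi * s)), eventually_gt_atTop 0] with T h3 h4 h5 hT
  intro h h' hh hh' hh1
  have hl1 : 1 ≤ Real.log T := (le_max_left _ _).trans h5
  have hls : 2 * Real.pi * s ≤ Real.log T := (le_max_right _ _).trans h5
  have hl : 0 < Real.log T := by linarith
  have hh0 : 0 ≤ h' := hh.trans hh'
  obtain ⟨a, ha⟩ : ∃ a, a = 2 * Real.pi * s / Real.log T := ⟨_, rfl⟩
  have ha1 : a ≤ 1 := by rw [ha, div_le_one hl]; exact hls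
  rw [← ha] at h3 ⊢
  have hm := h3 h' h hh0 hh1 hh (hh'.trans hh1)
  have hx := h4 0 a h h' ha1 hh hh' hh1
  rw [EF_eq (mz γ) hh, EF_eq (mz γ) hh0]
  calc EM (mz γ) h' a T + 2 * EX (mz γ) 0 h' a T ≤ (EM (mz γ) h a T + ENNReal.ofReal (ε / 2 * T)) +
        2 * (EX (mz γ) 0 h a T + ENNReal.ofReal (ε / 4 * T)) := by gcongr
    _ = (EM (mz γ) h a T + 2 * EX (mz γ) 0 h a T) + ENNReal.ofReal (ε * T) := by
        have e1 : ENNReal.ofReal (ε * T) = ENNReal.ofReal (ε / 2 * T) + 2 * ENNReal.ofReal (ε / 4 * T) := by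
          rw [show (2 : ℝ≥0∞) = ENNReal.ofReal 2 by norm_num,
            ← ENNReal.ofReal_mul (by norm_num), ← ENNReal.ofReal_add (by positivity) (by positivity)]
          congr 1
          ring
        rw [e1]
        ring

end Pool.Agent.P8H69.PL
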