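import Pool.Agent.P8H69.PL.Ra

set_option autoImplicit false

/-!
# The threshold for the mean square, and exactness
-/

namespace Pool.Agent.P8H69.PL

open MeasureTheory Set Filter Topology
open Pool.Agent.P8H69.OL
open scoped ENNReal

variable {γ : ℕ → ℝ} {N : ℝ → ℕ}

/-- the mean square, normalised -/
noncomputable def QQ (γ : ℕ → ℝ) (h T s : ℝ) : ℝ := (EF (mz γ) h (2 * Real.pi * s / Real.log T) T).toReal / T

lemma toQ {x y : ℝ≥0∞} {e T : ℝ} (hy : y ≠ ⊤) (he : 0 ≤ e) (hT : 0 < T) (h : x ≤ y + ENNReal.ofReal (e * T)) :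
    x.toReal / T ≤ y.toReal / T + e := by
  have h1 := ENNReal.toReal_mono (ENNReal.add_ne_top.2 ⟨hy, ENNReal.ofReal_ne_top⟩) h
  rw [ENNReal.toReal_add hy ENNReal.ofReal_ne_top, ENNReal.toReal_ofReal (by positivity)] at h1
  rw [div_add' _ _ _ hT.ne']
  exact div_le_div_of_nonneg_right h1 hT.le

lemma toU {x : ℝ≥0∞} {e T : ℝ} (he : 0 ≤ e) (hT : 0 < T) (h : x ≤ ENNReal.ofReal (e * T)) : x.toReal / T ≤ e := by
  have h1 := ENNReal.toReal_mono ENNReal.ofReal_ne_top h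
  rw [ENNReal.toReal_ofReal (by positivity)] at h1
  rw [div_le_iff₀ hT]
  exact h1

lemma toL {x : ℝ≥0∞} {e T : ℝ} (hx : x ≠ ⊤) (hT : 0 < T) (h : ENNReal.ofReal (e * T) ≤ x) : e ≤ x.toReal / T := by
  have h1 := ENNReal.toReal_mono hx h
  rw [le_div_iff₀ hT]
  refine le_trans ?_ h1
  rw [ENNReal.toReal_ofReal']
  exact le_max_left _ _

/-- finiteness -/
lemma EX_fin (H : Zq γ N) {s : ℝ} (hs : 0 < s) : ∀ᶠ T in atTop, ∀ h : ℝ, 0 ≤ h → h ≤ 1 →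
    EX (mz γ) 0 h (2 * Real.pi * s / Real.log T) T ≠ ⊤ ∧ EM (mz γ) h (2 * Real.pi * s / Real.log T) T ≠ ⊤ := by
  have hpi := Real.pi_pos
  obtain ⟨C, hC, hmom⟩ := mom_all H 2 hs
  filter_upwards [hmom, mono_ex H one_pos, mean_up H.toZd hs one_pos, eventually_gt_atTop 0,
    Real.tendsto_log_atTop.eventually_ge_atTop (max 1 (2 * Real.pi * s))] with T h1 h2 h3 hT h5
  intro h hh hh1
  have hl1 : 1 ≤ Real.log T := (le_max_left _ _).trans h5
  have hls : 2 * Real.pi * s ≤ Real.log T := (le_max_right _ _).trans h5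
  have hl : 0 < Real.log T := by linarith
  obtain ⟨a, ha⟩ : ∃ a, a = 2 * Real.pi * s / Real.log T := ⟨_, rfl⟩
  have ha1 : a ≤ 1 := by rw [ha, div_le_one hl]; exact hls
  have h4 := h3 h hh hh1
  rw [← ha] at h1 h4 ⊢
  refine ⟨?_, ne_top_of_le_ne_top ENNReal.ofReal_ne_top h4⟩
  have h6 : EX (mz γ) 0 0 a T ≤ ENNReal.ofReal (C * T) := by
    refine le_trans ?_ h1
    unfold EX
    rw [DD_zero]
    refine lintegral_mono fun t => ?_
    rw [← ex_eq]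
    exact ex_sq _
  exact ne_top_of_le_ne_top (ENNReal.add_ne_top.2 ⟨ENNReal.ofReal_ne_top, ENNReal.ofReal_ne_top⟩)
    ((h2 0 a 0 h ha1 le_rfl hh hh1).trans (add_le_add h6 le_rfl))

lemma EF_fin (H : Zq γ N) {s : ℝ} (hs : 0 < s) : ∀ᶠ T in atTop, ∀ h : ℝ, 0 ≤ h → h ≤ 1 →
    EF (mz γ) h (2 * Real.pi * s / Real.log T) T ≠ ⊤ := by
  filter_upwards [EX_fin H hs] with T h1
  intro h hh hh1
  obtain ⟨h2, h3⟩ := h1 h hh hh1
  rw [EF_eq (mz γ) hh]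
  exact ENNReal.add_ne_top.2 ⟨h3, ENNReal.mul_ne_top ENNReal.ofNat_ne_top h2⟩

theorem Q_mono (H : Zq γ N) {s ε : ℝ} (hs : 0 < s) (hε : 0 < ε) : ∀ᶠ T in atTop, ∀ h h' : ℝ,
    0 ≤ h → h ≤ h' → h' ≤ 1 → QQ γ h' T s ≤ QQ γ h T s + ε := by
  filter_upwards [EF_mono H hs hε, EF_fin H hs, eventually_gt_atTop 0] with T h1 h2 hT
  intro h h' a1 a2 a3
  exact toQ (h2 h a1 (a2.trans a3)) hε.le hT (h1 h h' a1 a2 a3)

theorem Q_stab (H : Zq γ N) {s ε : ℝ} (hs : 0 < s) (hε : 0 < ε) : ∃ κ : ℝ, 0 < κ ∧ ∀ᶠ T in atTop, ∀ h h' : ℝ,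
    0 ≤ h → h ≤ h' → h' ≤ 1 → (h' - h) * Real.log T ≤ κ → QQ γ h T s ≤ QQ γ h' T s + ε := by
  obtain ⟨κ, hκ, h⟩ := EF_stab H hs hε
  refine ⟨κ, hκ, ?_⟩
  filter_upwards [h, EF_fin H hs, eventually_gt_atTop 0] with T h1 h2 hT
  intro h h' a1 a2 a3 a4
  exact toQ (h2 h' (a1.trans a2) a3) hε.le hT (h1 h h' a1 a2 a3 a4)

/-- the mean square in terms of the void probability -/
lemma Q_eq {h T s : ℝ} (hh : 0 ≤ h) (hT : 0 < T) (hX : EX (mz γ) 0 h (2 * Real.pi * s / Real.log T) T ≠ ⊤)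
    (hM : EM (mz γ) h (2 * Real.pi * s / Real.log T) T ≠ ⊤) :
    QQ γ h T s = 3 * ((EM (mz γ) h (2 * Real.pi * s / Real.log T) T).toReal / T) - 2 + 2 * PP γ h T s +
      2 * ((EX (mz γ) 1 h (2 * Real.pi * s / Real.log T) T).toReal / T) := by
  obtain ⟨a, ha⟩ : ∃ a, a = 2 * Real.pi * s / Real.log T := ⟨_, rfl⟩
  unfold QQ PP
  rw [← ha] at hX hM ⊢
  have e1 := EX_zero (mz γ) hh a T
  have hX1 : XC (mz γ) 1 h a T ≠ ⊤ := by
    intro h1
    apply hX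
    rw [e1]
    have : ∫⁻ t in Ioc 0 T, (DD (mz γ) h a t - 1) = ⊤ := h1
    rw [this, top_add]
  have hX2 : EX (mz γ) 1 h a T ≠ ⊤ := by
    intro h1
    apply hX
    rw [e1, h1, add_top]
  have hV : VC (mz γ) 1 h a T ≠ ⊤ := VV_ne (mz γ) h a T
  have e2 := XC_eq (mz γ) 1 hh a T
  rw [one_mul] at e2
  have e3 := congrArg ENNReal.toReal e2
  rw [ENNReal.toReal_add hX1 ENNReal.ofReal_ne_top, ENNReal.toReal_add hM hV, ENNReal.toReal_ofReal hT.le] at e3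
  have e4 := congrArg ENNReal.toReal e1
  rw [ENNReal.toReal_add (show ∫⁻ t in Ioc 0 T, (DD (mz γ) h a t - 1) ≠ ⊤ from hX1) hX2] at e4
  rw [EF_eq (mz γ) hh, ENNReal.toReal_add (show ∫⁻ t in Ioc 0 T, DD (mz γ) h a t ≠ ⊤ from hM)
    (ENNReal.mul_ne_top ENNReal.ofNat_ne_top hX), ENNReal.toReal_mul, e4]
  have e5 : (∫⁻ t in Ioc 0 T, (DD (mz γ) h a t - 1)).toReal = (EM (mz γ) h a T).toReal + (VV (mz γ) h a T).toReal - T := by
    have : (XC (mz γ) 1 h a T).toReal = (EM (mz γ) h a T).toReal + (VC (mz γ) 1 h a T).toReal - T := by linarith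
    exact this
  rw [e5]
  have e6 : (∫⁻ t in Ioc 0 T, DD (mz γ) h a t).toReal = (EM (mz γ) h a T).toReal := rfl
  rw [e6]
  simp only [ENNReal.toReal_ofNat]
  field_simp
  ring

/-- strict decrease -/
theorem Q_sd (H : Zq γ N) {c e : ℝ} (hc : 0 < c) (he : 0 < e) : ∃ κ : ℝ, 0 < κ ∧ ∀ᶠ T in atTop, ∀ h h' : ℝ,
    0 ≤ h → h' ≤ 1 → c ≤ (h' - h) * Real.log T → 1 + e ≤ QQ γ h T 1 → QQ γ h' T 1 ≤ QQ γ h T 1 - κ := by
  have hpi := Real.pi_pos
  obtain ⟨J, hJ, hui⟩ := ui H one_pos (show 0 < e / 8 by positivity)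
  have hJr : (1 : ℝ) ≤ J := by exact_mod_cast hJ
  have hJ0 : (0 : ℝ) < J := by linarith
  obtain ⟨κ, hκ, hsd⟩ := PP_sd H.toZd hc (show 0 < e / (8 * J) by positivity)
  obtain ⟨η, hη⟩ : ∃ η, η = min (e / (16 * J)) (κ / 8) := ⟨_, rfl⟩
  have hη0 : 0 < η := by rw [hη]; positivity
  have hη1 : η ≤ e / (16 * J) := by rw [hη]; exact min_le_left _ _
  have hη2 : η ≤ κ / 8 := by rw [hη]; exact min_le_right _ _
  have hηe : η ≤ e / 16 := by
    refine hη1.trans ?_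
    apply div_le_div_of_nonneg_left he.le (by norm_num)
    linarith
  refine ⟨κ, hκ, ?_⟩
  filter_upwards [hui, hsd, mean_up H.toZd one_pos hη0, mean_low H.toZd H.low one_pos hη0, EX_fin H one_pos,
    mono_ex H hη0, eventually_gt_atTop 1, Real.tendsto_log_atTop.eventually_ge_atTop (max 1 (2 * Real.pi * 1))]
    with T h1 h2 h3 h4 h5 h6 h7 h8
  intro h h' hh hh1 hd hq
  have hT : 0 < T := by linarith
  have hl1 : 1 ≤ Real.log T := (le_max_left _ _).trans h8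
  have hls : 2 * Real.pi * 1 ≤ Real.log T := (le_max_right _ _).trans h8
  have hl : 0 < Real.log T := by linarith
  have hlt : h ≤ h' := by
    by_contra hcon
    rw [not_le] at hcon
    have : (h' - h) * Real.log T ≤ 0 := mul_nonpos_of_nonpos_of_nonneg (by linarith) hl.le
    linarith
  have hh0 : 0 ≤ h' := hh.trans hlt
  have hh1' : h ≤ 1 := hlt.trans hh1
  obtain ⟨f1, f2⟩ := h5 h hh hh1'
  obtain ⟨f3, f4⟩ := h5 h' hh0 hh1
  have q1 := Q_eq (γ := γ) hh hT f1 f2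
  have q2 := Q_eq (γ := γ) hh0 hT f3 f4
  have u1 := h3 h hh hh1'
  have u2 := h3 h' hh0 hh1
  have l1 := h4 h hh hh1'
  have l2 := h4 h' hh0 hh1
  have w1 := h1 h hh hh1'
  obtain ⟨a, ha⟩ : ∃ a, a = 2 * Real.pi * 1 / Real.log T := ⟨_, rfl⟩
  have ha1 : a ≤ 1 := by rw [ha, div_le_one hl]; exact hls
  rw [← ha] at f1 f2 f3 f4 q1 q2 u1 u2 l1 l2 w1
  have m1 : (EM (mz γ) h a T).toReal / T ≤ 1 + η := toU (by linarith) hT u1
  have m2 : (EM (mz γ) h' a T).toReal / T ≤ 1 + η := toU (by linarith) hT u2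
  have m3 : 1 - η ≤ (EM (mz γ) h a T).toReal / T := toL f2 hT l1
  have m4 : 1 - η ≤ (EM (mz γ) h' a T).toReal / T := toL f4 hT l2
  have hx1 : EX (mz γ) 1 h a T ≠ ⊤ := by
    intro h9
    apply f1
    rw [EX_zero (mz γ) hh a T, h9, add_top]
  have r1 : (EX (mz γ) 1 h' a T).toReal / T ≤ (EX (mz γ) 1 h a T).toReal / T + η :=
    toQ hx1 hη0.le hT (h6 1 a h h' ha1 hh hlt hh1)
  -- the void probability at `h`
  have v1 : (EX (mz γ) 1 h a T).toReal / T ≤ (J - 1) * ((EM (mz γ) h a T).toReal / T + PP γ h T 1 - 1) + e / 8 := by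
    have g1 : EX (mz γ) 0 h a T ≤ J * XC (mz γ) 1 h a T + EX (mz γ) J h a T := by
      unfold EX XC
      rw [← lintegral_const_mul _ (subD_meas (mz γ) 1 hh a), ← lintegral_add_left ((subD_meas (mz γ) 1 hh a).const_mul _)]
      refine lintegral_mono fun t => ?_
      rw [← ex_eq]
      exact ex_le J _
    have hX1 : XC (mz γ) 1 h a T ≠ ⊤ := by
      intro h9
      apply f1
      rw [EX_zero (mz γ) hh a T]
      have : ∫⁻ t in Ioc 0 T, (DD (mz γ) h a t - 1) = ⊤ := h9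
      rw [this, top_add]
    have hJx : (J : ℝ≥0∞) * XC (mz γ) 1 h a T ≠ ⊤ := ENNReal.mul_ne_top (ENNReal.natCast_ne_top J) hX1
    have hJe : EX (mz γ) J h a T ≠ ⊤ := ne_top_of_le_ne_top ENNReal.ofReal_ne_top w1
    have g2 := ENNReal.toReal_mono (ENNReal.add_ne_top.2 ⟨hJx, hJe⟩) g1
    rw [ENNReal.toReal_add hJx hJe, ENNReal.toReal_mul, ENNReal.toReal_natCast, EX_zero (mz γ) hh a T,
      ENNReal.toReal_add (show ∫⁻ t in Ioc 0 T, (DD (mz γ) h a t - 1) ≠ ⊤ from hX1) hx1] at g2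
    have g3 : (∫⁻ t in Ioc 0 T, (DD (mz γ) h a t - 1)).toReal = (XC (mz γ) 1 h a T).toReal := rfl
    rw [g3] at g2
    have e2 := XC_eq (mz γ) 1 hh a T
    rw [one_mul] at e2
    have e3 := congrArg ENNReal.toReal e2
    have hV : VC (mz γ) 1 h a T ≠ ⊤ := VV_ne (mz γ) h a T
    rw [ENNReal.toReal_add hX1 ENNReal.ofReal_ne_top, ENNReal.toReal_add f2 hV, ENNReal.toReal_ofReal hT.le] at e3
    have w2 : (EX (mz γ) J h a T).toReal / T ≤ e / 8 := toU (by positivity) hT w1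
    rw [div_le_iff₀ hT] at w2
    have e5 : PP γ h T 1 * T = (VC (mz γ) 1 h a T).toReal := by
      unfold PP
      rw [← ha, div_mul_cancel₀ _ hT.ne']
      rfl
    have e6 : (EM (mz γ) h a T).toReal / T * T = (EM (mz γ) h a T).toReal := div_mul_cancel₀ _ hT.ne'
    rw [div_le_iff₀ hT]
    have e7 : ((J - 1) * ((EM (mz γ) h a T).toReal / T + PP γ h T 1 - 1) + e / 8) * T =
        (J - 1) * ((EM (mz γ) h a T).toReal / T * T + PP γ h T 1 * T - T) + e / 8 * T := by ring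
    rw [e7, e5, e6]
    have e8 : (EM (mz γ) h a T).toReal + (VC (mz γ) 1 h a T).toReal - T = (XC (mz γ) 1 h a T).toReal := by linarith
    rw [e8]
    linarith
  have v2 : e / (8 * J) ≤ PP γ h T 1 := by
    rw [q1] at hq
    obtain ⟨m, hm⟩ : ∃ m, m = (EM (mz γ) h a T).toReal / T := ⟨_, rfl⟩
    obtain ⟨P, hP⟩ : ∃ P, P = PP γ h T 1 := ⟨_, rfl⟩
    rw [← hm] at hq v1 m1 m3
    rw [← hP] at hq v1 ⊢
    -- 1 + e ≤ 3 m - 2 + 2 P + 2 r ≤ 3 m - 2 + 2 P + 2 (J - 1)(m + P - 1) + e/4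
    have k1 : 1 + e ≤ m + 2 * J * (m + P - 1) + e / 4 := by nlinarith
    have k2 : e / 2 ≤ 2 * J * (m + P - 1) := by linarith
    have k3 : e / (4 * J) ≤ m + P - 1 := by
      rw [div_le_iff₀ (by positivity)]
      linarith
    have k4 : e / (4 * J) = e / (8 * J) + 2 * (e / (16 * J)) := by
      field_simp
      ring
    linarith
  have v3 := h2 h h' hh hh1 hd v2
  rw [q1, q2]
  linarith

theorem Q_low (H : Zq γ N) {s ε : ℝ} (hs : 0 < s) (hε : 0 < ε) : ∀ᶠ T in atTop, ∀ h : ℝ, 0 ≤ h → h ≤ 1 →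
    s - ε ≤ QQ γ h T s := by
  filter_upwards [mean_low H.toZd H.low hs hε, EF_fin H hs, eventually_gt_atTop 0] with T h1 h2 hT
  intro h hh hh1
  refine toL (h2 h hh hh1) hT ((h1 h hh hh1).trans ?_)
  rw [EF_eq (mz γ) hh]
  exact le_self_add

/-- the threshold -/
theorem Q_thr (H : Zq γ N) {L : ℝ → ℝ} (hE : 1 < L 1) {h₁ h₂ : ℝ → ℝ} (b1 : ∀ T, 0 ≤ h₁ T ∧ h₁ T ≤ 1)
    (b2 : ∀ T, 0 ≤ h₂ T ∧ h₂ T ≤ 1) (hL : ∀ s, 0 < s → Tendsto (fun T => QQ γ (h₁ T) T s) atTop (𝓝 (L s))) :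
    (∀ s, 0 < s → Tendsto (fun T => QQ γ (h₂ T) T s) atTop (𝓝 (L s))) ↔
      Tendsto (fun T => (h₁ T - h₂ T) * Real.log T) atTop (𝓝 0) := by
  constructor
  · intro hL2
    rw [Metric.tendsto_nhds]
    by_contra hcon
    push Not at hcon
    obtain ⟨c, hc, hfr⟩ := hcon
    obtain ⟨e, he⟩ : ∃ e, e = (L 1 - 1) / 2 := ⟨_, rfl⟩
    have he0 : 0 < e := by rw [he]; linarith
    obtain ⟨κ, hκ, hsd⟩ := Q_sd H hc he0
    have l1 := Metric.tendsto_nhds.1 (hL 1 one_pos) (min (κ / 4) e) (by positivity)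
    have l2 := Metric.tendsto_nhds.1 (hL2 1 one_pos) (min (κ / 4) e) (by positivity)
    obtain ⟨T, h1, h2, h3, h4, h5⟩ := (hfr.and_eventually (hsd.and (l1.and (l2.and (eventually_ge_atTop 1))))).exists
    rw [Real.dist_eq, abs_lt] at h3 h4
    have m1 := min_le_left (κ / 4) e
    have m2 := min_le_right (κ / 4) e
    rw [Real.dist_eq, sub_zero] at h1
    rcases le_total (h₁ T) (h₂ T) with h6 | h6
    · have hl : 0 ≤ Real.log T := Real.log_nonneg h5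
      rw [abs_of_nonpos (mul_nonpos_of_nonpos_of_nonneg (by linarith) hl)] at h1
      have := h2 (h₁ T) (h₂ T) (b1 T).1 (b2 T).2 (by linarith) (by linarith)
      linarith
    · have hl : 0 ≤ Real.log T := Real.log_nonneg h5
      rw [abs_of_nonneg (mul_nonneg (by linarith) hl)] at h1
      have := h2 (h₂ T) (h₁ T) (b2 T).1 (b1 T).2 (by linarith) (by linarith)
      linarith
  · intro hlim s hs
    rw [Metric.tendsto_nhds]
    intro ε hε
    obtain ⟨κ, hκ, hst⟩ := Q_stab H hs (show 0 < ε / 4 by positivity)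
    filter_upwards [Metric.tendsto_nhds.1 (hL s hs) (ε / 4) (by positivity), hst,
      Metric.tendsto_nhds.1 hlim κ hκ, Q_mono H hs (show 0 < ε / 4 by positivity),
      eventually_ge_atTop 1] with T h1 h2 h3 h4 h5
    rw [Real.dist_eq, abs_lt] at h1 ⊢
    rw [Real.dist_eq, sub_zero] at h3
    have hl : 0 ≤ Real.log T := Real.log_nonneg h5
    rcases le_total (h₁ T) (h₂ T) with h6 | h6
    · rw [abs_of_nonpos (mul_nonpos_of_nonpos_of_nonneg (by linarith) hl)] at h3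
      have g1 := h2 (h₁ T) (h₂ T) (b1 T).1 h6 (b2 T).2 (by linarith)
      have g2 := h4 (h₁ T) (h₂ T) (b1 T).1 h6 (b2 T).2
      constructor <;> linarith
    · rw [abs_of_nonneg (mul_nonneg (by linarith) hl)] at h3
      have g1 := h2 (h₂ T) (h₁ T) (b2 T).1 h6 (b1 T).2 (by linarith)
      have g2 := h4 (h₂ T) (h₁ T) (b2 T).1 h6 (b1 T).2
      constructor <;> linarith

/-- stability alone -/
theorem Q_near (H : Zq γ N) {L : ℝ → ℝ} {h₁ h₂ : ℝ → ℝ} (b1 : ∀ T, 0 ≤ h₁ T ∧ h₁ T ≤ 1)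
    (b2 : ∀ T, 0 ≤ h₂ T ∧ h₂ T ≤ 1) (hL : ∀ s, 0 < s → Tendsto (fun T => QQ γ (h₁ T) T s) atTop (𝓝 (L s)))
    (hlim : Tendsto (fun T => (h₁ T - h₂ T) * Real.log T) atTop (𝓝 0)) :
    ∀ s, 0 < s → Tendsto (fun T => QQ γ (h₂ T) T s) atTop (𝓝 (L s)) := by
  intro s hs
  rw [Metric.tendsto_nhds]
  intro ε hε
  obtain ⟨κ, hκ, hst⟩ := Q_stab H hs (show 0 < ε / 4 by positivity)
  filter_upwards [Metric.tendsto_nhds.1 (hL s hs) (ε / 4) (by positivity), hst,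
    Metric.tendsto_nhds.1 hlim κ hκ, Q_mono H hs (show 0 < ε / 4 by positivity),
    eventually_ge_atTop 1] with T h1 h2 h3 h4 h5
  rw [Real.dist_eq, abs_lt] at h1 ⊢
  rw [Real.dist_eq, sub_zero] at h3
  have hl : 0 ≤ Real.log T := Real.log_nonneg h5
  rcases le_total (h₁ T) (h₂ T) with h6 | h6
  · rw [abs_of_nonpos (mul_nonpos_of_nonpos_of_nonneg (by linarith) hl)] at h3
    have g1 := h2 (h₁ T) (h₂ T) (b1 T).1 h6 (b2 T).2 (by linarith)
    have g2 := h4 (h₁ T) (h₂ T) (b1 T).1 h6 (b2 T).2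
    constructor <;> linarith
  · rw [abs_of_nonneg (mul_nonneg (by linarith) hl)] at h3
    have g1 := h2 (h₂ T) (h₁ T) (b2 T).1 h6 (b1 T).2 (by linarith)
    have g2 := h4 (h₂ T) (h₁ T) (b2 T).1 h6 (b1 T).2
    constructor <;> linarith

/-- rarity for the mean square -/
theorem Q_rare (H : Zq γ N) {k : ℕ} (hk : 2 ≤ k) {c : ℝ} (hc : 0 < c) : ∃ K : ℝ, 0 < K ∧ ∀ s ε : ℝ, 0 < s → s ≤ 1 → 0 < ε →
    ∀ᶠ T in atTop, ∀ h : ℝ, 0 ≤ h → h ≤ 1 → c ≤ h * Real.log T → QQ γ h T s ≤ s + K * s ^ k + ε := by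
  obtain ⟨K, hK, h⟩ := rare H hk hc
  refine ⟨2 * K, by positivity, fun s ε hs hs1 hε => ?_⟩
  filter_upwards [h s (ε / 4) hs hs1 (by positivity), mean_up H.toZd hs (show 0 < ε / 2 by positivity),
    eventually_gt_atTop 0] with T h1 h2 hT
  intro h hh hh1 hch
  unfold QQ
  refine toU (by positivity) hT ?_
  rw [EF_eq (mz γ) hh]
  refine (add_le_add (h2 h hh hh1) (mul_le_mul_right (h1 h hh1 hch) _)).trans (le_of_eq ?_)
  rw [show (2 : ℝ≥0∞) = ENNReal.ofReal 2 by norm_num, ← ENNReal.ofReal_mul (by norm_num),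
    ← ENNReal.ofReal_add (by positivity) (by positivity)]
  congr 1
  ring

/-- rarity for the void probability -/
theorem P_rare (H : Zq γ N) {k : ℕ} (hk : 2 ≤ k) {c : ℝ} (hc : 0 < c) : ∃ K : ℝ, 0 < K ∧ ∀ s ε : ℝ, 0 < s → s ≤ 1 → 0 < ε →
    ∀ᶠ T in atTop, ∀ h : ℝ, 0 ≤ h → h ≤ 1 → c ≤ h * Real.log T → PP γ h T s ≤ 1 - s + K * s ^ k + ε := by
  obtain ⟨K, hK, h⟩ := rare H hk hc
  refine ⟨K, hK, fun s ε hs hs1 hε => ?_⟩
  filter_upwards [h s (ε / 2) hs hs1 (by positivity), mean_low H.toZd H.low hs (show 0 < ε / 2 by positivity), EX_fin H hs,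
    eventually_gt_atTop 0] with T h1 h2 h3 hT
  intro h hh hh1 hch
  obtain ⟨f1, f2⟩ := h3 h hh hh1
  have g1 := h1 h hh1 hch
  have g2 := h2 h hh hh1
  obtain ⟨a, ha⟩ : ∃ a, a = 2 * Real.pi * s / Real.log T := ⟨_, rfl⟩
  unfold PP
  rw [← ha] at f1 f2 g1 g2 ⊢
  have m3 : s - ε / 2 ≤ (EM (mz γ) h a T).toReal / T := toL f2 hT g2
  have hXle : XC (mz γ) 1 h a T ≤ EX (mz γ) 0 h a T := by
    rw [EX_zero (mz γ) hh a T]
    exact le_self_add
  have hX1 : XC (mz γ) 1 h a T ≠ ⊤ := ne_top_of_le_ne_top f1 hXle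
  have m4 : (XC (mz γ) 1 h a T).toReal / T ≤ K * s ^ k + ε / 2 := toU (by positivity) hT (hXle.trans g1)
  have hV : VC (mz γ) 1 h a T ≠ ⊤ := VV_ne (mz γ) h a T
  have e2 := XC_eq (mz γ) 1 hh a T
  rw [one_mul] at e2
  have e3 := congrArg ENNReal.toReal e2
  rw [ENNReal.toReal_add hX1 ENNReal.ofReal_ne_top, ENNReal.toReal_add f2 hV, ENNReal.toReal_ofReal hT.le] at e3
  have e4 : (VV (mz γ) h a T).toReal = (XC (mz γ) 1 h a T).toReal + T - (EM (mz γ) h a T).toReal := by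
    have : (VC (mz γ) 1 h a T).toReal = (XC (mz γ) 1 h a T).toReal + T - (EM (mz γ) h a T).toReal := by linarith
    exact this
  rw [e4, div_le_iff₀ hT]
  rw [le_div_iff₀ hT] at m3
  rw [div_le_iff₀ hT] at m4
  nlinarith

/-- the abstract exactness argument -/
lemma exact_aux {Λ : ℝ → ℝ} {G : ℝ → ℝ → ℝ} {x : ℝ → ℝ} (hx : ∀ᶠ T in atTop, 0 ≤ x T)
    (hL : ∀ s, 0 < s → Tendsto (fun T => G T s) atTop (𝓝 (Λ s)))
    (hlow : ∃ A : ℕ, ∀ δ : ℝ, 0 < δ → ∃ s, 0 < s ∧ s < δ ∧ s ^ A ≤ Λ s)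
    (hr : ∀ k : ℕ, 2 ≤ k → ∀ c : ℝ, 0 < c → ∃ K : ℝ, 0 < K ∧ ∀ s ε : ℝ, 0 < s → s ≤ 1 → 0 < ε → ∀ᶠ T in atTop,
      c ≤ x T → G T s ≤ K * s ^ k + ε) : Tendsto x atTop (𝓝 0) := by
  obtain ⟨A, hA⟩ := hlow
  rw [Metric.tendsto_nhds]
  by_contra hcon
  push Not at hcon
  obtain ⟨c, hc, hfr⟩ := hcon
  obtain ⟨K, hK, h⟩ := hr (A + 2) (by omega) c hc
  have h1 : ∀ s, 0 < s → s ≤ 1 → Λ s ≤ K * s ^ (A + 2) := by
    intro s hs hs1
    refine le_of_forall_pos_le_add fun ε hε => ?_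
    have l1 := (hL s hs).eventually (lt_mem_nhds (show Λ s - ε / 2 < Λ s by linarith))
    obtain ⟨T, g1, g2, g3, g4⟩ := (hfr.and_eventually ((h s (ε / 2) hs hs1 (by positivity)).and (l1.and hx))).exists
    rw [Real.dist_eq, sub_zero, abs_of_nonneg g4] at g1
    have := g2 g1
    linarith
  obtain ⟨s, hs, hs2, hs3⟩ := hA (min 1 (1 / (K + 1))) (by positivity)
  have b1 : s < 1 := lt_of_lt_of_le hs2 (min_le_left _ _)
  have b2 : s < 1 / (K + 1) := lt_of_lt_of_le hs2 (min_le_right _ _)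
  have h2 := h1 s hs b1.le
  have h3 : K * s ^ 2 < 1 := by
    rw [lt_div_iff₀ (by positivity)] at b2
    have : K * s < 1 := by nlinarith
    nlinarith
  have h4 : 0 < s ^ A := by positivity
  have h5 : K * s ^ (A + 2) = (K * s ^ 2) * s ^ A := by ring
  rw [h5] at h2
  nlinarith

/-- exactness for the mean square -/
theorem Q_exact (H : Zq γ N) {L : ℝ → ℝ} {h : ℝ → ℝ} (b : ∀ T, 0 ≤ h T ∧ h T ≤ 1)
    (hL : ∀ s, 0 < s → Tendsto (fun T => QQ γ (h T) T s) atTop (𝓝 (L s)))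
    (hlow : ∃ A : ℕ, ∀ δ : ℝ, 0 < δ → ∃ s, 0 < s ∧ s < δ ∧ s ^ A ≤ L s - s) :
    Tendsto (fun T => h T * Real.log T) atTop (𝓝 0) := by
  refine exact_aux (G := fun T s => QQ γ (h T) T s - s) ?_ (fun s hs => (hL s hs).sub_const s) hlow
    (fun k hk c hc => ?_)
  · filter_upwards [eventually_ge_atTop 1] with T hT
    exact mul_nonneg (b T).1 (Real.log_nonneg hT)
  · obtain ⟨K, hK, hr⟩ := Q_rare H hk hc
    refine ⟨K, hK, fun s ε hs hs1 hε => ?_⟩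
    filter_upwards [hr s ε hs hs1 hε] with T h1 h2
    have := h1 (h T) (b T).1 (b T).2 h2
    linarith

/-- exactness for the void probability -/
theorem P_exact (H : Zq γ N) {E : ℝ → ℝ} {h : ℝ → ℝ} (b : ∀ T, 0 ≤ h T ∧ h T ≤ 1)
    (hL : ∀ s, 0 < s → Tendsto (fun T => PP γ (h T) T s) atTop (𝓝 (E s)))
    (hlow : ∃ A : ℕ, ∀ δ : ℝ, 0 < δ → ∃ s, 0 < s ∧ s < δ ∧ s ^ A ≤ E s - (1 - s)) :
    Tendsto (fun T => h T * Real.log T) atTop (𝓝 0) := by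
  refine exact_aux (G := fun T s => PP γ (h T) T s - (1 - s)) ?_ (fun s hs => (hL s hs).sub_const (1 - s)) hlow
    (fun k hk c hc => ?_)
  · filter_upwards [eventually_ge_atTop 1] with T hT
    exact mul_nonneg (b T).1 (Real.log_nonneg hT)
  · obtain ⟨K, hK, hr⟩ := P_rare H hk hc
    refine ⟨K, hK, fun s ε hs hs1 hε => ?_⟩
    filter_upwards [hr s ε hs hs1 hε] with T h1 h2
    have := h1 (h T) (b T).1 (b T).2 h2
    linarith

end Pool.Agent.P8H69.PL
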