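import Pool.Agent.P8H69.PL.Gw

set_option autoImplicit false

/-!
# Uniform integrability and monotonicity of the mean square
-/

namespace Pool.Agent.P8H69.PL

open MeasureTheory Set Filter Topology
open Pool.Agent.P8H69.OL
open scoped ENNReal

variable {γ : ℕ → ℝ} {N : ℝ → ℕ}

/-- the mean square -/
noncomputable def EF (μ : Measure ℝ) (h a T : ℝ) : ℝ≥0∞ := ∫⁻ t in Ioc 0 T, ff (DD μ h a t)

/-- the tails -/
noncomputable def EX (μ : Measure ℝ) (J : ℕ) (h a T : ℝ) : ℝ≥0∞ := ∫⁻ t in Ioc 0 T, exJ J (DD μ h a t)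

lemma exD_meas (μ : Measure ℝ) [SFinite μ] (J : ℕ) {h : ℝ} (hh : 0 ≤ h) (a : ℝ) :
    Measurable (fun t => exJ J (DD μ h a t)) := (exJ_meas J).comp (DD_meas μ hh a)

lemma subD_meas (μ : Measure ℝ) [SFinite μ] (c : ℝ≥0∞) {h : ℝ} (hh : 0 ≤ h) (a : ℝ) :
    Measurable (fun t => DD μ h a t - c) := (DD_meas μ hh a).sub measurable_const

lemma EF_eq (μ : Measure ℝ) [SFinite μ] {h : ℝ} (hh : 0 ≤ h) (a T : ℝ) :
    EF μ h a T = (∫⁻ t in Ioc 0 T, DD μ h a t) + 2 * EX μ 0 h a T := by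
  unfold EF EX ff
  simp only [ex_eq]
  rw [lintegral_add_left (DD_meas μ hh a), lintegral_const_mul _ (exD_meas μ 0 hh a)]

lemma EX_zero (μ : Measure ℝ) [SFinite μ] {h : ℝ} (hh : 0 ≤ h) (a T : ℝ) :
    EX μ 0 h a T = (∫⁻ t in Ioc 0 T, (DD μ h a t - 1)) + EX μ 1 h a T := by
  unfold EX
  rw [← lintegral_add_left (subD_meas μ 1 hh a)]
  refine lintegral_congr fun t => ?_
  rw [← ex_eq, ex_ge]

lemma EX_split (μ : Measure ℝ) [SFinite μ] {h : ℝ} (hh : 0 ≤ h) (a T : ℝ) (J : ℕ) :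
    EX μ 0 h a T = (∑ j ∈ Finset.range J, ∫⁻ t in Ioc 0 T, (DD μ h a t - ((j : ℝ≥0∞) + 1))) + EX μ J h a T := by
  have hm := DD_meas μ hh a
  unfold EX
  rw [← lintegral_finsetSum, ← lintegral_add_left]
  · refine lintegral_congr fun t => ?_
    rw [← ex_eq, ex_split J]
  · exact Finset.measurable_sum _ fun j _ => hm.sub measurable_const
  · intro j _
    exact hm.sub measurable_const

/-- the growth at distance `h` -/
lemma exJ_gr {B : ℝ} (hB : ∀ a t : ℝ, a ≤ 1 → W0 (mz γ) a t ^ 2 ≤ ENNReal.ofReal B * ENNReal.ofReal (qq t))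
    (J : ℕ) {h a : ℝ} (hh : 0 ≤ h) (h1 : h ≤ 1) (ha : a ≤ 1) (t : ℝ) :
    exJ J (DD (mz γ) h a t) ≤ (ENNReal.ofReal B * ENNReal.ofReal 4) * ENNReal.ofReal (qq t) := by
  have h2 : ∀ t, exJ J (W0 (mz γ) a t) ≤ ENNReal.ofReal B * ENNReal.ofReal (qq t) :=
    fun t => ((exJ_le_ex J _).trans (ex_sq _)).trans (hB a t ha)
  rcases hh.eq_or_lt with rfl | h0
  · rw [DD_zero]
    refine (h2 t).trans (mul_le_mul_left ?_ _)
    calc ENNReal.ofReal B = ENNReal.ofReal B * 1 := (mul_one _).symm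
      _ ≤ _ := mul_le_mul_right (by rw [← ENNReal.ofReal_one]; exact ENNReal.ofReal_le_ofReal (by norm_num)) _
  · rw [DD_pos (mz γ) h0]
    refine (jens_ex h0 (W0_meas (mz γ) a) J t).trans ?_
    calc Sm h (fun t => exJ J (W0 (mz γ) a t)) t ≤ Sm h (fun t => ENNReal.ofReal B * ENNReal.ofReal (qq t)) t :=
          Sm_mono h2 t
      _ = ENNReal.ofReal B * Sm h (fun t => ENNReal.ofReal (qq t)) t := by
          unfold Sm
          rw [← lintegral_const_mul']
          · refine lintegral_congr fun r => ?_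
            rw [mul_left_comm]
          · exact ENNReal.ofReal_ne_top
      _ ≤ ENNReal.ofReal B * (ENNReal.ofReal 4 * ENNReal.ofReal (qq t)) := mul_le_mul_right (Sm_qq h0 h1 t) _
      _ = _ := by rw [mul_assoc]

/-- monotonicity of the tails -/
theorem mono_ex (H : Zq γ N) {ε : ℝ} (hε : 0 < ε) : ∀ᶠ T in atTop, ∀ (J : ℕ) (a h h' : ℝ), a ≤ 1 → 0 ≤ h → h ≤ h' →
    h' ≤ 1 → EX (mz γ) J h' a T ≤ EX (mz γ) J h a T + ENNReal.ofReal (ε * T) := by
  obtain ⟨B, hB1, hB⟩ := gw H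
  have hlim : Tendsto (fun T : ℝ => Real.sqrt (Real.sqrt T)) atTop atTop :=
    Real.tendsto_sqrt_atTop.comp Real.tendsto_sqrt_atTop
  filter_upwards [eventually_ge_atTop 1, hlim.eventually_ge_atTop (24 * B / ε)] with T h1 h2
  intro J a h h' ha hh hh' h1'
  have hT : 0 < T := by linarith
  rcases hh'.eq_or_lt with rfl | h3
  · exact le_self_add
  obtain ⟨δ, hδ⟩ : ∃ δ, δ = h' - h := ⟨_, rfl⟩
  have hδ0 : 0 < δ := by rw [hδ]; linarith
  have e : h' = h + δ := by rw [hδ]; ring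
  have hm := DD_meas (mz γ) hh a
  have hg : Measurable (fun t => exJ J (DD (mz γ) h a t)) := (exJ_meas J).comp hm
  have h4 : EX (mz γ) J h' a T ≤ ∫⁻ t in Ioc 0 T, Sm δ (fun t => exJ J (DD (mz γ) h a t)) t := by
    unfold EX
    refine lintegral_mono fun t => ?_
    rw [e, DD_add (mz γ) hh hδ0]
    exact jens_ex hδ0 hm J t
  refine h4.trans ((bdry2 hg (fun t => exJ_gr hB J hh (by linarith) ha t) hδ0 h1).trans ?_)
  refine add_le_add le_rfl ?_
  rw [← ENNReal.ofReal_mul (by linarith), ← ENNReal.ofReal_mul (by positivity)]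
  apply ENNReal.ofReal_le_ofReal
  have hs : 0 < Real.sqrt (Real.sqrt T) := Real.sqrt_pos.2 (Real.sqrt_pos.2 hT)
  have h5 : 2 + 4 * δ ≤ 6 := by linarith
  rw [div_le_iff₀ hε] at h2
  calc B * 4 * ((2 + 4 * δ) * (T / Real.sqrt (Real.sqrt T))) ≤ B * 4 * (6 * (T / Real.sqrt (Real.sqrt T))) := by
        gcongr
    _ = 24 * B * T / Real.sqrt (Real.sqrt T) := by ring
    _ ≤ ε * T := by
        rw [div_le_iff₀ hs]
        nlinarith

/-- the moments -/
theorem mom_all (H : Zq γ N) (k : ℕ) {s : ℝ} (hs : 0 < s) : ∃ C : ℝ, 0 < C ∧ ∀ᶠ T in atTop,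
    ∫⁻ t in Ioc 0 T, W0 (mz γ) (2 * Real.pi * s / Real.log T) t ^ k ≤ ENNReal.ofReal (C * T) := by
  have hpi := Real.pi_pos
  obtain ⟨C, hC, h⟩ := H.mom k (2 * Real.pi * s) (by positivity)
  obtain ⟨U1, hU1⟩ := h.exists_forall_of_atTop
  obtain ⟨U0, hU0⟩ : ∃ U0, U0 = max U1 1 := ⟨_, rfl⟩
  have hU00 : 1 ≤ U0 := by rw [hU0]; exact le_max_right _ _
  have hU01 : U1 ≤ U0 := by rw [hU0]; exact le_max_left _ _
  -- the dyadic sum
  have key : ∀ n : ℕ, ∀ T a : ℝ, U0 ≤ T → T ≤ 2 ^ n * U0 → 0 < a → a * Real.log T ≤ 2 * Real.pi * s →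
      ∫⁻ t in Ioc U0 T, ((N (t + a) - N t : ℕ) : ℝ≥0∞) ^ k ≤ ENNReal.ofReal (2 * C * T) := by
    intro n
    induction n with
    | zero =>
      intro T a h1 h2 _ _
      have : T = U0 := by
        rw [pow_zero, one_mul] at h2
        linarith
      rw [this, Ioc_self]
      simp
    | succ n ih =>
      intro T a h1 h2 ha hal
      have hT : 0 < T := by linarith
      rcases le_or_gt T (2 * U0) with h3 | h3
      · have hal' : a * Real.log U0 ≤ 2 * Real.pi * s :=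
          (mul_le_mul_of_nonneg_left (Real.log_le_log (by linarith) h1) ha.le).trans hal
        calc ∫⁻ t in Ioc U0 T, ((N (t + a) - N t : ℕ) : ℝ≥0∞) ^ k
            ≤ ∫⁻ t in Ioc U0 (2 * U0), ((N (t + a) - N t : ℕ) : ℝ≥0∞) ^ k :=
              lintegral_mono_set (Ioc_subset_Ioc_right h3)
          _ ≤ ENNReal.ofReal (C * U0) := hU1 U0 hU01 a ha hal'
          _ ≤ _ := by
              apply ENNReal.ofReal_le_ofReal
              nlinarith
      · have hT2 : U0 ≤ T / 2 := by linarith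
        have hal' : a * Real.log (T / 2) ≤ 2 * Real.pi * s :=
          (mul_le_mul_of_nonneg_left (Real.log_le_log (by linarith) (by linarith)) ha.le).trans hal
        have b1 := ih (T / 2) a hT2 (by rw [pow_succ] at h2; linarith) ha hal'
        have b2 := hU1 (T / 2) (hU01.trans hT2) a ha hal'
        rw [mul_div_cancel₀ T (by norm_num : (2 : ℝ) ≠ 0)] at b2
        have hsub : Ioc U0 T ⊆ Ioc U0 (T / 2) ∪ Ioc (T / 2) T := by
          intro x hx
          rcases le_or_gt x (T / 2) with h5 | h5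
          · exact Or.inl ⟨hx.1, h5⟩
          · exact Or.inr ⟨h5, hx.2⟩
        calc ∫⁻ t in Ioc U0 T, ((N (t + a) - N t : ℕ) : ℝ≥0∞) ^ k ≤ _ :=
              (lintegral_mono_set hsub).trans (lintegral_union_le _ _ _)
          _ ≤ ENNReal.ofReal (2 * C * (T / 2)) + ENNReal.ofReal (C * (T / 2)) := add_le_add b1 b2
          _ ≤ _ := by
              rw [← ENNReal.ofReal_add (by positivity) (by positivity)]
              apply ENNReal.ofReal_le_ofReal
              nlinarith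
  obtain ⟨K, hK⟩ : ∃ K : ℝ, K = U0 * (N (U0 + 1) : ℝ) ^ k := ⟨_, rfl⟩
  have hK0 : 0 ≤ K := by rw [hK]; positivity
  refine ⟨2 * C + 1, by positivity, ?_⟩
  filter_upwards [eventually_ge_atTop U0, eventually_ge_atTop K,
    Real.tendsto_log_atTop.eventually_ge_atTop (max 1 (2 * Real.pi * s))] with T h1 h2 h5
  have hl1 : 1 ≤ Real.log T := (le_max_left _ _).trans h5
  have hls : 2 * Real.pi * s ≤ Real.log T := (le_max_right _ _).trans h5
  have hl : 0 < Real.log T := by linarith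
  obtain ⟨a, ha⟩ : ∃ a, a = 2 * Real.pi * s / Real.log T := ⟨_, rfl⟩
  have ha0 : 0 < a := by rw [ha]; positivity
  have ha1 : a ≤ 1 := by rw [ha, div_le_one hl]; exact hls
  have hal : a * Real.log T ≤ 2 * Real.pi * s := by
    rw [ha, div_mul_cancel₀ _ hl.ne']
  have hT : 0 < T := by linarith
  obtain ⟨n, hn⟩ : ∃ n : ℕ, T ≤ 2 ^ n * U0 := by
    obtain ⟨n, hn⟩ := pow_unbounded_of_one_lt T (show (1 : ℝ) < 2 by norm_num)
    refine ⟨n, hn.le.trans ?_⟩
    have : (0 : ℝ) < 2 ^ n := by positivity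
    nlinarith
  have b1 := key n T a h1 hn ha0 hal
  rw [← ha]
  have hsub : Ioc 0 T ⊆ Ioc 0 U0 ∪ Ioc U0 T := by
    intro x hx
    rcases le_or_gt x U0 with h5 | h5
    · exact Or.inl ⟨hx.1, h5⟩
    · exact Or.inr ⟨h5, hx.2⟩
  have e1 : ∫⁻ t in Ioc 0 T, W0 (mz γ) a t ^ k = ∫⁻ t in Ioc 0 T, ((N (t + a) - N t : ℕ) : ℝ≥0∞) ^ k := by
    refine setLIntegral_congr_fun measurableSet_Ioc fun t ht => ?_
    unfold W0
    rw [mz_win H.pts ht.1.le]
  rw [e1]
  refine (lintegral_mono_set hsub).trans ((lintegral_union_le _ _ _).trans ?_)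
  have b2 : ∫⁻ t in Ioc 0 U0, ((N (t + a) - N t : ℕ) : ℝ≥0∞) ^ k ≤ ENNReal.ofReal K := by
    calc ∫⁻ t in Ioc 0 U0, ((N (t + a) - N t : ℕ) : ℝ≥0∞) ^ k ≤ ∫⁻ _t in Ioc 0 U0, ((N (U0 + 1) : ℕ) : ℝ≥0∞) ^ k := by
          refine setLIntegral_mono' measurableSet_Ioc fun t ht => ?_
          have : N (t + a) - N t ≤ N (U0 + 1) := (Nat.sub_le _ _).trans (H.pts.mono (by linarith [ht.2]))
          gcongr
      _ = _ := by
          rw [setLIntegral_const, Real.volume_Ioc, sub_zero, hK, ENNReal.ofReal_mul (by linarith),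
            ENNReal.ofReal_pow (by positivity), ENNReal.ofReal_natCast, mul_comm]
  refine (add_le_add b2 b1).trans ?_
  rw [← ENNReal.ofReal_add hK0 (by positivity)]
  apply ENNReal.ofReal_le_ofReal
  linarith

/-- uniform integrability -/
theorem ui (H : Zq γ N) {s ε : ℝ} (hs : 0 < s) (hε : 0 < ε) : ∃ J : ℕ, 0 < J ∧ ∀ᶠ T in atTop, ∀ h : ℝ, 0 ≤ h → h ≤ 1 →
    EX (mz γ) J h (2 * Real.pi * s / Real.log T) T ≤ ENNReal.ofReal (ε * T) := by
  have hpi := Real.pi_pos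
  obtain ⟨C, hC, hcub⟩ := mom_all H 3 hs
  obtain ⟨J, hJ⟩ := exists_nat_gt (2 * C / ε)
  have hJ0 : (0 : ℝ) < J := lt_of_le_of_lt (by positivity) hJ
  have hJ1 : 0 < J := by exact_mod_cast hJ0
  refine ⟨J, hJ1, ?_⟩
  filter_upwards [hcub, mono_ex H (show 0 < ε / 2 by positivity), eventually_gt_atTop 0,
    Real.tendsto_log_atTop.eventually_ge_atTop (max 1 (2 * Real.pi * s))] with T h1 h2 hT h5
  intro h hh hh1
  have hl1 : 1 ≤ Real.log T := (le_max_left _ _).trans h5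
  have hls : 2 * Real.pi * s ≤ Real.log T := (le_max_right _ _).trans h5
  have hl : 0 < Real.log T := by linarith
  obtain ⟨a, ha⟩ : ∃ a, a = 2 * Real.pi * s / Real.log T := ⟨_, rfl⟩
  have ha0 : 0 < a := by rw [ha]; positivity
  have ha1 : a ≤ 1 := by rw [ha, div_le_one hl]; exact hls
  rw [← ha] at h1 ⊢
  refine (h2 J a 0 h ha1 le_rfl hh hh1).trans ?_
  have h3 : (J : ℝ≥0∞) * EX (mz γ) J 0 a T ≤ ENNReal.ofReal (C * T) := by
    refine le_trans ?_ h1
    unfold EX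
    rw [← lintegral_const_mul _ (exD_meas (mz γ) J le_rfl a), DD_zero]
    refine setLIntegral_mono' measurableSet_Ioc fun t ht => ?_
    unfold W0
    rw [mz_win H.pts ht.1.le]
    exact exJ_nat J _
  have h4 : EX (mz γ) J 0 a T ≤ ENNReal.ofReal (ε / 2 * T) := by
    have hJ' : (J : ℝ≥0∞) ≠ 0 := by exact_mod_cast hJ1.ne'
    have h6 : (J : ℝ≥0∞) * EX (mz γ) J 0 a T ≤ (J : ℝ≥0∞) * ENNReal.ofReal (ε / 2 * T) := by
      refine h3.trans ?_
      rw [← ENNReal.ofReal_natCast, ← ENNReal.ofReal_mul hJ0.le]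
      apply ENNReal.ofReal_le_ofReal
      rw [div_lt_iff₀ hε] at hJ
      nlinarith
    exact (ENNReal.mul_le_mul_iff_right hJ' (ENNReal.natCast_ne_top J)).1 h6
  refine (add_le_add h4 le_rfl).trans (le_of_eq ?_)
  rw [← ENNReal.ofReal_add (by positivity) (by positivity)]
  congr 1
  ring

end Pool.Agent.P8H69.PL
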